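import Pool.Agent.helper59.LC.Planar

/-!
# One periodic orbit near a simple zero of the Melnikov integral
-/

open Set Filter Topology

namespace Pool.Agent.helper59.LC

noncomputable section

/-- data for a periodic function -/
theorem per_data {F : ℝ → ℝ → ℝ} {a b : ℝ}
    (hF : ContDiffOn ℝ 1 (fun p : ℝ × ℝ => F p.1 p.2) {p | a < p.2 ∧ p.2 < b})
    (hper : ∀ θ r, F (θ + 2 * Real.pi) r = F θ r) :
    ∃ F' : ℝ → ℝ → ℝ, (∀ θ r, a < r → r < b → HasDerivAt (F θ) (F' θ r) r) ∧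
      ContinuousOn (fun p : ℝ × ℝ => F' p.1 p.2) {p | a < p.2 ∧ p.2 < b} ∧
      (∀ α β, a < α → β < b → ∃ C, ∀ θ r, α ≤ r → r ≤ β → |F θ r| ≤ C ∧ |F' θ r| ≤ C) ∧
      (∀ r₀ κ, a < r₀ → r₀ < b → 0 < κ → ∃ δ > 0, ∀ θ r, |r - r₀| ≤ δ → a < r → r < b →
        |F' θ r - F' θ r₀| ≤ κ) := by
  set S : Set (ℝ × ℝ) := {p | a < p.2 ∧ p.2 < b} with hS
  have hSo : IsOpen S := (isOpen_lt continuous_const continuous_snd).inter
    (isOpen_lt continuous_snd continuous_const)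
  set Fu : ℝ × ℝ → ℝ := fun p => F p.1 p.2 with hFu
  set F' : ℝ → ℝ → ℝ := fun θ r => fderiv ℝ Fu (θ, r) (0, 1) with hF'
  have hd : ∀ θ r, a < r → r < b → HasDerivAt (F θ) (F' θ r) r := by
    intro θ r h1 h2
    have h3 : DifferentiableAt ℝ Fu (θ, r) :=
      (hF.differentiableOn one_ne_zero).differentiableAt (hSo.mem_nhds ⟨h1, h2⟩)
    have h4 : HasDerivAt (fun s : ℝ => ((θ, s) : ℝ × ℝ)) (0, 1) r :=
      (hasDerivAt_const r θ).prodMk (hasDerivAt_id r)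
    exact h3.hasFDerivAt.comp_hasDerivAt r h4
  have hc : ContinuousOn (fun p : ℝ × ℝ => F' p.1 p.2) S := by
    have h1 := hF.continuousOn_fderiv_of_isOpen hSo le_rfl
    exact h1.clm_apply continuousOn_const
  have hF'per : ∀ θ r, a < r → r < b → F' (θ + 2 * Real.pi) r = F' θ r := by
    intro θ r h1 h2
    have h3 := hd (θ + 2 * Real.pi) r h1 h2
    have h4 : F (θ + 2 * Real.pi) = F θ := funext fun s => hper θ s
    rw [h4] at h3
    exact h3.unique (hd θ r h1 h2)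
  have hpi : (0 : ℝ) < 2 * Real.pi := by positivity
  -- reduction to a period
  have hred : ∀ θ : ℝ, ∃ θ' ∈ Icc (0 : ℝ) (2 * Real.pi), ∀ r, a < r → r < b →
      F θ r = F θ' r ∧ F' θ r = F' θ' r := by
    intro θ
    have hP : Function.Periodic (fun θ => fun r : {r : ℝ // a < r ∧ r < b} =>
        (F θ r.1, F' θ r.1)) (2 * Real.pi) := by
      intro θ
      funext r
      simp only
      rw [hper, hF'per θ r.1 r.2.1 r.2.2]
    obtain ⟨θ', hθ', he⟩ := hP.exists_mem_Ico₀ hpi θ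
    refine ⟨θ', Ico_subset_Icc_self hθ', fun r h1 h2 => ?_⟩
    have := congrFun he ⟨r, h1, h2⟩
    simp only [Prod.mk.injEq] at this
    exact this
  refine ⟨F', hd, hc, ?_, ?_⟩
  · intro α β hα hβ
    have hK : IsCompact (Icc (0 : ℝ) (2 * Real.pi) ×ˢ Icc α β) := isCompact_Icc.prod isCompact_Icc
    have hsub : Icc (0 : ℝ) (2 * Real.pi) ×ˢ Icc α β ⊆ S := fun p hp =>
      ⟨hα.trans_le hp.2.1, hp.2.2.trans_lt hβ⟩
    obtain ⟨C1, hC1⟩ := hK.exists_bound_of_continuousOn (hF.continuousOn.mono hsub)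
    obtain ⟨C2, hC2⟩ := hK.exists_bound_of_continuousOn (hc.mono hsub)
    refine ⟨max C1 C2, fun θ r h1 h2 => ?_⟩
    obtain ⟨θ', hθ', he⟩ := hred θ
    obtain ⟨e1, e2⟩ := he r (hα.trans_le h1) (h2.trans_lt hβ)
    rw [e1, e2]
    exact ⟨(hC1 (θ', r) ⟨hθ', h1, h2⟩).trans (le_max_left _ _),
      (hC2 (θ', r) ⟨hθ', h1, h2⟩).trans (le_max_right _ _)⟩
  · intro r₀ κ h1 h2 hκ
    obtain ⟨δ₀, hδ₀, hα, hβ⟩ : ∃ δ₀ > 0, a < r₀ - δ₀ ∧ r₀ + δ₀ < b :=
      ⟨min (r₀ - a) (b - r₀) / 2, by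
        have : 0 < min (r₀ - a) (b - r₀) := lt_min (by linarith) (by linarith)
        positivity, by
        have := min_le_left (r₀ - a) (b - r₀)
        linarith, by
        have := min_le_right (r₀ - a) (b - r₀)
        linarith⟩
    have hK : IsCompact (Icc (0 : ℝ) (2 * Real.pi) ×ˢ Icc (r₀ - δ₀) (r₀ + δ₀)) :=
      isCompact_Icc.prod isCompact_Icc
    have hsub : Icc (0 : ℝ) (2 * Real.pi) ×ˢ Icc (r₀ - δ₀) (r₀ + δ₀) ⊆ S := fun p hp =>
      ⟨hα.trans_le hp.2.1, hp.2.2.trans_lt hβ⟩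
    have hU := hK.uniformContinuousOn_of_continuous (hc.mono hsub)
    rw [Metric.uniformContinuousOn_iff] at hU
    obtain ⟨δ₁, hδ₁, hU⟩ := hU κ hκ
    refine ⟨min δ₀ (δ₁ / 2), lt_min hδ₀ (by positivity), fun θ r hr h3 h4 => ?_⟩
    obtain ⟨θ', hθ', he⟩ := hred θ
    rw [(he r h3 h4).2, (he r₀ h1 h2).2]
    have hr1 : |r - r₀| ≤ δ₀ := hr.trans (min_le_left _ _)
    have hr2 : |r - r₀| < δ₁ := by
      have := hr.trans (min_le_right _ _)
      linarith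
    have := hU (θ', r) ⟨hθ', by
      rw [abs_le] at hr1
      exact ⟨by linarith, by linarith⟩⟩ (θ', r₀) ⟨hθ', ⟨by linarith, by linarith⟩⟩ (by
        rw [Prod.dist_eq]
        simp only [dist_self]
        rw [Real.dist_eq]
        exact max_lt hδ₁ hr2)
    simp only [Real.dist_eq] at this
    exact this.le

theorem contDiffOn_AA {G : ℂ → ℂ} {a b : ℝ} (ha : 0 ≤ a)
    (hG : ContDiffOn ℝ 1 G {w | a < ‖w‖ ∧ ‖w‖ < b}) :
    ContDiffOn ℝ 1 (fun p : ℝ × ℝ => AA G p.1 p.2) {p | a < p.2 ∧ p.2 < b} ∧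
    ContDiffOn ℝ 1 (fun p : ℝ × ℝ => HH G p.1 p.2) {p | a < p.2 ∧ p.2 < b} := by
  have hexp : ContDiff ℝ 1 (fun p : ℝ × ℝ => Complex.exp ((p.1 : ℂ) * Complex.I)) := by
    have h1 : ContDiff ℝ 1 (fun p : ℝ × ℝ => ((p.1 : ℂ) * Complex.I)) :=
      (Complex.ofRealCLM.contDiff.comp contDiff_fst).mul contDiff_const
    exact h1.cexp
  have hexp' : ContDiff ℝ 1 (fun p : ℝ × ℝ => Complex.exp (-((p.1 : ℂ) * Complex.I))) := by
    have h1 : ContDiff ℝ 1 (fun p : ℝ × ℝ => ((p.1 : ℂ) * Complex.I)) :=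
      (Complex.ofRealCLM.contDiff.comp contDiff_fst).mul contDiff_const
    exact h1.neg.cexp
  have hz : ContDiff ℝ 1 (fun p : ℝ × ℝ => (p.2 : ℂ) * Complex.exp ((p.1 : ℂ) * Complex.I)) :=
    (Complex.ofRealCLM.contDiff.comp contDiff_snd).mul hexp
  have hcomp : ContDiffOn ℝ 1 (fun p : ℝ × ℝ => G ((p.2 : ℂ) *
      Complex.exp ((p.1 : ℂ) * Complex.I))) {p | a < p.2 ∧ p.2 < b} := by
    refine hG.comp hz.contDiffOn fun p hp => ?_
    change a < ‖_‖ ∧ ‖_‖ < b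
    rw [norm_polar (ha.trans_lt hp.1)]
    exact hp
  have hprod := hexp'.contDiffOn.mul hcomp
  constructor
  · exact Complex.reCLM.contDiff.comp_contDiffOn hprod
  · have h1 : ContDiffOn ℝ 1 (fun p : ℝ × ℝ => (Complex.exp (-((p.1 : ℂ) * Complex.I)) *
        G ((p.2 : ℂ) * Complex.exp ((p.1 : ℂ) * Complex.I))).im) {p | a < p.2 ∧ p.2 < b} :=
      Complex.imCLM.contDiff.comp_contDiffOn hprod
    exact h1.div contDiff_snd.contDiffOn fun p hp => (ha.trans_lt hp.1).ne'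

/-- the estimates needed for the scalar equation -/
theorem wdata {G : ℂ → ℂ} {a b r₀ : ℝ} (ha : 0 ≤ a) (h1 : a < r₀) (h2 : r₀ < b)
    (hG : ContDiffOn ℝ 1 G {w | a < ‖w‖ ∧ ‖w‖ < b})
    (hA0 : ∫ θ in (0 : ℝ)..(2 * Real.pi), AA G θ r₀ = 0) {μ : ℝ} (hμ : μ ≠ 0)
    (hA1 : ∫ θ in (0 : ℝ)..(2 * Real.pi), deriv (AA G θ) r₀ = μ) :
    ∃ C η₁ : ℝ, 0 < C ∧ 0 < η₁ ∧ a < r₀ - η₁ ∧ r₀ + η₁ < b ∧
      ∀ η, 0 < η → η ≤ η₁ → ∀ ε, 0 < ε → ε ≤ 1 / C → C * ε ≤ |μ| →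
        (∀ θ r, r ∈ Icc (r₀ - η) (r₀ + η) → |ε * HH G θ r| ≤ 1 / 2) ∧
        ∃ κ, 2 * Real.pi * κ ≤ |μ| / 4 ∧
        WData (WW G ε) (fun θ => deriv (AA G θ) r₀) (fun θ => AA G θ r₀) r₀ η C κ (C * ε) μ := by
  obtain ⟨hcA, hcH⟩ := contDiffOn_AA ha hG
  obtain ⟨A', hA'd, hA'c, hA'b, hA'u⟩ := per_data hcA (AA_per G)
  obtain ⟨H', hH'd, hH'c, hH'b, -⟩ := per_data hcH (HH_per G)
  have hμ' : 0 < |μ| := abs_pos.2 hμ
  have hpi := Real.pi_pos
  set κ₀ := |μ| / (32 * Real.pi) with hκ₀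
  have hκ₀' : 0 < κ₀ := by positivity
  obtain ⟨δ, hδ, hu⟩ := hA'u r₀ κ₀ h1 h2 hκ₀'
  obtain ⟨η₀, hη₀, hα, hβ⟩ : ∃ δ₀ > 0, a < r₀ - δ₀ ∧ r₀ + δ₀ < b :=
    ⟨min (r₀ - a) (b - r₀) / 2, by
      have : 0 < min (r₀ - a) (b - r₀) := lt_min (by linarith) (by linarith)
      positivity, by
      have := min_le_left (r₀ - a) (b - r₀)
      linarith, by
      have := min_le_right (r₀ - a) (b - r₀)
      linarith⟩
  obtain ⟨C1, hC1⟩ := hA'b _ _ hα hβ
  obtain ⟨C2, hC2⟩ := hH'b _ _ hα hβ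
  set C0 := max (max C1 C2) 1 with hC0
  have hC01 : 1 ≤ C0 := le_max_right _ _
  have hb1 : ∀ θ r, r ∈ Icc (r₀ - η₀) (r₀ + η₀) → |AA G θ r| ≤ C0 ∧ |A' θ r| ≤ C0 ∧
      |HH G θ r| ≤ C0 ∧ |H' θ r| ≤ C0 := by
    intro θ r hr
    obtain ⟨e1, e2⟩ := hC1 θ r hr.1 hr.2
    obtain ⟨e3, e4⟩ := hC2 θ r hr.1 hr.2
    have l1 : C1 ≤ C0 := (le_max_left _ _).trans (le_max_left _ _)
    have l2 : C2 ≤ C0 := (le_max_right _ _).trans (le_max_left _ _)
    exact ⟨e1.trans l1, e2.trans l1, e3.trans l2, e4.trans l2⟩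
  set C := 200 * Real.pi * C0 ^ 2 with hC
  have hCpos : 0 < C := by positivity
  have hpi1 : 3 < Real.pi := Real.pi_gt_three
  have hC0C : 6 * C0 ≤ C := by
    rw [hC]
    nlinarith
  refine ⟨C, min η₀ δ, hCpos, lt_min hη₀ hδ, ?_, ?_, ?_⟩
  · have := min_le_left η₀ δ
    linarith
  · have := min_le_left η₀ δ
    linarith
  intro η hη hη1 ε hε hε1 hε2
  have hηη₀ : η ≤ η₀ := hη1.trans (min_le_left _ _)
  have hηδ : η ≤ δ := hη1.trans (min_le_right _ _)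
  have hJ : ∀ r, r ∈ Icc (r₀ - η) (r₀ + η) → r ∈ Icc (r₀ - η₀) (r₀ + η₀) ∧ a < r ∧ r < b := by
    intro r hr
    exact ⟨⟨by linarith [hr.1], by linarith [hr.2]⟩, by linarith [hr.1], by linarith [hr.2]⟩
  have hεC : ε * C ≤ 1 := by
    rw [le_div_iff₀ hCpos] at hε1
    exact hε1
  have hεC0 : ε * C0 ≤ 1 / 6 := by nlinarith
  have hHs : ∀ θ r, r ∈ Icc (r₀ - η) (r₀ + η) → |ε * HH G θ r| ≤ ε * C0 := by
    intro θ r hr
    rw [abs_mul, abs_of_pos hε]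
    exact mul_le_mul_of_nonneg_left (hb1 θ r (hJ r hr).1).2.2.1 hε.le
  refine ⟨fun θ r hr => (hHs θ r hr).trans (by linarith), ?_⟩
  have hden : ∀ θ r, r ∈ Icc (r₀ - η) (r₀ + η) → 1 / 2 ≤ 1 + ε * HH G θ r := by
    intro θ r hr
    have := abs_le.1 (hHs θ r hr)
    linarith
  have hr₀J : r₀ ∈ Icc (r₀ - η) (r₀ + η) := ⟨by linarith, by linarith⟩
  have hA'eq : ∀ θ, deriv (AA G θ) r₀ = A' θ r₀ := fun θ => (hA'd θ r₀ h1 h2).deriv
  -- inverse estimate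
  have hinv : ∀ θ r, r ∈ Icc (r₀ - η) (r₀ + η) →
      |(1 + ε * HH G θ r)⁻¹| ≤ 2 ∧ |(1 + ε * HH G θ r)⁻¹ - 1| ≤ 2 * (ε * C0) := by
    intro θ r hr
    have hd := hden θ r hr
    have hd0 : 0 < 1 + ε * HH G θ r := by linarith
    have h3 : |(1 + ε * HH G θ r)⁻¹| ≤ 2 := by
      rw [abs_of_pos (inv_pos.2 hd0), inv_le_comm₀ hd0 (by norm_num)]
      linarith
    refine ⟨h3, ?_⟩
    have e : (1 + ε * HH G θ r)⁻¹ - 1 = (1 + ε * HH G θ r)⁻¹ * (-(ε * HH G θ r)) := by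
      field_simp
      ring
    rw [e, abs_mul, abs_neg]
    exact mul_le_mul h3 (hHs θ r hr) (abs_nonneg _) (by norm_num)
  refine ⟨κ₀ + 6 * C0 ^ 2 * ε, ?_, ?_⟩
  · have e1 : 2 * Real.pi * κ₀ = |μ| / 16 := by
      rw [hκ₀]
      field_simp
      norm_num
    have e2 : 2 * Real.pi * (6 * C0 ^ 2 * ε) ≤ |μ| / 16 := by
      have : 2 * Real.pi * (6 * C0 ^ 2 * ε) = (12 / 200) * (C * ε) := by
        rw [hC]; ring
      rw [this]
      nlinarith
    have : 2 * Real.pi * (κ₀ + 6 * C0 ^ 2 * ε) =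
        2 * Real.pi * κ₀ + 2 * Real.pi * (6 * C0 ^ 2 * ε) := by ring
    rw [this, e1]
    linarith
  · refine ⟨hη, by positivity, ?_, ?_, ?_, ?_, ?_, ?_, ?_, ?_, hA0, hA1⟩
    · -- continuity of WW
      intro r hr
      have hcont : ∀ {F : ℝ → ℝ → ℝ}, ContinuousOn (fun p : ℝ × ℝ => F p.1 p.2)
          {p | a < p.2 ∧ p.2 < b} → Continuous fun θ => F θ r := by
        intro F hF
        exact hF.comp_continuous (continuous_id.prodMk continuous_const)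
          fun θ => ⟨(hJ r hr).2.1, (hJ r hr).2.2⟩
      have c1 : Continuous fun θ => AA G θ r := hcont (F := AA G) hcA.continuousOn
      have c2 : Continuous fun θ => HH G θ r := hcont (F := HH G) hcH.continuousOn
      refine c1.div (continuous_const.add (continuous_const.mul c2)) fun θ => ?_
      have := hden θ r hr
      linarith
    · -- continuity of D
      have : (fun θ => deriv (AA G θ) r₀) = fun θ => A' θ r₀ := funext hA'eq
      rw [this]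
      exact hA'c.comp_continuous (f := fun θ : ℝ => (θ, r₀))
        (continuous_id.prodMk continuous_const) fun θ => ⟨h1, h2⟩
    · exact hcA.continuousOn.comp_continuous (f := fun θ : ℝ => (θ, r₀))
        (continuous_id.prodMk continuous_const) fun θ => ⟨h1, h2⟩
    · intro θ r hr
      rw [WW, WW, AA_per, HH_per]
    · intro θ r hr
      rw [WW, div_eq_mul_inv, abs_mul]
      have t1 := (hb1 θ r (hJ r hr).1).1
      have t2 := (hinv θ r hr).1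
      calc |AA G θ r| * |(1 + ε * HH G θ r)⁻¹| ≤ C0 * 2 := by gcongr
        _ ≤ C := by linarith
    · intro θ r hr s hs
      set D := deriv (AA G θ) r₀ with hD
      set f : ℝ → ℝ := fun x => WW G ε θ x - D * x with hf
      set f' : ℝ → ℝ := fun x => (A' θ x * (1 + ε * HH G θ x) - AA G θ x * (ε * H' θ x)) /
        (1 + ε * HH G θ x) ^ 2 - D with hf'
      have hder : ∀ x ∈ Icc (r₀ - η) (r₀ + η), HasDerivWithinAt f (f' x)
          (Icc (r₀ - η) (r₀ + η)) x := by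
        intro x hx
        obtain ⟨-, hxa, hxb⟩ := hJ x hx
        have hne : (1 + ε * HH G θ x) ≠ 0 := by
          have := hden θ x hx
          linarith
        have d1 := hA'd θ x hxa hxb
        have d2 := ((hH'd θ x hxa hxb).const_mul ε).const_add 1
        have d3 := (d1.fun_div d2 hne).fun_sub ((hasDerivAt_id x).const_mul D)
        rw [mul_one] at d3
        exact d3.hasDerivWithinAt
      have hbd : ∀ x ∈ Icc (r₀ - η) (r₀ + η), ‖f' x‖ ≤ κ₀ + 6 * C0 ^ 2 * ε := by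
        intro x hx
        obtain ⟨hx0, hxa, hxb⟩ := hJ x hx
        have hne : (1 + ε * HH G θ x) ≠ 0 := by
          have := hden θ x hx
          linarith
        obtain ⟨b1, b2, b3, b4⟩ := hb1 θ x hx0
        obtain ⟨i1, i2⟩ := hinv θ x hx
        have hux : |A' θ x - A' θ r₀| ≤ κ₀ := by
          refine hu θ x ?_ hxa hxb
          rw [abs_le]
          exact ⟨by linarith [hx.1], by linarith [hx.2]⟩
        have e : f' x = (A' θ x - A' θ r₀) + A' θ x * ((1 + ε * HH G θ x)⁻¹ - 1) +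
            -(AA G θ x * (ε * H' θ x) * ((1 + ε * HH G θ x)⁻¹ * (1 + ε * HH G θ x)⁻¹)) := by
          rw [hf', hD, hA'eq]
          simp only
          field_simp
          ring
        rw [e, Real.norm_eq_abs]
        have t2 : |A' θ x * ((1 + ε * HH G θ x)⁻¹ - 1)| ≤ C0 * (2 * (ε * C0)) := by
          rw [abs_mul]
          gcongr
        have t3 : |-(AA G θ x * (ε * H' θ x) * ((1 + ε * HH G θ x)⁻¹ *
            (1 + ε * HH G θ x)⁻¹))| ≤ C0 * (ε * C0) * (2 * 2) := by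
          rw [abs_neg, abs_mul, abs_mul, abs_mul, abs_mul, abs_of_pos hε]
          gcongr
        calc _ ≤ |A' θ x - A' θ r₀| + |A' θ x * ((1 + ε * HH G θ x)⁻¹ - 1)| +
              |-(AA G θ x * (ε * H' θ x) * ((1 + ε * HH G θ x)⁻¹ *
              (1 + ε * HH G θ x)⁻¹))| := abs_add_three _ _ _
          _ ≤ κ₀ + C0 * (2 * (ε * C0)) + C0 * (ε * C0) * (2 * 2) := by linarith
          _ = _ := by ring
      have hmv := Convex.norm_image_sub_le_of_norm_hasDerivWithin_le hder hbd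
        (convex_Icc _ _) hs hr
      rw [Real.norm_eq_abs, Real.norm_eq_abs] at hmv
      have e : f r - f s = WW G ε θ r - WW G ε θ s - D * (r - s) := by
        rw [hf]; ring
      rw [e] at hmv
      exact hmv
    · intro θ
      have e : WW G ε θ r₀ - AA G θ r₀ = AA G θ r₀ * ((1 + ε * HH G θ r₀)⁻¹ - 1) := by
        rw [WW]; ring
      rw [e, abs_mul]
      have t1 := (hb1 θ r₀ (hJ r₀ hr₀J).1).1
      have t2 := (hinv θ r₀ hr₀J).2
      calc _ ≤ C0 * (2 * (ε * C0)) := by gcongr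
        _ = 2 * C0 ^ 2 * ε := by ring
        _ ≤ C * ε := by
          rw [hC]
          have : 2 * C0 ^ 2 ≤ 200 * Real.pi * C0 ^ 2 := by nlinarith [sq_nonneg C0]
          gcongr
    · intro θ
      rw [hA'eq]
      have t1 := (hb1 θ r₀ (hJ r₀ hr₀J).1).2.1
      linarith

/-- a unique periodic orbit in a thin annulus -/
theorem annulus {G : ℂ → ℂ} {a b r₀ : ℝ} (ha : 0 ≤ a) (h1 : a < r₀) (h2 : r₀ < b)
    (hG : ContDiffOn ℝ 1 G {w | a < ‖w‖ ∧ ‖w‖ < b})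
    (hA0 : ∫ θ in (0 : ℝ)..(2 * Real.pi), AA G θ r₀ = 0)
    (hA1 : ∫ θ in (0 : ℝ)..(2 * Real.pi), deriv (AA G θ) r₀ ≠ 0) :
    ∃ η₁ : ℝ, 0 < η₁ ∧ a < r₀ - η₁ ∧ r₀ + η₁ < b ∧
      ∀ η, 0 < η → η ≤ η₁ → ∃ ε₀ > 0, ∀ ε, 0 < ε → ε < ε₀ →
        ∃ T : ℝ, 0 < T ∧ ∃ w : ℝ → ℂ, (∀ t, HasDerivAt w (VF G ε (w t)) t) ∧
          (∀ t, w (t + T) = w t) ∧ (∀ t, |‖w t‖ - r₀| < η) ∧ (∃ t, w t ≠ w 0) ∧
          ∀ T' : ℝ, 0 < T' → ∀ w' : ℝ → ℂ, (∀ t, HasDerivAt w' (VF G ε (w' t)) t) →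
            (∀ t, w' (t + T') = w' t) → (∀ t, |‖w' t‖ - r₀| < η) → range w' = range w := by
  set μ := ∫ θ in (0 : ℝ)..(2 * Real.pi), deriv (AA G θ) r₀ with hμ
  obtain ⟨C, η₁, hC, hη₁, ha1, hb1, hW⟩ := wdata ha h1 h2 hG hA0 hA1 hμ.symm
  have hμ' : 0 < |μ| := abs_pos.2 hA1
  have hpi := Real.pi_pos
  refine ⟨η₁, hη₁, ha1, hb1, fun η hη hηη₁ => ?_⟩
  -- choose ε₀
  set ε₀ : ℝ := min (min (1 / C) (|μ| / C)) (min (η / (8 * Real.pi * C))
    (η * |μ| / (16 * Real.pi * (C + 2 * Real.pi * C ^ 2)))) with hε₀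
  have hε₀pos : 0 < ε₀ := by
    rw [hε₀]
    refine lt_min (lt_min (by positivity) (by positivity)) (lt_min (by positivity) (by positivity))
  refine ⟨ε₀, hε₀pos, fun ε hε hεε₀ => ?_⟩
  have l1 : ε ≤ 1 / C := hεε₀.le.trans ((min_le_left _ _).trans (min_le_left _ _))
  have l2 : ε ≤ |μ| / C := hεε₀.le.trans ((min_le_left _ _).trans (min_le_right _ _))
  have l3 : ε < η / (8 * Real.pi * C) := hεε₀.trans_le ((min_le_right _ _).trans (min_le_left _ _))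
  have l4 : ε < η * |μ| / (16 * Real.pi * (C + 2 * Real.pi * C ^ 2)) :=
    hεε₀.trans_le ((min_le_right _ _).trans (min_le_right _ _))
  rw [le_div_iff₀ hC] at l2
  rw [lt_div_iff₀ (by positivity)] at l3 l4
  obtain ⟨hH, κ, hκ, hD⟩ := hW η hη hηη₁ ε hε l1 (by linarith)
  obtain ⟨ρ, hρ, hρper, hρc⟩ := exists_periodic hD hε (by nlinarith) (by
    have e : 2 * Real.pi * (C * ε + κ * η + C * (2 * Real.pi * (ε * C))) =
        (2 * Real.pi * κ) * η + 2 * Real.pi * (C + 2 * Real.pi * C ^ 2) * ε := by ring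
    rw [e]
    have e2 : (2 * Real.pi * κ) * η ≤ |μ| / 4 * η := by gcongr
    nlinarith)
  have hGc : ContinuousOn G {w | r₀ - η < ‖w‖ ∧ ‖w‖ < r₀ + η} := by
    refine hG.continuousOn.mono fun w hw => ?_
    exact ⟨by linarith [hw.1], by linarith [hw.2]⟩
  have hη0 : 0 ≤ r₀ - η := by linarith
  have hHs : ∀ θ r, r₀ - η < r → r < r₀ + η → |ε * HH G θ r| ≤ 1 / 2 := fun θ r e1 e2 =>
    hH θ r ⟨e1.le, e2.le⟩
  have hρab : ∀ θ, r₀ - η < ρ θ ∧ ρ θ < r₀ + η := fun θ => by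
    have := abs_lt.1 (hρc θ)
    constructor <;> linarith
  obtain ⟨T, hT, w, hw, hwper, hwr⟩ := to_planar hη0 hGc hHs (fun θ => (hρ θ).1) hρab hρper
  refine ⟨T, hT, w, hw, hwper, fun t => ?_, ?_, ?_⟩
  · have : w t ∈ range fun θ : ℝ => (ρ θ : ℂ) * Complex.exp (θ * Complex.I) := by
      rw [← hwr]; exact ⟨t, rfl⟩
    obtain ⟨θ, hθ⟩ := this
    simp only at hθ
    rw [← hθ, norm_polar (hη0.trans_lt (hρab θ).1)]
    exact hρc θ
  · by_contra hcon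
    push Not at hcon
    obtain ⟨t0, ht0⟩ : ((ρ 0 : ℂ) * Complex.exp ((0 : ℝ) * Complex.I)) ∈ range w := by
      rw [hwr]; exact ⟨0, rfl⟩
    obtain ⟨t1, ht1⟩ : ((ρ Real.pi : ℂ) * Complex.exp ((Real.pi : ℝ) * Complex.I)) ∈ range w := by
      rw [hwr]; exact ⟨Real.pi, rfl⟩
    rw [hcon t0] at ht0
    rw [hcon t1, ht0] at ht1
    have e1 : Complex.exp (((0 : ℝ) : ℂ) * Complex.I) = 1 := by simp
    rw [e1, Complex.exp_pi_mul_I] at ht1
    have e2 : ρ 0 = -ρ Real.pi := by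
      have : ((ρ 0 : ℝ) : ℂ) = ((-ρ Real.pi : ℝ) : ℂ) := by
        push_cast
        linear_combination ht1
      exact_mod_cast this
    have p1 := hη0.trans_lt (hρab 0).1
    have p2 := hη0.trans_lt (hρab Real.pi).1
    linarith
  · intro T' hT' w' hw' hw'per hw'n
    have hw'ab : ∀ t, r₀ - η < ‖w' t‖ ∧ ‖w' t‖ < r₀ + η := fun t => by
      have := abs_lt.1 (hw'n t)
      constructor <;> linarith
    obtain ⟨σ, hσ, hσab, ⟨K, hK, hσK⟩, hσr⟩ := to_scalar hη0 hGc hHs hw' hw'ab hT' hw'per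
    have hσsol : IsSol (WW G ε) r₀ η ε σ := fun θ =>
      ⟨hσ θ, ⟨(hσab θ).1.le, (hσab θ).2.le⟩⟩
    have hσper := hσsol.periodic_of hD hε.le hK (by
      have := hσK 0
      rwa [zero_add] at this)
    have heq : ρ = σ := hρ.unique hD hε (by
      have : |μ| / 4 < |μ| := by linarith
      linarith) hσsol (by
        have := hρper 0
        rwa [zero_add] at this) (by
        have := hσper 0
        rwa [zero_add] at this)
    rw [hσr, hwr, heq]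

end

end Pool.Agent.helper59.LC
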