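import Pool.Agent.helper59.LC.KeyB

/-!
# Independence at the degenerate pair `f = z + z² + z^(k+2)`, `h = z - z^(k+2)`
-/

open PowerSeries

namespace Pool.Agent.helper59.LC

noncomputable section

/-! ### algebra on the `f` side -/

/-- `e = 1 + z + z^(k+1)`, `f = z e` -/
def eP (k : ℕ) : Polynomial ℂ := 1 + Polynomial.X + Polynomial.X ^ (k + 1)

theorem FF_eq_X_mul (k : ℕ) : FF (gf ℂ k) = Polynomial.X * eP k := by
  rw [FF_gf, eP]; ring

theorem eP_deriv (k : ℕ) : Polynomial.derivative (eP k) =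
    1 + Polynomial.C ((k : ℂ) + 1) * Polynomial.X ^ k := by
  rw [eP]
  simp only [map_add, Polynomial.derivative_one, Polynomial.derivative_X,
    Polynomial.derivative_X_pow, map_one, map_natCast]
  push_cast
  simp

theorem FF_gf_deriv (k : ℕ) : Polynomial.derivative (FF (gf ℂ k)) =
    eP k + Polynomial.X * Polynomial.derivative (eP k) := by
  rw [FF_eq_X_mul, Polynomial.derivative_mul, Polynomial.derivative_X]
  ring

theorem eP_coeff_top {k : ℕ} (hk : 1 ≤ k) : (eP k).coeff (k + 1) = 1 := by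
  rw [eP, Polynomial.coeff_add, Polynomial.coeff_add, Polynomial.coeff_X,
    Polynomial.coeff_X_pow, Polynomial.coeff_one, if_neg (by omega), if_neg (by omega),
    if_pos rfl]
  ring

theorem eP_natDegree {k : ℕ} (hk : 1 ≤ k) : (eP k).natDegree = k + 1 := by
  refine Polynomial.natDegree_eq_of_le_of_coeff_ne_zero ?_ ?_
  · rw [Polynomial.natDegree_le_iff_coeff_eq_zero]
    intro j hj
    rw [eP, Polynomial.coeff_add, Polynomial.coeff_add, Polynomial.coeff_X,
      Polynomial.coeff_X_pow, Polynomial.coeff_one, if_neg (by omega), if_neg (by omega),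
      if_neg (by omega)]
    ring
  · rw [eP_coeff_top hk]
    exact one_ne_zero

theorem eP_ne_zero {k : ℕ} (hk : 1 ≤ k) : eP k ≠ 0 := fun h => by
  have := eP_natDegree hk
  rw [h, Polynomial.natDegree_zero] at this
  omega

theorem eP_coprime (k : ℕ) : IsCoprime (eP k) Polynomial.X :=
  ⟨1, -(1 + Polynomial.X ^ k), by rw [eP]; ring⟩

/-- `(𝓛 - N) u = e (z u' - n u) + k z u` -/
theorem Lin_sub (k : ℕ) (u : Polynomial ℂ) :
    LL (gf ℂ k) u - Polynomial.C ((k : ℂ) + 1) * u =
      eP k * (Polynomial.X * Polynomial.derivative u - Polynomial.C ((k : ℂ) + 2) * u) +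
        Polynomial.C (k : ℂ) * Polynomial.X * u := by
  rw [LL, FF_gf_deriv, FF_eq_X_mul, eP_deriv, eP]
  simp only [map_add, map_one, map_ofNat]
  ring

theorem LL_mul_FF (k : ℕ) (u : Polynomial ℂ) :
    LL (gf ℂ k) (FF (gf ℂ k) * u) = FF (gf ℂ k) ^ 2 * Polynomial.derivative u := by
  rw [LL, Polynomial.derivative_mul]
  ring

theorem const_of_mul {b : Polynomial ℂ} {s c : ℂ} (hs : s ≠ 0)
    (h : Polynomial.C s * b + Polynomial.C c = 0) (hb : b.coeff 0 = 0) : b = 0 := by
  ext j
  have h1 := congrArg (fun P => Polynomial.coeff P j) h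
  simp only [Polynomial.coeff_add, Polynomial.coeff_C_mul, Polynomial.coeff_zero] at h1
  rcases Nat.eq_zero_or_pos j with rfl | hj
  · rw [hb, Polynomial.coeff_zero]
  · rw [Polynomial.coeff_C, if_neg (by omega), add_zero] at h1
    rw [Polynomial.coeff_zero]
    exact (mul_eq_zero.1 h1).resolve_left hs

theorem A1 {k : ℕ} (hk : 1 ≤ k) {a b : Polynomial ℂ} {s c : ℂ} (hs : s ≠ 0)
    (ha : a.natDegree ≤ k) (hb : b.coeff 0 = 0)
    (h : LL (gf ℂ k) a - Polynomial.C ((k : ℂ) + 1) * a - Polynomial.C s * (FF (gf ℂ k) * b) =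
      c • FF (gf ℂ k)) : a = 0 ∧ b = 0 := by
  have hk0 : (k : ℂ) ≠ 0 := by exact_mod_cast (by omega : k ≠ 0)
  rw [Lin_sub, FF_eq_X_mul, Polynomial.smul_eq_C_mul] at h
  have hdvd : eP k ∣ a := by
    have h1 : eP k ∣ Polynomial.X * (Polynomial.C (k : ℂ) * a) :=
      ⟨-(Polynomial.X * Polynomial.derivative a - Polynomial.C ((k : ℂ) + 2) * a) +
        Polynomial.C s * Polynomial.X * b + Polynomial.C c * Polynomial.X, by
        linear_combination h⟩
    have h2 := (eP_coprime k).dvd_of_dvd_mul_left h1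
    have h3 := Dvd.dvd.mul_left h2 (Polynomial.C ((k : ℂ)⁻¹))
    rwa [← mul_assoc, ← Polynomial.C_mul, inv_mul_cancel₀ hk0, Polynomial.C_1, one_mul] at h3
  have ha0 : a = 0 := by
    by_contra hne
    have := Polynomial.natDegree_le_of_dvd hdvd hne
    rw [eP_natDegree hk] at this
    omega
  refine ⟨ha0, ?_⟩
  rw [ha0] at h
  have h4 : Polynomial.X * eP k * (Polynomial.C s * b + Polynomial.C c) = 0 := by
    simp only [Polynomial.derivative_zero, mul_zero, sub_zero, add_zero, zero_sub] at h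
    linear_combination -h
  have h5 : Polynomial.X * eP k ≠ 0 := mul_ne_zero Polynomial.X_ne_zero (eP_ne_zero hk)
  exact const_of_mul hs ((mul_eq_zero.1 h4).resolve_left h5) hb

/-- a polynomial with `f b'` of small degree is constant -/
theorem deriv_zero_of {k : ℕ} (hk : 1 ≤ k) {b r : Polynomial ℂ} (hr : r.natDegree ≤ k + 1)
    (h : FF (gf ℂ k) * Polynomial.derivative b = r) (hb : b.coeff 0 = 0) : b = 0 := by
  have h1 : Polynomial.derivative b = 0 := by
    by_contra hne
    have h2 := Polynomial.natDegree_mul (FF_monic hk).ne_zero hne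
    rw [h, FF_natDegree hk] at h2
    omega
  have h3 := Polynomial.derivative_eq_zero.1 h1
  obtain ⟨c, hc⟩ := Polynomial.natDegree_eq_zero.1 h3
  rw [← hc, Polynomial.coeff_C, if_pos rfl] at hb
  rw [← hc, hb, Polynomial.C_0]

theorem A2 {k : ℕ} (hk : 1 ≤ k) {a b G : Polynomial ℂ} {κ c : ℂ}
    (ha : a.natDegree ≤ k + 1) (hb : b.coeff 0 = 0) (hbd : b.natDegree ≤ k + 1)
    (hG0 : G.coeff 0 = 0) (hG1 : G.coeff 1 = 0) (hGd : G.natDegree ≤ k + 1)
    (h : LL (gf ℂ k) (LL (gf ℂ k) a - Polynomial.C ((k : ℂ) + 1) * a) -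
        Polynomial.C ((k : ℂ) + 1) * (LL (gf ℂ k) a - Polynomial.C ((k : ℂ) + 1) * a) -
        Polynomial.C (k : ℂ) * (LL (gf ℂ k) (FF (gf ℂ k) * b) - Polynomial.C ((k : ℂ) + 1) *
          (FF (gf ℂ k) * b)) -
        Polynomial.C ((k : ℂ) ^ 2) * (FF (gf ℂ k) * (G - Polynomial.C κ * Polynomial.X)) =
      c • FF (gf ℂ k)) : a = 0 ∧ b = 0 ∧ G = 0 := by
  have hk0 : (k : ℂ) ≠ 0 := by exact_mod_cast (by omega : k ≠ 0)
  rw [LL_mul_FF, Polynomial.smul_eq_C_mul] at h
  set Ma := LL (gf ℂ k) a - Polynomial.C ((k : ℂ) + 1) * a with hMa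
  have hMa' := hMa
  rw [Lin_sub] at hMa'
  rw [Lin_sub, FF_eq_X_mul] at h
  have hdvd : eP k ∣ a := by
    have h1 : eP k ∣ Polynomial.X * (Polynomial.C (k : ℂ) * Ma) :=
      ⟨-(Polynomial.X * Polynomial.derivative Ma - Polynomial.C ((k : ℂ) + 2) * Ma) +
        Polynomial.C (k : ℂ) * (Polynomial.X ^ 2 * eP k * Polynomial.derivative b -
          Polynomial.C ((k : ℂ) + 1) * Polynomial.X * b) +
        Polynomial.C ((k : ℂ) ^ 2) * Polynomial.X * (G - Polynomial.C κ * Polynomial.X) +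
        Polynomial.C c * Polynomial.X, by
        linear_combination h⟩
    have h2 := (eP_coprime k).dvd_of_dvd_mul_left h1
    have h3 := Dvd.dvd.mul_left h2 (Polynomial.C ((k : ℂ)⁻¹))
    rw [← mul_assoc, ← Polynomial.C_mul, inv_mul_cancel₀ hk0, Polynomial.C_1, one_mul, hMa'] at h3
    have h4 : eP k ∣ Polynomial.X * (Polynomial.C (k : ℂ) * a) := by
      have h5 := (dvd_add_right (Dvd.intro _ rfl)).1 h3
      rwa [mul_comm (Polynomial.C (k : ℂ)) Polynomial.X, mul_assoc] at h5
    have h5 := (eP_coprime k).dvd_of_dvd_mul_left h4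
    have h6 := Dvd.dvd.mul_left h5 (Polynomial.C ((k : ℂ)⁻¹))
    rwa [← mul_assoc, ← Polynomial.C_mul, inv_mul_cancel₀ hk0, Polynomial.C_1, one_mul] at h6
  obtain ⟨u, hu⟩ := hdvd
  have huc : ∃ l : ℂ, u = Polynomial.C l := by
    rcases eq_or_ne u 0 with rfl | hu0
    · exact ⟨0, by rw [Polynomial.C_0]⟩
    · have h7 := Polynomial.natDegree_mul (eP_ne_zero hk) hu0
      rw [← hu, eP_natDegree hk] at h7
      have h8 : u.natDegree = 0 := by omega
      obtain ⟨l, hl⟩ := Polynomial.natDegree_eq_zero.1 h8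
      exact ⟨l, hl.symm⟩
  obtain ⟨l, rfl⟩ := huc
  -- explicit computation
  have hMe : Ma = -(Polynomial.C l * (eP k * (Polynomial.C ((k : ℂ) + 1) + eP k))) := by
    rw [hMa', hu]
    simp only [Polynomial.derivative_mul, Polynomial.derivative_C, eP_deriv]
    simp only [eP, map_add, map_one, map_ofNat]
    ring
  have hMMe : eP k * (Polynomial.X * Polynomial.derivative Ma - Polynomial.C ((k : ℂ) + 2) * Ma) +
        Polynomial.C (k : ℂ) * Polynomial.X * Ma =
      Polynomial.C l * eP k * (Polynomial.C (((k : ℂ) + 1) ^ 2) +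
        Polynomial.C (2 * (k : ℂ) + 3) * eP k -
          Polynomial.C (k : ℂ) * Polynomial.X ^ (k + 1) * eP k) := by
    rw [hMe]
    simp only [Polynomial.derivative_mul, Polynomial.derivative_C, Polynomial.derivative_neg,
      Polynomial.derivative_add, eP_deriv]
    simp only [eP, map_add, map_one, map_ofNat, map_mul, map_pow]
    ring
  rw [hMMe] at h
  have hred : Polynomial.C l * (Polynomial.C (((k : ℂ) + 1) ^ 2) +
        Polynomial.C (2 * (k : ℂ) + 3) * eP k -
          Polynomial.C (k : ℂ) * Polynomial.X ^ (k + 1) * eP k) -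
      Polynomial.C (k : ℂ) * (Polynomial.X ^ 2 * eP k * Polynomial.derivative b -
        Polynomial.C ((k : ℂ) + 1) * Polynomial.X * b) -
      Polynomial.C ((k : ℂ) ^ 2) * Polynomial.X * (G - Polynomial.C κ * Polynomial.X) -
      Polynomial.C c * Polynomial.X = 0 := by
    have : eP k * (Polynomial.C l * (Polynomial.C (((k : ℂ) + 1) ^ 2) +
        Polynomial.C (2 * (k : ℂ) + 3) * eP k -
          Polynomial.C (k : ℂ) * Polynomial.X ^ (k + 1) * eP k) -
      Polynomial.C (k : ℂ) * (Polynomial.X ^ 2 * eP k * Polynomial.derivative b -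
        Polynomial.C ((k : ℂ) + 1) * Polynomial.X * b) -
      Polynomial.C ((k : ℂ) ^ 2) * Polynomial.X * (G - Polynomial.C κ * Polynomial.X) -
      Polynomial.C c * Polynomial.X) = 0 := by
      linear_combination h
    exact (mul_eq_zero.1 this).resolve_left (eP_ne_zero hk)
  have hl : l = 0 := by
    have h9 := congrArg (Polynomial.eval 0) hred
    simp only [eP, Polynomial.eval_sub, Polynomial.eval_mul, Polynomial.eval_add,
      Polynomial.eval_C, Polynomial.eval_X, Polynomial.eval_pow, Polynomial.eval_one,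
      Polynomial.eval_zero] at h9
    have h10 : l * (((k : ℂ) + 1) ^ 2 + (2 * (k : ℂ) + 3)) = 0 := by
      have hz : (0 : ℂ) ^ (k + 1) = 0 := zero_pow (by omega)
      rw [hz] at h9
      linear_combination h9
    refine (mul_eq_zero.1 h10).resolve_right ?_
    have : (((k : ℂ) + 1) ^ 2 + (2 * (k : ℂ) + 3)) = (((k + 1) ^ 2 + (2 * k + 3) : ℕ) : ℂ) := by
      push_cast; ring
    rw [this]
    exact Nat.cast_ne_zero.2 (by positivity)
  rw [hl] at hred hu
  have ha0 : a = 0 := by rw [hu, Polynomial.C_0, mul_zero]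
  have hred2 : FF (gf ℂ k) * Polynomial.derivative b = Polynomial.C ((k : ℂ) + 1) * b -
      Polynomial.C (k : ℂ) * (G - Polynomial.C κ * Polynomial.X) - Polynomial.C (c / k) := by
    have h11 : Polynomial.C (k : ℂ) * Polynomial.X * (FF (gf ℂ k) * Polynomial.derivative b -
        (Polynomial.C ((k : ℂ) + 1) * b -
      Polynomial.C (k : ℂ) * (G - Polynomial.C κ * Polynomial.X) - Polynomial.C (c / k))) = 0 := by
      have h12 : Polynomial.C (k : ℂ) * Polynomial.C (c / k) = Polynomial.C c := by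
        rw [← Polynomial.C_mul, mul_div_cancel₀ _ hk0]
      have h13 : Polynomial.C ((k : ℂ) ^ 2) = Polynomial.C (k : ℂ) ^ 2 := by rw [Polynomial.C_pow]
      rw [Polynomial.C_0, h13] at hred
      rw [FF_eq_X_mul]
      linear_combination -hred + Polynomial.X * h12
    have h14 : Polynomial.C (k : ℂ) * Polynomial.X ≠ 0 :=
      mul_ne_zero (Polynomial.C_ne_zero.2 hk0) Polynomial.X_ne_zero
    exact sub_eq_zero.1 ((mul_eq_zero.1 h11).resolve_left h14)
  have hb0 : b = 0 := by
    refine deriv_zero_of hk ?_ hred2 hb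
    refine (Polynomial.natDegree_sub_le _ _).trans (max_le ?_ (by simp))
    refine (Polynomial.natDegree_sub_le _ _).trans (max_le ?_ ?_)
    · exact (Polynomial.natDegree_C_mul_le _ _).trans hbd
    · refine (Polynomial.natDegree_C_mul_le _ _).trans ?_
      refine (Polynomial.natDegree_sub_le _ _).trans (max_le hGd ?_)
      refine (Polynomial.natDegree_C_mul_le _ _).trans ?_
      rw [Polynomial.natDegree_X]
      omega
  refine ⟨ha0, hb0, ?_⟩
  rw [hb0] at hred2
  ext j
  have h15 := congrArg (fun P => Polynomial.coeff P j) hred2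
  simp only [Polynomial.derivative_zero, mul_zero, Polynomial.coeff_zero, zero_sub,
    Polynomial.coeff_sub, Polynomial.coeff_neg, Polynomial.coeff_C_mul, Polynomial.coeff_X,
    Polynomial.coeff_C] at h15
  rw [Polynomial.coeff_zero]
  rcases j with _ | _ | j
  · exact hG0
  · exact hG1
  · rw [if_neg (by omega), if_neg (by omega)] at h15
    have h16 : (k : ℂ) * G.coeff (j + 2) = 0 := by linear_combination h15
    exact (mul_eq_zero.1 h16).resolve_left hk0

theorem A3 {k : ℕ} (hk : 3 ≤ k) {a b b0 : Polynomial ℂ} {c : ℂ}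
    (ha : a.natDegree ≤ 2) (hb : b.coeff 0 = 0) (hbd : b.natDegree ≤ k + 1)
    (hb0 : b0.coeff 0 = 0) (hb0d : b0.natDegree ≤ k + 1)
    (h : LL (gf ℂ k) (LL (gf ℂ k) a - Polynomial.C ((k : ℂ) + 1) * a) +
        (LL (gf ℂ k) a - Polynomial.C ((k : ℂ) + 1) * a) -
        (LL (gf ℂ k) (FF (gf ℂ k) * b) + (FF (gf ℂ k) * b)) -
        Polynomial.C ((k : ℂ) + 2) * (FF (gf ℂ k) * b0) =
      c • FF (gf ℂ k)) : a = 0 ∧ b = 0 ∧ b0 = 0 := by
  have hk1 : 1 ≤ k := by omega
  have hk0 : (k : ℂ) ≠ 0 := by exact_mod_cast (by omega : k ≠ 0)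
  rw [LL_mul_FF, Polynomial.smul_eq_C_mul] at h
  set Ma := LL (gf ℂ k) a - Polynomial.C ((k : ℂ) + 1) * a with hMa
  have hMa' := hMa
  rw [Lin_sub] at hMa'
  have hMM := Lin_sub k Ma
  rw [FF_eq_X_mul] at h
  have hdvd : eP k ∣ (Polynomial.C ((k : ℂ) + 2) + Polynomial.C (k : ℂ) * Polynomial.X) * a := by
    have h1 : eP k ∣ Polynomial.X * ((Polynomial.C (k : ℂ)) *
        ((Polynomial.C ((k : ℂ) + 2) + Polynomial.C (k : ℂ) * Polynomial.X) * a)) := by
      refine ⟨-((Polynomial.X * Polynomial.derivative Ma - Polynomial.C ((k : ℂ) + 2) * Ma)) -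
        (Polynomial.C ((k : ℂ) + 2) + Polynomial.C (k : ℂ) * Polynomial.X) *
          (Polynomial.X * Polynomial.derivative a - Polynomial.C ((k : ℂ) + 2) * a) +
        (Polynomial.X ^ 2 * eP k * Polynomial.derivative b + Polynomial.X * b) +
        Polynomial.C ((k : ℂ) + 2) * Polynomial.X * b0 + Polynomial.C c * Polynomial.X, ?_⟩
      have e1 : Polynomial.C ((k : ℂ) + 2) = Polynomial.C ((k : ℂ) + 1) + 1 := by
        rw [← Polynomial.C_1, ← Polynomial.C_add]
        congr 1
        ring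
      linear_combination h - hMM - (Polynomial.C ((k : ℂ) + 2) + Polynomial.C (k : ℂ) *
        Polynomial.X) * hMa' + (Ma) * e1
    have h2 := (eP_coprime k).dvd_of_dvd_mul_left h1
    have h3 := Dvd.dvd.mul_left h2 (Polynomial.C ((k : ℂ)⁻¹))
    rwa [← mul_assoc, ← Polynomial.C_mul, inv_mul_cancel₀ hk0, Polynomial.C_1, one_mul] at h3
  have ha0 : a = 0 := by
    by_contra hne
    have hlin : Polynomial.C ((k : ℂ) + 2) + Polynomial.C (k : ℂ) * Polynomial.X ≠ 0 := by
      intro h0
      have := congrArg (fun P => Polynomial.coeff P 1) h0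
      simp at this
      exact hk0 (by exact_mod_cast this)
    have h4 := Polynomial.natDegree_le_of_dvd hdvd (mul_ne_zero hlin hne)
    rw [eP_natDegree hk1, Polynomial.natDegree_mul hlin hne] at h4
    have h5 : (Polynomial.C ((k : ℂ) + 2) + Polynomial.C (k : ℂ) * Polynomial.X).natDegree ≤ 1 := by
      compute_degree
    omega
  refine ⟨ha0, ?_⟩
  have hMa0 : Ma = 0 := by
    rw [hMa, ha0]
    simp [LL]
  rw [hMa0] at h
  have hred : FF (gf ℂ k) * Polynomial.derivative b = -b - Polynomial.C ((k : ℂ) + 2) * b0 -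
      Polynomial.C c := by
    have h6 : (Polynomial.X * eP k) * (FF (gf ℂ k) * Polynomial.derivative b -
        (-b - Polynomial.C ((k : ℂ) + 2) * b0 - Polynomial.C c)) = 0 := by
      have hLL0 : LL (gf ℂ k) 0 = 0 := by simp [LL]
      rw [hLL0] at h
      rw [FF_eq_X_mul]
      linear_combination -h
    have h7 : Polynomial.X * eP k ≠ 0 := mul_ne_zero Polynomial.X_ne_zero (eP_ne_zero hk1)
    exact sub_eq_zero.1 ((mul_eq_zero.1 h6).resolve_left h7)
  have hbz : b = 0 := by
    refine deriv_zero_of hk1 ?_ hred hb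
    refine (Polynomial.natDegree_sub_le _ _).trans (max_le ?_ (by simp))
    refine (Polynomial.natDegree_sub_le _ _).trans (max_le ?_ ?_)
    · rw [Polynomial.natDegree_neg]; exact hbd
    · exact (Polynomial.natDegree_C_mul_le _ _).trans hb0d
  refine ⟨hbz, ?_⟩
  rw [hbz] at hred
  simp only [Polynomial.derivative_zero, mul_zero, neg_zero, zero_sub] at hred
  have h8 : Polynomial.C ((k : ℂ) + 2) * b0 + Polynomial.C c = 0 := by linear_combination hred
  refine const_of_mul ?_ h8 hb0
  exact_mod_cast (by omega : k + 2 ≠ 0)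

/-! ### the `h` side -/

/-- `ψ` for `h = z - z^(k+2)` -/
def qC (k : ℕ) : ℂ⟦X⟧ := psi (-(Polynomial.X ^ k) : Polynomial ℂ)

theorem isPsi_qC (k : ℕ) : IsPsi (-(Polynomial.X ^ k) : Polynomial ℂ) (qC k) := isPsi_psi _

theorem qC_pow_rec (k j m : ℕ) : ((m : ℂ) - j) * coeff m (qC k ^ j) =
    - (j : ℂ) * coeff m (qC k ^ (j + (k + 1))) := by
  have h := (isPsi_qC k).pow_mul j m
  have e : qC k ^ (j + 1) * Polynomial.aeval (qC k) (-(Polynomial.X ^ k) : Polynomial ℂ) =
      - qC k ^ (j + (k + 1)) := by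
    rw [map_neg, map_pow, Polynomial.aeval_X]
    ring
  rw [e, map_neg] at h
  linear_combination h

theorem qC_pow_lt (k : ℕ) {j m : ℕ} (h : m < j) : coeff m (qC k ^ j) = 0 := by
  have h1 : (X : ℂ⟦X⟧) ^ j ∣ qC k ^ j := pow_dvd_pow_of_dvd (isPsi_qC k).1 j
  rw [X_pow_dvd_iff] at h1
  exact h1 m h

theorem IsPsi.coeff_pow_self {A : Type*} [CommRing A] {g : Polynomial A} {ψ : A⟦X⟧}
    (h : IsPsi g ψ) (j : ℕ) : coeff j (ψ ^ j) = 1 := by
  induction j with
  | zero => simp
  | succ j ih =>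
    obtain ⟨χ, hχ⟩ := h.1
    have h0 : coeff 0 χ = 1 := by
      have := h.2.1
      rw [hχ, mul_comm, coeff_succ_mul_X] at this
      exact this
    rw [pow_succ]
    nth_rw 2 [hχ]
    rw [← mul_assoc, mul_comm, ← mul_assoc, coeff_succ_mul_X, coeff_mul,
      Finset.sum_eq_single (0, j)]
    · rw [h0, ih, one_mul]
    · intro p hp hne
      rw [Finset.HasAntidiagonal.mem_antidiagonal] at hp
      have hlt : p.2 < j := by
        rcases p with ⟨p1, p2⟩
        simp only at hp ⊢
        rcases Nat.eq_zero_or_pos p1 with h1 | h1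
        · exfalso
          apply hne
          rw [Prod.mk.injEq]
          omega
        · omega
      have h1 : (X : A⟦X⟧) ^ j ∣ ψ ^ j := pow_dvd_pow_of_dvd h.1 j
      rw [X_pow_dvd_iff] at h1
      rw [h1 _ hlt, mul_zero]
    · intro hn
      exfalso
      apply hn
      rw [Finset.HasAntidiagonal.mem_antidiagonal]
      simp

/-- support of the powers -/
theorem qC_support (k : ℕ) (d : ℕ) : ∀ j m : ℕ, 1 ≤ j → m - j = d →
    (coeff m (qC k ^ j) ≠ 0 ↔ j ≤ m ∧ (k + 1) ∣ m - j) := by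
  induction d using Nat.strong_induction_on with
  | _ d ih =>
    intro j m hj hd
    rcases lt_trichotomy m j with h | h | h
    · rw [qC_pow_lt k h]
      simp only [ne_eq, not_true_eq_false, false_iff]
      intro h1
      omega
    · subst h
      rw [(isPsi_qC k).coeff_pow_self]
      simp
    · have h1 := qC_pow_rec k j m
      have h2 : ((m : ℂ) - j) ≠ 0 := by
        rw [sub_ne_zero]
        exact_mod_cast (by omega : m ≠ j)
      have h3 : (j : ℂ) ≠ 0 := by exact_mod_cast (by omega : j ≠ 0)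
      have h4 : coeff m (qC k ^ j) ≠ 0 ↔ coeff m (qC k ^ (j + (k + 1))) ≠ 0 := by
        rw [not_iff_not]
        constructor
        · intro h0
          rw [h0, mul_zero] at h1
          have := h1.symm
          exact (mul_eq_zero.1 this).resolve_left (neg_ne_zero.2 h3)
        · intro h0
          rw [h0, mul_zero] at h1
          exact (mul_eq_zero.1 h1).resolve_left h2
      rw [h4, ih (m - (j + (k + 1))) (by omega) (j + (k + 1)) m (by omega) rfl]
      constructor
      · rintro ⟨h5, h6⟩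
        refine ⟨by omega, ?_⟩
        have : m - j = (m - (j + (k + 1))) + (k + 1) := by omega
        rw [this]
        exact dvd_add h6 dvd_rfl
      · rintro ⟨h5, h6⟩
        have h7 : k + 1 ≤ m - j := Nat.le_of_dvd (by omega) h6
        refine ⟨by omega, ?_⟩
        have : m - (j + (k + 1)) = (m - j) - (k + 1) := by omega
        rw [this]
        exact Nat.dvd_sub h6 dvd_rfl

theorem qC_ne_zero (k : ℕ) {j m : ℕ} (hj : 1 ≤ j) (h : j ≤ m) (hd : (k + 1) ∣ m - j) :
    coeff m (qC k ^ j) ≠ 0 := (qC_support k _ j m hj rfl).2 ⟨h, hd⟩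

theorem qC_eq_zero (k : ℕ) {j m : ℕ} (hj : 1 ≤ j) (hd : ¬ (j ≤ m ∧ (k + 1) ∣ m - j)) :
    coeff m (qC k ^ j) = 0 := by
  by_contra h
  exact hd ((qC_support k _ j m hj rfl).1 h)

theorem FF_h (k : ℕ) : FF (-(Polynomial.X ^ k) : Polynomial ℂ) =
    Polynomial.X - Polynomial.X ^ (k + 2) := by
  rw [FF]; ring

theorem SS_h (k i m : ℕ) (hi : 1 ≤ i) :
    ((m : ℂ) - (k + 1)) * SS (qC k) (Polynomial.X ^ i) m =
      -((k : ℂ) + 2 - i) * coeff m (qC k ^ (i - 1)) := by
  have h1 := SS_LL (isPsi_qC k) (Polynomial.X ^ i) m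
  have e : LL (-(Polynomial.X ^ k) : Polynomial ℂ) (Polynomial.X ^ i) =
      Polynomial.C ((k : ℂ) + 1) * Polynomial.X ^ i -
        Polynomial.C ((k : ℂ) + 2 - i) * (FF (-(Polynomial.X ^ k) : Polynomial ℂ) *
          Polynomial.X ^ (i - 1)) := by
    obtain ⟨i, rfl⟩ : ∃ i', i = i' + 1 := ⟨i - 1, by omega⟩
    rw [LL, FF_h]
    simp only [map_sub, map_add, Polynomial.derivative_X, Polynomial.derivative_X_pow,
      Nat.add_sub_cancel, map_natCast, map_ofNat, map_one]
    push_cast
    ring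
  rw [e, SS_sub, SS_smul, SS_smul, SS_FF (isPsi_qC k), map_pow, Polynomial.aeval_X] at h1
  linear_combination -h1

theorem SS_h_zero (k m : ℕ) :
    ((m : ℂ) + 1) * SS (qC k) 1 m = ((k : ℂ) + 2) * SS (qC k) (Polynomial.X ^ (k + 1)) m := by
  have h1 := SS_LL (isPsi_qC k) 1 m
  have e : LL (-(Polynomial.X ^ k) : Polynomial ℂ) 1 =
      Polynomial.C ((k : ℂ) + 2) * Polynomial.X ^ (k + 1) - Polynomial.C 1 * 1 := by
    rw [LL, FF_h]
    simp only [map_sub, map_add, Polynomial.derivative_X, Polynomial.derivative_X_pow,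
      Polynomial.derivative_one, map_natCast, map_ofNat, map_one]
    push_cast
    ring_nf
  rw [e, SS_sub, SS_smul, SS_smul] at h1
  linear_combination -h1

theorem SS_h_one_N (k : ℕ) : SS (qC k) Polynomial.X (k + 1) = 1 := by
  have h := isPsi_qC k
  have hr := h.mul_rec
  have h2 := h.2.2
  rw [FF_h, map_sub, map_pow, Polynomial.aeval_X] at h2
  set v := qC k * rec' (qC k) with hv
  have h3 : v - v * qC k ^ (k + 1) = X := by
    rw [hv]
    linear_combination (-rec' (qC k)) * h2 + X * hr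
  have h4 := congrArg (coeff (k + 1 + 1)) h3
  rw [map_sub, coeff_X, if_neg (by omega)] at h4
  have hvX : (X : ℂ⟦X⟧) ∣ v := dvd_mul_of_dvd_left h.1 _
  obtain ⟨u, hu⟩ := hvX
  have hu0 : coeff 0 u = 1 := by
    have h5 := congrArg (coeff 1) h3
    have h6 : coeff 1 (v * qC k ^ (k + 1)) = 0 := by
      have : (X : ℂ⟦X⟧) ^ 2 ∣ v * qC k ^ (k + 1) := by
        rw [pow_two]
        exact mul_dvd_mul ⟨u, hu⟩ (dvd_pow h.1 (by omega))
      rw [X_pow_dvd_iff] at this
      exact this 1 (by norm_num)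
    rw [map_sub, h6, sub_zero, coeff_one_X, hu, mul_comm, coeff_succ_mul_X] at h5
    exact h5
  have h7 : coeff (k + 1 + 1) (v * qC k ^ (k + 1)) = 1 := by
    have e : v * qC k ^ (k + 1) = u * qC k ^ (k + 1) * X := by rw [hu]; ring
    rw [e, coeff_succ_mul_X, coeff_mul, Finset.sum_eq_single (0, k + 1)]
    · rw [hu0, h.coeff_pow_self, one_mul]
    · intro p hp hne
      rw [Finset.HasAntidiagonal.mem_antidiagonal] at hp
      have hlt : p.2 < k + 1 := by
        rcases p with ⟨p1, p2⟩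
        simp only at hp ⊢
        rcases Nat.eq_zero_or_pos p1 with h1 | h1
        · exfalso
          apply hne
          rw [Prod.mk.injEq]
          omega
        · omega
      rw [qC_pow_lt k hlt, mul_zero]
    · intro hn
      exfalso
      apply hn
      rw [Finset.HasAntidiagonal.mem_antidiagonal]
      simp
  rw [h7] at h4
  rw [SS, Polynomial.aeval_X, ← hv]
  linear_combination h4

end

end Pool.Agent.helper59.LC
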