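import Pool.Agent.helper59.LC.Core

/-!
# Independence at the degenerate pair: the classes
-/

open PowerSeries

namespace Pool.Agent.helper59.LC

noncomputable section

/-- the linear relation at the index `m` -/
def RelK (k : ℕ) (a b : ℕ → Polynomial ℂ) (G : Polynomial ℂ) (κ c11 : ℂ) (m : ℕ) : ℂ :=
  (∑ j ∈ Finset.Icc 1 (k + 1), coeff m (qC k ^ j) * SS (pC k) (a j) m) +
  (∑ i ∈ Finset.Icc 2 (k + 1), SS (qC k) (Polynomial.X ^ i) m *
    coeff m (Polynomial.aeval (pC k) (b i))) +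
  SS (qC k) 1 m * coeff m (Polynomial.aeval (pC k) (b 0)) +
  c11 * (SS (qC k) Polynomial.X m * coeff m (pC k)) +
  (if m = k + 1 then 0 else (k : ℂ) * SS (qC k) (Polynomial.X ^ 2) m / ((m : ℂ) - (k + 1)) *
    coeff m (Polynomial.aeval (pC k) (G - Polynomial.C κ * Polynomial.X)))

theorem sel {k ρ m j : ℕ} (h1 : 1 ≤ ρ) (h2 : ρ ≤ k + 1) (_hm : k + 1 < m)
    (hd : (k + 1) ∣ m + (k + 1 - ρ)) (hj1 : 1 ≤ j) (hj2 : j ≤ k + 1) (hne : j ≠ ρ) :
    coeff m (qC k ^ j) = 0 := by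
  refine qC_eq_zero k hj1 ?_
  rintro ⟨h3, h4⟩
  have h5 : (k + 1) ∣ (m + (k + 1 - ρ)) - (m - j) := Nat.dvd_sub hd h4
  have h6 : (m + (k + 1 - ρ)) - (m - j) = k + 1 - ρ + j := by omega
  rw [h6] at h5
  obtain ⟨t, ht⟩ := h5
  rcases t with _ | _ | t
  · omega
  · apply hne; omega
  · have : (k + 1) * (t + 1 + 1) = (k + 1) * t + (k + 1) + (k + 1) := by ring
    rw [this] at ht
    have h7 := Nat.zero_le ((k + 1) * t)
    omega

theorem qC_self_ne {k ρ m : ℕ} (h1 : 1 ≤ ρ) (h2 : ρ ≤ k + 1) (hm : k + 1 < m)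
    (hd : (k + 1) ∣ m + (k + 1 - ρ)) : coeff m (qC k ^ ρ) ≠ 0 := by
  refine qC_ne_zero k h1 (by omega) ?_
  have : m - ρ = (m + (k + 1 - ρ)) - (k + 1) := by omega
  rw [this]
  exact Nat.dvd_sub hd dvd_rfl

theorem classRel {k : ℕ} (hk : 1 ≤ k) {a b : ℕ → Polynomial ℂ} {G : Polynomial ℂ} {κ c11 : ℂ}
    {m ρ : ℕ} (h1 : 1 ≤ ρ) (h2 : ρ ≤ k + 1) (hm : k + 1 < m)
    (hd : (k + 1) ∣ m + (k + 1 - ρ)) (h : RelK k a b G κ c11 m = 0) :
    ((m : ℂ) + 1) * ((m : ℂ) - (k + 1)) ^ 2 * SS (pC k) (a ρ) m -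
      ((m : ℂ) + 1) * ((m : ℂ) - (k + 1)) * (if ρ ≤ k then ((k : ℂ) + 1 - ρ) *
        coeff m (Polynomial.aeval (pC k) (b (ρ + 1))) else 0) -
      (if ρ = k then ((k : ℂ) + 2) * ((m : ℂ) - (k + 1)) *
        coeff m (Polynomial.aeval (pC k) (b 0)) else 0) -
      (if ρ = 1 then ((m : ℂ) + 1) * (k : ℂ) ^ 2 *
        coeff m (Polynomial.aeval (pC k) (G - Polynomial.C κ * Polynomial.X)) else 0) = 0 := by
  set D : ℂ := (m : ℂ) - (k + 1) with hD
  have hD0 : D ≠ 0 := by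
    rw [hD, sub_ne_zero]
    exact_mod_cast (by omega : m ≠ k + 1)
  set cρ := coeff m (qC k ^ ρ) with hcρ
  have hc0 : cρ ≠ 0 := qC_self_ne h1 h2 hm hd
  have hselect : ∀ j, 1 ≤ j → j ≤ k + 1 → coeff m (qC k ^ j) = if j = ρ then cρ else 0 := by
    intro j hj1 hj2
    split_ifs with hj
    · rw [hj]
    · exact sel h1 h2 hm hd hj1 hj2 hj
  have T1 : ∑ j ∈ Finset.Icc 1 (k + 1), coeff m (qC k ^ j) * SS (pC k) (a j) m =
      cρ * SS (pC k) (a ρ) m := by
    rw [Finset.sum_eq_single ρ]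
    · intro j hj hne
      rw [Finset.mem_Icc] at hj
      rw [sel h1 h2 hm hd hj.1 hj.2 hne, zero_mul]
    · intro hn
      exact absurd (Finset.mem_Icc.2 ⟨h1, h2⟩) hn
  have T2 : D * ∑ i ∈ Finset.Icc 2 (k + 1), SS (qC k) (Polynomial.X ^ i) m *
      coeff m (Polynomial.aeval (pC k) (b i)) =
      - (if ρ ≤ k then ((k : ℂ) + 1 - ρ) *
        coeff m (Polynomial.aeval (pC k) (b (ρ + 1))) else 0) * cρ := by
    rw [Finset.mul_sum]
    have hterm : ∀ i ∈ Finset.Icc 2 (k + 1), D * (SS (qC k) (Polynomial.X ^ i) m *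
        coeff m (Polynomial.aeval (pC k) (b i))) = -((k : ℂ) + 2 - i) *
          (if i - 1 = ρ then cρ else 0) * coeff m (Polynomial.aeval (pC k) (b i)) := by
      intro i hi
      rw [Finset.mem_Icc] at hi
      rw [← mul_assoc, hD, SS_h k i m (by omega), hselect (i - 1) (by omega) (by omega)]
    rw [Finset.sum_congr rfl hterm]
    split_ifs with hρ
    · rw [Finset.sum_eq_single (ρ + 1)]
      · rw [Nat.add_sub_cancel, if_pos rfl]
        push_cast
        ring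
      · intro i hi hne
        rw [if_neg (by omega)]
        ring
      · intro hn
        exact absurd (Finset.mem_Icc.2 ⟨by omega, by omega⟩) hn
    · rw [neg_zero, zero_mul]
      refine Finset.sum_eq_zero fun i hi => ?_
      rw [Finset.mem_Icc] at hi
      rw [if_neg (by omega)]
      ring
  have T3 : ((m : ℂ) + 1) * D * SS (qC k) 1 m = -((k : ℂ) + 2) * (if k = ρ then cρ else 0) := by
    have e1 := SS_h_zero k m
    have e2 := SS_h k (k + 1) m (by omega)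
    rw [Nat.add_sub_cancel, hselect k hk (by omega)] at e2
    rw [← hD] at e2
    push_cast at e2
    linear_combination D * e1 + ((k : ℂ) + 2) * e2
  have T4 : SS (qC k) Polynomial.X m = 0 := by
    have e2 := SS_h k 1 m le_rfl
    rw [Nat.sub_self, pow_zero, coeff_one, if_neg (by omega), mul_zero, pow_one] at e2
    exact (mul_eq_zero.1 e2).resolve_left hD0
  have T5 : D * SS (qC k) (Polynomial.X ^ 2) m = -(k : ℂ) * (if 1 = ρ then cρ else 0) := by
    have e2 := SS_h k 2 m (by omega)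
    rw [show (2 : ℕ) - 1 = 1 from rfl, hselect 1 le_rfl (by omega), ← hD] at e2
    push_cast at e2
    linear_combination e2
  have hkey : cρ * (((m : ℂ) + 1) * D ^ 2 * SS (pC k) (a ρ) m -
      ((m : ℂ) + 1) * D * (if ρ ≤ k then ((k : ℂ) + 1 - ρ) *
        coeff m (Polynomial.aeval (pC k) (b (ρ + 1))) else 0) -
      (if ρ = k then ((k : ℂ) + 2) * D *
        coeff m (Polynomial.aeval (pC k) (b 0)) else 0) -
      (if ρ = 1 then ((m : ℂ) + 1) * (k : ℂ) ^ 2 *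
        coeff m (Polynomial.aeval (pC k) (G - Polynomial.C κ * Polynomial.X)) else 0)) =
      ((m : ℂ) + 1) * D ^ 2 * RelK k a b G κ c11 m := by
    rw [RelK, T1, T4, if_neg (by omega : m ≠ k + 1), ← hD]
    generalize hS2 : ∑ i ∈ Finset.Icc 2 (k + 1), SS (qC k) (Polynomial.X ^ i) m *
      coeff m (Polynomial.aeval (pC k) (b i)) = S2 at T2 ⊢
    generalize SS (qC k) 1 m = S0 at T3 ⊢
    generalize SS (qC k) (Polynomial.X ^ 2) m = SX at T5 ⊢
    generalize coeff m (Polynomial.aeval (pC k) (G - Polynomial.C κ * Polynomial.X)) = g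
    generalize coeff m (Polynomial.aeval (pC k) (b 0)) = β0
    have e5 : ((m : ℂ) + 1) * D ^ 2 * ((k : ℂ) * SX / D * g) =
        ((m : ℂ) + 1) * (k : ℂ) * (D * SX) * g := by
      field_simp
    have e6 : ((m : ℂ) + 1) * D ^ 2 * (cρ * SS (pC k) (a ρ) m + S2 + S0 * β0 +
        c11 * (0 * coeff m (pC k)) + (k : ℂ) * SX / D * g) =
        cρ * (((m : ℂ) + 1) * D ^ 2 * SS (pC k) (a ρ) m) + ((m : ℂ) + 1) * D * (D * S2) +
          D * (((m : ℂ) + 1) * D * S0) * β0 + ((m : ℂ) + 1) * (k : ℂ) * (D * SX) * g := by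
      rw [← e5]; ring
    rw [e6, T2, T3, T5]
    by_cases hρ1 : ρ = 1
    · by_cases hρk : ρ = k
      · rw [if_pos hρk, if_pos hρ1, if_pos hρ1.symm, if_pos hρk.symm]
        ring
      · have hkρ : ¬ k = ρ := fun h' => hρk h'.symm
        rw [if_neg hρk, if_pos hρ1, if_pos hρ1.symm, if_neg hkρ]
        ring
    · have h1ρ : ¬ 1 = ρ := fun h' => hρ1 h'.symm
      by_cases hρk : ρ = k
      · rw [if_pos hρk, if_neg hρ1, if_neg h1ρ, if_pos hρk.symm]
        ring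
      · have hkρ : ¬ k = ρ := fun h' => hρk h'.symm
        rw [if_neg hρk, if_neg hρ1, if_neg h1ρ, if_neg hkρ]
        ring
  rw [h, mul_zero] at hkey
  exact (mul_eq_zero.1 hkey).resolve_left hc0

/-- **Core independence.** -/
theorem core {k : ℕ} (hk : 3 ≤ k) {a b : ℕ → Polynomial ℂ} {G : Polynomial ℂ} {κ c11 : ℂ}
    (ha : ∀ j, 1 ≤ j → j ≤ k + 1 → (a j).natDegree ≤ k + 2 - j)
    (hb0 : ∀ i, (b i).coeff 0 = 0) (hbd : ∀ i, (b i).natDegree ≤ k + 1)
    (hG0 : G.coeff 0 = 0) (hG1 : G.coeff 1 = 0) (hGd : G.natDegree ≤ k + 1)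
    (h : ∀ m, 1 ≤ m → RelK k a b G κ c11 m = 0) :
    (∀ j, 1 ≤ j → j ≤ k + 1 → a j = 0) ∧ (∀ i, 2 ≤ i → i ≤ k + 1 → b i = 0) ∧ b 0 = 0 ∧
      G = 0 ∧ c11 = 0 := by
  have hk1 : 1 ≤ k := by omega
  have hψ := isPsi_pC k
  have hD0 : ∀ m : ℕ, k + 1 < m → ((m : ℂ) - (k + 1)) ≠ 0 := fun m hm => by
    rw [sub_ne_zero]
    exact_mod_cast (by omega : m ≠ k + 1)
  have hM0 : ∀ m : ℕ, ((m : ℂ) + 1) ≠ 0 := fun m => by exact_mod_cast Nat.succ_ne_zero m
  have hFS : ∀ (P : Polynomial ℂ) (m : ℕ), coeff m (Polynomial.aeval (pC k) P) =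
      SS (pC k) (FF (gf ℂ k) * P) m := fun P m => (SS_FF hψ P m).symm
  -- the middle classes
  have mid : ∀ ρ, 2 ≤ ρ → ρ ≤ k - 1 → a ρ = 0 ∧ b (ρ + 1) = 0 := by
    intro ρ h1 h2
    have hrel : ∀ m, k + 2 ≤ m → (k + 1) ∣ m + (k + 1 - ρ) →
        SS (pC k) (LL (gf ℂ k) (a ρ) - Polynomial.C ((k : ℂ) + 1) * a ρ -
          Polynomial.C ((k : ℂ) + 1 - ρ) * (FF (gf ℂ k) * b (ρ + 1))) m = 0 := by
      intro m hm hd
      have hc := classRel hk1 (by omega) (by omega) (by omega : k + 1 < m) hd (h m (by omega))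
      rw [if_pos (by omega : ρ ≤ k), if_neg (by omega), if_neg (by omega), hFS] at hc
      rw [SS_sub, SS_sub, SS_smul, SS_smul, SS_LL hψ]
      have h5 : (((m : ℂ) + 1) * ((m : ℂ) - (k + 1))) * (↑m * SS (pC k) (a ρ) m -
          (↑k + 1) * SS (pC k) (a ρ) m -
          (↑k + 1 - ↑ρ) * SS (pC k) (FF (gf ℂ k) * b (ρ + 1)) m) = 0 := by
        linear_combination hc
      exact (mul_eq_zero.1 h5).resolve_left (mul_ne_zero (hM0 m) (hD0 m (by omega)))
    obtain ⟨c, hc⟩ := key (by omega) _ _ _ hrel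
    refine A1 hk1 ?_ ?_ (hb0 _) hc
    · rw [sub_ne_zero]
      exact_mod_cast (by omega : k + 1 ≠ ρ)
    · exact (ha ρ (by omega) (by omega)).trans (by omega)
  -- the class of 1
  have one : a 1 = 0 ∧ b 2 = 0 ∧ G = 0 := by
    have hrel : ∀ m, k + 2 ≤ m → (k + 1) ∣ m + (k + 1 - 1) →
        SS (pC k) (LL (gf ℂ k) (LL (gf ℂ k) (a 1) - Polynomial.C ((k : ℂ) + 1) * (a 1)) -
        Polynomial.C ((k : ℂ) + 1) * (LL (gf ℂ k) (a 1) - Polynomial.C ((k : ℂ) + 1) * (a 1)) -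
        Polynomial.C (k : ℂ) * (LL (gf ℂ k) (FF (gf ℂ k) * (b 2)) - Polynomial.C ((k : ℂ) + 1) *
          (FF (gf ℂ k) * (b 2))) -
        Polynomial.C ((k : ℂ) ^ 2) * (FF (gf ℂ k) * (G - Polynomial.C κ * Polynomial.X))) m
          = 0 := by
      intro m hm hd
      have hc := classRel hk1 le_rfl (by omega) (by omega : k + 1 < m) hd (h m (by omega))
      rw [if_pos hk1, if_neg (by omega), if_pos rfl, hFS, hFS] at hc
      simp only [SS_sub, SS_smul, SS_LL hψ]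
      have h5 : ((m : ℂ) + 1) * (↑m * (↑m * SS (pC k) (a 1) m - (↑k + 1) * SS (pC k) (a 1) m) -
          (↑k + 1) * (↑m * SS (pC k) (a 1) m - (↑k + 1) * SS (pC k) (a 1) m) -
          ↑k * (↑m * SS (pC k) (FF (gf ℂ k) * b 2) m -
            (↑k + 1) * SS (pC k) (FF (gf ℂ k) * b 2) m) -
          ↑k ^ 2 * SS (pC k) (FF (gf ℂ k) * (G - Polynomial.C κ * Polynomial.X)) m) = 0 := by
        push_cast at hc
        linear_combination hc
      exact (mul_eq_zero.1 h5).resolve_left (hM0 m)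
    obtain ⟨c, hc⟩ := key (by omega) _ _ _ hrel
    exact A2 hk1 ((ha 1 le_rfl (by omega)).trans (by omega)) (hb0 _) (hbd _) hG0 hG1 hGd hc
  -- the class of k
  have kk : a k = 0 ∧ b (k + 1) = 0 ∧ b 0 = 0 := by
    have hrel : ∀ m, k + 2 ≤ m → (k + 1) ∣ m + (k + 1 - k) →
        SS (pC k) (LL (gf ℂ k) (LL (gf ℂ k) (a k) - Polynomial.C ((k : ℂ) + 1) * (a k)) +
        (LL (gf ℂ k) (a k) - Polynomial.C ((k : ℂ) + 1) * (a k)) -
        (LL (gf ℂ k) (FF (gf ℂ k) * (b (k + 1))) + (FF (gf ℂ k) * (b (k + 1)))) -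
        Polynomial.C ((k : ℂ) + 2) * (FF (gf ℂ k) * (b 0))) m = 0 := by
      intro m hm hd
      have hc := classRel hk1 hk1 (by omega) (by omega : k + 1 < m) hd (h m (by omega))
      rw [if_pos le_rfl, if_pos rfl, if_neg (by omega), hFS, hFS] at hc
      simp only [SS_sub, SS_add, SS_smul, SS_LL hψ]
      have h5 : ((m : ℂ) - (k + 1)) * (↑m * (↑m * SS (pC k) (a k) m -
          (↑k + 1) * SS (pC k) (a k) m) + (↑m * SS (pC k) (a k) m -
            (↑k + 1) * SS (pC k) (a k) m) -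
          (↑m * SS (pC k) (FF (gf ℂ k) * b (k + 1)) m + SS (pC k) (FF (gf ℂ k) * b (k + 1)) m) -
          (↑k + 2) * SS (pC k) (FF (gf ℂ k) * b 0) m) = 0 := by
        linear_combination hc
      exact (mul_eq_zero.1 h5).resolve_left (hD0 m (by omega))
    obtain ⟨c, hc⟩ := key (by omega) _ _ _ hrel
    exact A3 hk ((ha k hk1 (by omega)).trans (by omega)) (hb0 _) (hbd _) (hb0 _) (hbd _) hc
  -- the class of k + 1
  have last : a (k + 1) = 0 := by
    have hrel : ∀ m, k + 2 ≤ m → (k + 1) ∣ m + (k + 1 - (k + 1)) →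
        SS (pC k) (a (k + 1)) m = 0 := by
      intro m hm hd
      have hc := classRel hk1 (by omega) le_rfl (by omega : k + 1 < m) hd (h m (by omega))
      rw [if_neg (by omega), if_neg (by omega), if_neg (by omega)] at hc
      have h5 : (((m : ℂ) + 1) * ((m : ℂ) - (k + 1)) ^ 2) * SS (pC k) (a (k + 1)) m = 0 := by
        linear_combination hc
      exact (mul_eq_zero.1 h5).resolve_left (mul_ne_zero (hM0 m) (pow_ne_zero 2 (hD0 m (by omega))))
    obtain ⟨c, hc⟩ := key (by omega) _ _ _ hrel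
    have hdeg := ha (k + 1) (by omega) le_rfl
    have hcz : c = 0 := by
      by_contra hne
      rw [hc, Polynomial.natDegree_smul _ hne, FF_natDegree hk1] at hdeg
      omega
    rw [hc, hcz, zero_smul]
  have hA : ∀ j, 1 ≤ j → j ≤ k + 1 → a j = 0 := by
    intro j h1 h2
    rcases eq_or_ne j 1 with rfl | hj1
    · exact one.1
    rcases eq_or_ne j k with rfl | hj2
    · exact kk.1
    rcases eq_or_ne j (k + 1) with rfl | hj3
    · exact last
    exact (mid j (by omega) (by omega)).1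
  have hB : ∀ i, 2 ≤ i → i ≤ k + 1 → b i = 0 := by
    intro i h1 h2
    rcases eq_or_ne i 2 with rfl | hi1
    · exact one.2.1
    rcases eq_or_ne i (k + 1) with rfl | hi2
    · exact kk.2.1
    have := (mid (i - 1) (by omega) (by omega)).2
    rwa [Nat.sub_add_cancel (by omega)] at this
  refine ⟨hA, hB, kk.2.2, one.2.2, ?_⟩
  have hN := h (k + 1) (by omega)
  rw [RelK, if_pos rfl, SS_h_one_N, kk.2.2, Finset.sum_eq_zero, Finset.sum_eq_zero] at hN
  · have h1 : coeff (k + 1) (pC k) ≠ 0 := by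
      rw [coeff_pC]
      have := pR_ge_one k (k + 1) (by omega)
      exact_mod_cast (by linarith : coeff (k + 1) (pR k) ≠ 0)
    simp only [map_zero, mul_zero, add_zero, zero_add, one_mul] at hN
    exact (mul_eq_zero.1 hN).resolve_right h1
  · intro i hi
    rw [Finset.mem_Icc] at hi
    rw [hB i hi.1 hi.2, map_zero, map_zero, mul_zero]
  · intro j hj
    rw [Finset.mem_Icc] at hj
    rw [hA j hj.1 hj.2, SS_zero, mul_zero]

end

end Pool.Agent.helper59.LC
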