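import Pool.Agent.helper59.LC.Formal

/-!
# Evaluation of absolutely convergent power series
-/

open PowerSeries

namespace Pool.Agent.helper59.LC

noncomputable section

/-- absolute convergence at radius `r` -/
def Conv (r : ℝ) (φ : ℂ⟦X⟧) : Prop := Summable (fun m => ‖coeff m φ‖ * r ^ m)

/-- the value at `w` -/
def ev (w : ℂ) (φ : ℂ⟦X⟧) : ℂ := ∑' m, coeff m φ * w ^ m

theorem Conv.norm_summable {r : ℝ} {φ : ℂ⟦X⟧} (h : Conv r φ) {w : ℂ} (hw : ‖w‖ ≤ r) :
    Summable (fun m => ‖coeff m φ * w ^ m‖) := by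
  refine Summable.of_nonneg_of_le (fun _ => norm_nonneg _) (fun m => ?_) h
  rw [norm_mul, norm_pow]
  gcongr

theorem Conv.summable {r : ℝ} {φ : ℂ⟦X⟧} (h : Conv r φ) {w : ℂ} (hw : ‖w‖ ≤ r) :
    Summable (fun m => coeff m φ * w ^ m) := (h.norm_summable hw).of_norm

theorem Conv.mono {r r' : ℝ} {φ : ℂ⟦X⟧} (h : Conv r φ) (h0 : 0 ≤ r') (hr : r' ≤ r) :
    Conv r' φ := by
  refine Summable.of_nonneg_of_le (fun _ => by positivity) (fun m => ?_) h
  gcongr

theorem Conv.add {r : ℝ} {φ χ : ℂ⟦X⟧} (h0 : 0 ≤ r) (h : Conv r φ) (h' : Conv r χ) :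
    Conv r (φ + χ) := by
  refine Summable.of_nonneg_of_le (fun _ => by positivity) (fun m => ?_) (Summable.add h h')
  rw [map_add, ← add_mul]
  gcongr
  exact norm_add_le _ _

theorem Conv.mul {r : ℝ} {φ χ : ℂ⟦X⟧} (h0 : 0 ≤ r) (h : Conv r φ) (h' : Conv r χ) :
    Conv r (φ * χ) := by
  have h1 : Summable fun m => ‖‖coeff m φ‖ * r ^ m‖ := by
    refine h.congr (fun m => ?_)
    rw [Real.norm_of_nonneg (by positivity)]
  have h2 : Summable fun m => ‖‖coeff m χ‖ * r ^ m‖ := by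
    refine h'.congr (fun m => ?_)
    rw [Real.norm_of_nonneg (by positivity)]
  have h3 := (summable_norm_sum_mul_antidiagonal_of_summable_norm h1 h2)
  refine Summable.of_nonneg_of_le (fun _ => by positivity) (fun m => ?_) h3
  refine le_trans ?_ (le_abs_self _)
  rw [coeff_mul]
  calc ‖∑ p ∈ Finset.HasAntidiagonal.antidiagonal m, (coeff p.1) φ * (coeff p.2) χ‖ * r ^ m
      ≤ (∑ p ∈ Finset.HasAntidiagonal.antidiagonal m, ‖coeff p.1 φ‖ * ‖coeff p.2 χ‖) * r ^ m := by
        gcongr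
        refine (norm_sum_le _ _).trans (le_of_eq ?_)
        exact Finset.sum_congr rfl fun p _ => norm_mul _ _
    _ = ∑ p ∈ Finset.HasAntidiagonal.antidiagonal m, ‖coeff p.1 φ‖ * r ^ p.1 * (‖coeff p.2 χ‖ * r ^ p.2) := by
        rw [Finset.sum_mul]
        refine Finset.sum_congr rfl fun p hp => ?_
        rw [← Finset.HasAntidiagonal.mem_antidiagonal.1 hp, pow_add]
        ring

theorem conv_C (r : ℝ) (a : ℂ) : Conv r (C a) := by
  refine summable_of_ne_finset_zero (s := {0}) fun m hm => ?_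
  rw [Finset.mem_singleton] at hm
  rw [coeff_C, if_neg hm, norm_zero, zero_mul]

theorem conv_X (r : ℝ) : Conv r X := by
  refine summable_of_ne_finset_zero (s := {1}) fun m hm => ?_
  rw [Finset.mem_singleton] at hm
  rw [coeff_X, if_neg hm, norm_zero, zero_mul]

/-- the algebra of series converging absolutely at radius `r` -/
def convSub (r : ℝ) (h0 : 0 ≤ r) : Subalgebra ℂ ℂ⟦X⟧ where
  carrier := {φ | Conv r φ}
  mul_mem' h h' := Conv.mul h0 h h'
  add_mem' h h' := Conv.add h0 h h'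
  algebraMap_mem' a := by
    rw [PowerSeries.algebraMap_apply, Algebra.algebraMap_self, RingHom.id_apply]
    exact conv_C r a

theorem ev_C (w a : ℂ) : ev w (C a) = a := by
  rw [ev, tsum_eq_single 0]
  · simp
  · intro m hm
    rw [coeff_C, if_neg hm, zero_mul]

theorem ev_one (w : ℂ) : ev w 1 = 1 := by
  have := ev_C w 1
  rwa [map_one] at this

theorem ev_X (w : ℂ) : ev w X = w := by
  rw [ev, tsum_eq_single 1]
  · simp
  · intro m hm
    rw [coeff_X, if_neg hm, zero_mul]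

theorem ev_add {r : ℝ} {φ χ : ℂ⟦X⟧} (h : Conv r φ) (h' : Conv r χ) {w : ℂ} (hw : ‖w‖ ≤ r) :
    ev w (φ + χ) = ev w φ + ev w χ := by
  rw [ev, ev, ev, ← (h.summable hw).tsum_add (h'.summable hw)]
  refine tsum_congr fun m => ?_
  rw [map_add, add_mul]

theorem ev_mul {r : ℝ} {φ χ : ℂ⟦X⟧} (h : Conv r φ) (h' : Conv r χ) {w : ℂ} (hw : ‖w‖ ≤ r) :
    ev w (φ * χ) = ev w φ * ev w χ := by
  rw [ev, ev, ev, tsum_mul_tsum_eq_tsum_sum_antidiagonal_of_summable_norm (h.norm_summable hw)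
    (h'.norm_summable hw)]
  refine tsum_congr fun m => ?_
  rw [coeff_mul, Finset.sum_mul]
  refine Finset.sum_congr rfl fun p hp => ?_
  rw [← Finset.HasAntidiagonal.mem_antidiagonal.1 hp, pow_add]
  ring

/-- evaluation as an algebra homomorphism -/
def evHom {r : ℝ} (h0 : 0 ≤ r) (w : ℂ) (hw : ‖w‖ ≤ r) : convSub r h0 →ₐ[ℂ] ℂ where
  toFun φ := ev w φ.1
  map_one' := ev_one w
  map_mul' φ χ := ev_mul φ.2 χ.2 hw
  map_zero' := by simp [ev]
  map_add' φ χ := ev_add φ.2 χ.2 hw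
  commutes' a := by
    change ev w (algebraMap ℂ ℂ⟦X⟧ a) = _
    rw [PowerSeries.algebraMap_apply, Algebra.algebraMap_self, RingHom.id_apply]
    exact ev_C w a

theorem Conv.aeval {r : ℝ} (h0 : 0 ≤ r) {φ : ℂ⟦X⟧} (h : Conv r φ) (P : Polynomial ℂ) :
    Conv r (Polynomial.aeval φ P) := by
  have : Polynomial.aeval φ P = ((Polynomial.aeval (⟨φ, h⟩ : convSub r h0) P : convSub r h0) :
      ℂ⟦X⟧) := by
    rw [← Subalgebra.coe_val, ← Polynomial.aeval_algHom_apply]
    rfl
  rw [this]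
  exact (Polynomial.aeval (⟨φ, h⟩ : convSub r h0) P).2

theorem ev_aeval {r : ℝ} (h0 : 0 ≤ r) {φ : ℂ⟦X⟧} (h : Conv r φ) (P : Polynomial ℂ) {w : ℂ}
    (hw : ‖w‖ ≤ r) : ev w (Polynomial.aeval φ P) = P.eval (ev w φ) := by
  have : Polynomial.aeval φ P = ((Polynomial.aeval (⟨φ, h⟩ : convSub r h0) P : convSub r h0) :
      ℂ⟦X⟧) := by
    rw [← Subalgebra.coe_val, ← Polynomial.aeval_algHom_apply]
    rfl
  rw [this]
  change evHom h0 w hw _ = _
  rw [← Polynomial.aeval_algHom_apply, Polynomial.coe_aeval_eq_eval]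
  rfl

theorem Conv.pow {r : ℝ} (h0 : 0 ≤ r) {φ : ℂ⟦X⟧} (h : Conv r φ) (k : ℕ) : Conv r (φ ^ k) := by
  have := h.aeval h0 (Polynomial.X ^ k)
  simpa using this

theorem ev_pow {r : ℝ} (h0 : 0 ≤ r) {φ : ℂ⟦X⟧} (h : Conv r φ) (k : ℕ) {w : ℂ}
    (hw : ‖w‖ ≤ r) : ev w (φ ^ k) = ev w φ ^ k := by
  have := ev_aeval h0 h (Polynomial.X ^ k) hw
  simpa using this

/-- convergence of the derivative on a smaller disc -/
theorem Conv.deriv {r r' : ℝ} {φ : ℂ⟦X⟧} (h : Conv r φ) (h0 : 0 ≤ r') (hr : r' < r) :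
    Conv r' (derivative ℂ φ) := by
  have hr0 : 0 < r := h0.trans_lt hr
  have hq : ‖r' / r‖ < 1 := by
    rw [Real.norm_of_nonneg (by positivity), div_lt_one hr0]
    exact hr
  have hb : Filter.Tendsto (fun m : ℕ => ((m : ℝ) ^ 1 * (r' / r) ^ m)) Filter.atTop (nhds 0) :=
    (summable_pow_mul_geometric_of_norm_lt_one 1 hq).tendsto_atTop_zero
  obtain ⟨B, hB⟩ := hb.bddAbove_range
  have hB' : ∀ m : ℕ, (m : ℝ) * (r' / r) ^ m ≤ B := fun m => by
    have := hB ⟨m, rfl⟩
    simpa using this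
  -- compare with the shifted series
  rcases eq_or_lt_of_le h0 with h0' | h0'
  · rw [← h0']
    refine summable_of_ne_finset_zero (s := {0}) fun m hm => ?_
    rw [Finset.mem_singleton] at hm
    rw [zero_pow hm, mul_zero]
  have h1 : Summable fun m => ‖coeff (m + 1) φ‖ * r ^ (m + 1) :=
    (summable_nat_add_iff 1).2 h
  have h2 : Summable fun m => (B / r') * (‖coeff (m + 1) φ‖ * r ^ (m + 1)) := h1.mul_left _
  refine Summable.of_nonneg_of_le (fun _ => by positivity) (fun m => ?_) h2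
  rw [coeff_derivative, norm_mul]
  have h3 : ‖((m : ℂ) + 1)‖ = (m : ℝ) + 1 := by
    rw [← Nat.cast_add_one, Complex.norm_natCast]
    push_cast
    ring
  rw [h3]
  have h4 := hB' (m + 1)
  have h5 : ((m : ℝ) + 1) * r' ^ (m + 1) ≤ B * r ^ (m + 1) := by
    have := mul_le_mul_of_nonneg_right h4 (show (0 : ℝ) ≤ r ^ (m + 1) by positivity)
    calc ((m : ℝ) + 1) * r' ^ (m + 1) = ((m + 1 : ℕ) : ℝ) * (r' / r) ^ (m + 1) * r ^ (m + 1) := by
          rw [div_pow]
          push_cast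
          field_simp
      _ ≤ _ := this
  calc ‖(coeff (m + 1)) φ‖ * ((m : ℝ) + 1) * r' ^ m
      = ‖(coeff (m + 1)) φ‖ * (((m : ℝ) + 1) * r' ^ (m + 1)) / r' := by
        rw [pow_succ]
        field_simp
    _ ≤ ‖(coeff (m + 1)) φ‖ * (B * r ^ (m + 1)) / r' := by gcongr
    _ = B / r' * (‖(coeff (m + 1)) φ‖ * r ^ (m + 1)) := by ring

/-- the value is differentiable -/
theorem hasDerivAt_ev {r : ℝ} {φ : ℂ⟦X⟧} (h : Conv r φ) {w : ℂ} (hw : ‖w‖ < r) :
    HasDerivAt (fun z => ev z φ) (ev w (derivative ℂ φ)) w := by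
  obtain ⟨r', h1, h2⟩ := exists_between hw
  have h0 : 0 ≤ r' := (norm_nonneg w).trans h1.le
  have hd := h.deriv h0 h2
  have hu : Summable fun m : ℕ => ‖coeff m φ‖ * (m * r' ^ (m - 1)) := by
    rw [← summable_nat_add_iff 1]
    refine Summable.congr hd fun m => ?_
    rw [coeff_derivative, norm_mul, Nat.add_sub_cancel]
    have h3 : ‖((m : ℂ) + 1)‖ = ((m + 1 : ℕ) : ℝ) := by
      rw [← Nat.cast_add_one, Complex.norm_natCast]
    rw [h3, mul_assoc]
  have key := hasDerivAt_tsum_of_isPreconnected (𝕜 := ℂ) (g := fun m z => coeff m φ * z ^ m)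
    (g' := fun m z => coeff m φ * (m * z ^ (m - 1))) hu (Metric.isOpen_ball (x := (0 : ℂ)) (ε := r'))
    (convex_ball _ _).isPreconnected
    (fun m y _ => (hasDerivAt_pow m y).const_mul _)
    (fun m y hy => by
      rw [mem_ball_zero_iff] at hy
      rw [norm_mul, norm_mul, norm_pow, Complex.norm_natCast]
      gcongr)
    (y₀ := w) (by rw [mem_ball_zero_iff]; exact h1)
    (h.summable hw.le) (y := w) (by rw [mem_ball_zero_iff]; exact h1)
  have e : ev w (derivative ℂ φ) = ∑' m : ℕ, coeff m φ * (m * w ^ (m - 1)) := by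
    have hs : Summable fun m : ℕ => coeff m φ * (m * w ^ (m - 1)) := by
      refine Summable.of_norm (Summable.of_nonneg_of_le (fun _ => norm_nonneg _) (fun m => ?_) hu)
      rw [norm_mul, norm_mul, norm_pow, Complex.norm_natCast]
      gcongr
    rw [hs.tsum_eq_zero_add, ev]
    simp only [Nat.cast_zero, zero_mul, mul_zero, zero_add, Nat.add_sub_cancel]
    refine tsum_congr fun m => ?_
    rw [coeff_derivative]
    push_cast
    ring
  rw [e]
  exact key

theorem conv_zero_radius (φ : ℂ⟦X⟧) : Conv 0 φ := by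
  refine summable_of_ne_finset_zero (s := {0}) fun m hm => ?_
  rw [Finset.mem_singleton] at hm
  rw [zero_pow hm, mul_zero]

theorem ev_zero_pt (φ : ℂ⟦X⟧) : ev 0 φ = coeff 0 φ := by
  rw [ev, tsum_eq_single 0]
  · simp
  · intro m hm
    rw [zero_pow hm, mul_zero]

/-- the inverse of a convergent unit converges on a smaller disc -/
theorem Conv.inv {r : ℝ} (hr : 0 < r) {φ v : ℂ⟦X⟧} (h : Conv r φ) (hc : coeff 0 φ = 1)
    (hv : φ * v = 1) : ∃ r', 0 < r' ∧ r' ≤ r ∧ Conv r' v := by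
  set S := ∑' m, ‖coeff m φ‖ * r ^ m with hS
  have hS0 : 0 ≤ S := tsum_nonneg fun m => by positivity
  -- choose `r' = r / (2 S + 2)`
  set q : ℝ := 1 / (2 * S + 2) with hq
  have hq0 : 0 < q := by positivity
  have hq1 : q ≤ 1 := by
    rw [hq, div_le_one (by positivity)]
    linarith
  refine ⟨r * q, by positivity, by nlinarith, ?_⟩
  have hr' : 0 < r * q := by positivity
  set r' := r * q with hr'def
  -- the tail of `φ` at `r'` is at most `1/2`
  have hterm : ∀ m, ‖coeff (m + 1) φ‖ * r' ^ (m + 1) ≤ q * (‖coeff (m + 1) φ‖ * r ^ (m + 1)) := by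
    intro m
    have : r' ^ (m + 1) ≤ q * r ^ (m + 1) := by
      rw [hr'def, mul_pow, mul_comm]
      have : q ^ (m + 1) ≤ q := by
        rw [pow_succ]
        exact mul_le_of_le_one_left hq0.le (pow_le_one₀ hq0.le hq1)
      gcongr
    calc ‖coeff (m + 1) φ‖ * r' ^ (m + 1) ≤ ‖coeff (m + 1) φ‖ * (q * r ^ (m + 1)) := by gcongr
      _ = _ := by ring
  have hsum : Summable fun m => ‖coeff (m + 1) φ‖ * r ^ (m + 1) := (summable_nat_add_iff 1).2 h
  have htail : ∀ M, ∑ m ∈ Finset.range M, ‖coeff (m + 1) φ‖ * r' ^ (m + 1) ≤ 1 / 2 := by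
    intro M
    calc ∑ m ∈ Finset.range M, ‖coeff (m + 1) φ‖ * r' ^ (m + 1)
        ≤ ∑ m ∈ Finset.range M, q * (‖coeff (m + 1) φ‖ * r ^ (m + 1)) :=
          Finset.sum_le_sum fun m _ => hterm m
      _ = q * ∑ m ∈ Finset.range M, (‖coeff (m + 1) φ‖ * r ^ (m + 1)) := by
          rw [Finset.mul_sum]
      _ ≤ q * ∑' m, (‖coeff (m + 1) φ‖ * r ^ (m + 1)) := by
          gcongr
          exact hsum.sum_le_tsum _ (fun m _ => by positivity)
      _ ≤ q * S := by
          gcongr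
          rw [hS, h.tsum_eq_zero_add]
          have : 0 ≤ ‖coeff 0 φ‖ * r ^ 0 := by positivity
          linarith
      _ ≤ 1 / 2 := by
          rw [hq]
          rw [div_mul_eq_mul_div, one_mul, div_le_div_iff₀ (by positivity) (by norm_num)]
          linarith
  -- recursion for `v`
  have hv0 : coeff 0 v = 1 := by
    have := congrArg (coeff 0) hv
    simpa [coeff_mul, hc] using this
  have hrec : ∀ m, ‖coeff (m + 1) v‖ ≤
      ∑ k ∈ Finset.range (m + 1), ‖coeff (k + 1) φ‖ * ‖coeff (m - k) v‖ := by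
    intro m
    have h1 := congrArg (coeff (m + 1)) hv
    rw [coeff_mul, Finset.Nat.sum_antidiagonal_eq_sum_range_succ_mk, Finset.sum_range_succ',
      coeff_one, if_neg (by omega)] at h1
    simp only [Nat.sub_zero, hc, one_mul] at h1
    have h2 : coeff (m + 1) v =
        - ∑ k ∈ Finset.range (m + 1), coeff (k + 1) φ * coeff (m + 1 - (k + 1)) v := by
      linear_combination h1
    rw [h2, norm_neg]
    refine (norm_sum_le _ _).trans (le_of_eq (Finset.sum_congr rfl fun k _ => ?_))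
    rw [norm_mul, Nat.add_sub_add_right]
  -- bound the partial sums
  have hpart : ∀ M, ∑ m ∈ Finset.range M, ‖coeff m v‖ * r' ^ m ≤ 2 := by
    intro M
    set T := ∑ m ∈ Finset.range M, ‖coeff m v‖ * r' ^ m with hT
    have hT0 : 0 ≤ T := Finset.sum_nonneg fun m _ => by positivity
    rcases M with _ | M
    · simp [hT]
    have h1 : T ≤ 1 + ∑ m ∈ Finset.range M, ∑ k ∈ Finset.range (m + 1),
        (‖coeff (k + 1) φ‖ * r' ^ (k + 1)) * (‖coeff (m - k) v‖ * r' ^ (m - k)) := by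
      rw [hT, Finset.sum_range_succ', hv0]
      simp only [norm_one, pow_zero, mul_one]
      rw [add_comm]
      gcongr with m hm
      calc ‖coeff (m + 1) v‖ * r' ^ (m + 1) ≤
          (∑ k ∈ Finset.range (m + 1), ‖coeff (k + 1) φ‖ * ‖coeff (m - k) v‖) * r' ^ (m + 1) := by
            gcongr
            exact hrec m
        _ = _ := by
            rw [Finset.sum_mul]
            refine Finset.sum_congr rfl fun k hk => ?_
            rw [Finset.mem_range] at hk
            have : m + 1 = (k + 1) + (m - k) := by omega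
            conv_lhs => rw [this, pow_add]
            ring
    have h2 : ∑ m ∈ Finset.range M, ∑ k ∈ Finset.range (m + 1),
        (‖coeff (k + 1) φ‖ * r' ^ (k + 1)) * (‖coeff (m - k) v‖ * r' ^ (m - k)) ≤
        (∑ k ∈ Finset.range M, ‖coeff (k + 1) φ‖ * r' ^ (k + 1)) *
          (∑ j ∈ Finset.range M, ‖coeff j v‖ * r' ^ j) := by
      rw [Finset.sum_range_diag_flip M (fun k j => (‖coeff (k + 1) φ‖ * r' ^ (k + 1)) *
        (‖coeff j v‖ * r' ^ j)), Finset.sum_mul_sum]
      refine Finset.sum_le_sum fun k _ => ?_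
      refine Finset.sum_le_sum_of_subset_of_nonneg ?_ fun j _ _ => by positivity
      exact Finset.range_subset_range.2 (Nat.sub_le _ _)
    have h3 : (∑ j ∈ Finset.range M, ‖coeff j v‖ * r' ^ j) ≤ T := by
      rw [hT, Finset.sum_range_succ]
      have : 0 ≤ ‖coeff M v‖ * r' ^ M := by positivity
      linarith
    have h4 : (∑ k ∈ Finset.range M, ‖coeff (k + 1) φ‖ * r' ^ (k + 1)) *
          (∑ j ∈ Finset.range M, ‖coeff j v‖ * r' ^ j) ≤ 1 / 2 * T := by
      have := htail M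
      gcongr
    linarith
  exact summable_of_sum_range_le (fun m => by positivity) hpart

end

end Pool.Agent.helper59.LC
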