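import Mathlib

/-!
# Formal part: the series `ψ` with `X ψ' = F(ψ)`, `F = X + X² g`

`ψ` is the formal linearisation of the holomorphic vector field `F(z) ∂/∂z`.
-/

open PowerSeries

namespace Pool.Agent.helper59.LC

noncomputable section

variable {A : Type*} [CommRing A]

/-- the polynomial `X + X² g` -/
def FF (g : Polynomial A) : Polynomial A := Polynomial.X + Polynomial.X ^ 2 * g

/-- `ψ = X + …` and `X ψ' = F(ψ)` -/
def IsPsi (g : Polynomial A) (ψ : A⟦X⟧) : Prop :=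
  (X : A⟦X⟧) ∣ ψ ∧ coeff 1 ψ = 1 ∧
    (X : A⟦X⟧) * derivative A ψ = Polynomial.aeval ψ (FF g)

theorem aeval_FF (g : Polynomial A) (ψ : A⟦X⟧) :
    Polynomial.aeval ψ (FF g) = ψ + ψ ^ 2 * Polynomial.aeval ψ g := by
  simp [FF]

theorem diff_dvd (g : Polynomial A) {ψ φ : A⟦X⟧} {m : ℕ} (h1 : (X : A⟦X⟧) ∣ ψ)
    (h2 : (X : A⟦X⟧) ∣ φ) (h : (X : A⟦X⟧) ^ m ∣ ψ - φ) :
    (X : A⟦X⟧) ^ (m + 1) ∣
      ψ ^ 2 * Polynomial.aeval ψ g - φ ^ 2 * Polynomial.aeval φ g := by
  have e : ψ ^ 2 * Polynomial.aeval ψ g - φ ^ 2 * Polynomial.aeval φ g =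
      (ψ - φ) * ((ψ + φ) * Polynomial.aeval ψ g) +
        φ ^ 2 * (Polynomial.aeval ψ g - Polynomial.aeval φ g) := by ring
  rw [e]
  have hg : ψ - φ ∣ Polynomial.aeval ψ g - Polynomial.aeval φ g := by
    have := Polynomial.sub_dvd_eval_sub ψ φ (g.map (algebraMap A A⟦X⟧))
    rwa [Polynomial.eval_map_algebraMap, Polynomial.eval_map_algebraMap] at this
  apply dvd_add
  · rw [pow_succ]
    exact mul_dvd_mul h (dvd_mul_of_dvd_left (dvd_add h1 h2) _)
  · rw [pow_succ, mul_comm (X ^ m) X]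
    exact mul_dvd_mul (dvd_pow h2 two_ne_zero) (h.trans hg)

section rat

variable [Algebra ℚ A]

/-- division of the coefficient of `X^m` by `m - 1` -/
def JJ (φ : A⟦X⟧) : A⟦X⟧ :=
  PowerSeries.mk fun m => if m < 2 then 0 else (((m : ℚ) - 1)⁻¹) • coeff m φ

theorem coeff_JJ (φ : A⟦X⟧) (m : ℕ) :
    coeff m (JJ φ) = if m < 2 then 0 else (((m : ℚ) - 1)⁻¹) • coeff m φ := by
  simp [JJ]

theorem JJ_sub (φ χ : A⟦X⟧) : JJ φ - JJ χ = JJ (φ - χ) := by
  ext m
  rw [map_sub, coeff_JJ, coeff_JJ, coeff_JJ]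
  split_ifs
  · simp
  · rw [map_sub, smul_sub]

theorem JJ_dvd {φ : A⟦X⟧} {m : ℕ} (h : (X : A⟦X⟧) ^ m ∣ φ) : (X : A⟦X⟧) ^ m ∣ JJ φ := by
  rw [X_pow_dvd_iff] at h ⊢
  intro k hk
  rw [coeff_JJ, h k hk]
  simp

/-- the contraction whose fixed point is `ψ` -/
def TT (g : Polynomial A) (ψ : A⟦X⟧) : A⟦X⟧ := X + JJ (ψ ^ 2 * Polynomial.aeval ψ g)

theorem X_dvd_TT (g : Polynomial A) (ψ : A⟦X⟧) : (X : A⟦X⟧) ∣ TT g ψ := by
  rw [X_dvd_iff, ← coeff_zero_eq_constantCoeff_apply, TT, map_add, coeff_JJ]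
  simp

theorem TT_diff (g : Polynomial A) {ψ φ : A⟦X⟧} {m : ℕ} (h1 : (X : A⟦X⟧) ∣ ψ)
    (h2 : (X : A⟦X⟧) ∣ φ) (h : (X : A⟦X⟧) ^ m ∣ ψ - φ) :
    (X : A⟦X⟧) ^ (m + 1) ∣ TT g ψ - TT g φ := by
  have : TT g ψ - TT g φ = JJ (ψ ^ 2 * Polynomial.aeval ψ g - φ ^ 2 * Polynomial.aeval φ g) := by
    rw [← JJ_sub, TT, TT]; ring
  rw [this]
  exact JJ_dvd (diff_dvd g h1 h2 h)

/-- the approximations -/
def psiN (g : Polynomial A) : ℕ → A⟦X⟧
  | 0 => X
  | k + 1 => TT g (psiN g k)

theorem X_dvd_psiN (g : Polynomial A) (k : ℕ) : (X : A⟦X⟧) ∣ psiN g k := by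
  cases k with
  | zero => exact dvd_rfl
  | succ k => exact X_dvd_TT g _

theorem psiN_succ (g : Polynomial A) (k : ℕ) :
    (X : A⟦X⟧) ^ (k + 1) ∣ psiN g (k + 1) - psiN g k := by
  induction k with
  | zero =>
    rw [zero_add, pow_one]
    exact dvd_sub (X_dvd_psiN g _) (X_dvd_psiN g _)
  | succ k ih => exact TT_diff g (X_dvd_psiN g _) (X_dvd_psiN g _) ih

theorem psiN_add (g : Polynomial A) (k j : ℕ) :
    (X : A⟦X⟧) ^ (k + 1) ∣ psiN g (k + j) - psiN g k := by
  induction j with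
  | zero => simp
  | succ j ih =>
    have e : psiN g (k + (j + 1)) - psiN g k =
        (psiN g (k + j + 1) - psiN g (k + j)) + (psiN g (k + j) - psiN g k) := by
      rw [← add_assoc]; ring
    rw [e]
    exact dvd_add ((pow_dvd_pow _ (by omega)).trans (psiN_succ g (k + j))) ih

/-- the solution -/
def psi (g : Polynomial A) : A⟦X⟧ := PowerSeries.mk fun m => coeff m (psiN g m)

theorem psi_sub (g : Polynomial A) (k : ℕ) : (X : A⟦X⟧) ^ (k + 1) ∣ psi g - psiN g k := by
  rw [X_pow_dvd_iff]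
  intro m hm
  rw [map_sub, psi, coeff_mk]
  have h := psiN_add g m (k - m)
  rw [Nat.add_sub_cancel' (by omega), X_pow_dvd_iff] at h
  have := h m (by omega)
  rw [map_sub] at this
  rw [sub_eq_zero] at this ⊢
  exact this.symm

theorem X_dvd_psi (g : Polynomial A) : (X : A⟦X⟧) ∣ psi g := by
  have h := psi_sub g 0
  rw [zero_add, pow_one] at h
  have := dvd_add h (X_dvd_psiN g 0)
  simpa using this

theorem psi_fix (g : Polynomial A) : TT g (psi g) = psi g := by
  rw [← sub_eq_zero]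
  ext m
  rw [map_zero]
  have h1 : (X : A⟦X⟧) ^ (m + 1 + 1) ∣ TT g (psi g) - psiN g (m + 1) :=
    TT_diff g (X_dvd_psi g) (X_dvd_psiN g m) (psi_sub g m)
  have h2 := psi_sub g (m + 1)
  have h3 := dvd_sub h1 h2
  rw [sub_sub_sub_cancel_right, X_pow_dvd_iff] at h3
  exact h3 m (by omega)

theorem isPsi_of_fix (g : Polynomial A) {ψ : A⟦X⟧} (h : TT g ψ = ψ) : IsPsi g ψ := by
  have hX : (X : A⟦X⟧) ∣ ψ := h ▸ X_dvd_TT g ψ
  have h2 : (X : A⟦X⟧) ^ 2 ∣ ψ ^ 2 * Polynomial.aeval ψ g :=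
    dvd_mul_of_dvd_left (pow_dvd_pow_of_dvd hX 2) _
  rw [X_pow_dvd_iff] at h2
  have hc : ∀ m, coeff m ψ = coeff m (X : A⟦X⟧) +
      (if m < 2 then 0 else (((m : ℚ) - 1)⁻¹) • coeff m (ψ ^ 2 * Polynomial.aeval ψ g)) := by
    intro m
    conv_lhs => rw [← h]
    rw [TT, map_add, coeff_JJ]
  refine ⟨hX, ?_, ?_⟩
  · rw [hc 1]
    simp
  · rw [aeval_FF]
    ext m
    rw [map_add]
    rcases m with _ | m
    · rw [h2 0 (by norm_num), add_zero]
      simp only [coeff_zero_eq_constantCoeff, map_mul, constantCoeff_X, zero_mul]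
      rw [X_dvd_iff] at hX
      exact hX.symm
    · rw [mul_comm X, coeff_succ_mul_X, coeff_derivative]
      rcases m with _ | m
      · rw [h2 1 (by norm_num)]
        simp
      · have hne : ((m : ℚ) + 1) ≠ 0 := by positivity
        have e1 := hc (m + 1 + 1)
        rw [if_neg (by omega), coeff_X, if_neg (by omega), zero_add] at e1
        have e2 : coeff (m + 1 + 1) (ψ ^ 2 * Polynomial.aeval ψ g) =
            ((m : A) + 1) * coeff (m + 1 + 1) ψ := by
          rw [e1]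
          have : (((m + 1 + 1 : ℕ) : ℚ) - 1) = (m : ℚ) + 1 := by push_cast; ring
          rw [this]
          have h3 : ((m : A) + 1) = algebraMap ℚ A ((m : ℚ) + 1) := by simp
          rw [h3, Algebra.smul_def, ← mul_assoc, ← map_mul, mul_inv_cancel₀ hne, map_one, one_mul]
        rw [e2]
        push_cast
        ring

theorem isPsi_psi (g : Polynomial A) : IsPsi g (psi g) := isPsi_of_fix g (psi_fix g)

theorem IsPsi.fix {g : Polynomial A} {ψ : A⟦X⟧} (h : IsPsi g ψ) : TT g ψ = ψ := by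
  obtain ⟨hX, h1, h2⟩ := h
  rw [aeval_FF] at h2
  ext m
  rw [TT, map_add, coeff_JJ]
  rcases m with _ | m
  · rw [X_dvd_iff, ← coeff_zero_eq_constantCoeff_apply] at hX
    rw [hX]; simp
  rcases m with _ | m
  · simp [h1]
  rw [if_neg (by omega), coeff_X, if_neg (by omega), zero_add]
  have h3 := congrArg (coeff (m + 1 + 1)) h2
  rw [mul_comm X, coeff_succ_mul_X, coeff_derivative, map_add] at h3
  have e2 : coeff (m + 1 + 1) (ψ ^ 2 * Polynomial.aeval ψ g) =
      ((m : A) + 1) * coeff (m + 1 + 1) ψ := by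
    push_cast at h3
    linear_combination -h3
  rw [e2]
  have hne : ((m : ℚ) + 1) ≠ 0 := by positivity
  have : (((m + 1 + 1 : ℕ) : ℚ) - 1) = (m : ℚ) + 1 := by push_cast; ring
  rw [this]
  have h3 : ((m : A) + 1) = algebraMap ℚ A ((m : ℚ) + 1) := by simp
  rw [h3, Algebra.smul_def, ← mul_assoc, ← map_mul, inv_mul_cancel₀ hne, map_one, one_mul]

theorem IsPsi.unique {g : Polynomial A} {ψ φ : A⟦X⟧} (h : IsPsi g ψ) (h' : IsPsi g φ) :
    ψ = φ := by
  have key : ∀ m, (X : A⟦X⟧) ^ m ∣ ψ - φ := by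
    intro m
    induction m with
    | zero => simp
    | succ m ih =>
      have := TT_diff g h.1 h'.1 ih
      rwa [h.fix, h'.fix] at this
  rw [← sub_eq_zero]
  ext m
  have := key (m + 1)
  rw [X_pow_dvd_iff] at this
  rw [this m (by omega), map_zero]

end rat

/-- the reciprocal of `ψ'` -/
def rec' (ψ : A⟦X⟧) : A⟦X⟧ := invOfUnit (derivative A ψ) 1

theorem IsPsi.mul_rec {g : Polynomial A} {ψ : A⟦X⟧} (h : IsPsi g ψ) :
    derivative A ψ * rec' ψ = 1 := by
  apply mul_invOfUnit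
  rw [← coeff_zero_eq_constantCoeff_apply, coeff_derivative]
  simp [h.2.1]

/-- the sequence `S_P(m) = [w^(m+1)] P(ψ)/ψ'` -/
def SS (ψ : A⟦X⟧) (P : Polynomial A) (m : ℕ) : A :=
  coeff (m + 1) (Polynomial.aeval ψ P * rec' ψ)

/-- the operator `F P' - F' P` -/
def LL (g : Polynomial A) (P : Polynomial A) : Polynomial A :=
  FF g * Polynomial.derivative P - Polynomial.derivative (FF g) * P

theorem SS_add (ψ : A⟦X⟧) (P Q : Polynomial A) (m : ℕ) : SS ψ (P + Q) m = SS ψ P m + SS ψ Q m := by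
  simp [SS, add_mul]

theorem SS_sub (ψ : A⟦X⟧) (P Q : Polynomial A) (m : ℕ) : SS ψ (P - Q) m = SS ψ P m - SS ψ Q m := by
  simp [SS, sub_mul]

theorem SS_smul (ψ : A⟦X⟧) (c : A) (P : Polynomial A) (m : ℕ) :
    SS ψ (Polynomial.C c * P) m = c * SS ψ P m := by
  simp only [SS, map_mul, Polynomial.aeval_C]
  rw [mul_assoc, PowerSeries.algebraMap_apply, Algebra.algebraMap_self, RingHom.id_apply,
    coeff_C_mul]

theorem deriv_aeval (ψ : A⟦X⟧) (P : Polynomial A) :
    derivative A (Polynomial.aeval ψ P) =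
      Polynomial.aeval ψ (Polynomial.derivative P) * derivative A ψ := by
  induction P using Polynomial.induction_on' with
  | add p q hp hq => simp [hp, hq, add_mul]
  | monomial k a =>
    rw [Polynomial.aeval_monomial, Polynomial.derivative_monomial, Polynomial.aeval_monomial]
    rw [← Algebra.smul_def, ← Algebra.smul_def, Derivation.map_smul, Derivation.leibniz_pow,
      smul_mul_assoc, smul_eq_mul (ψ ^ (k - 1)), mul_smul, Nat.cast_smul_eq_nsmul]

theorem SS_LL {g : Polynomial A} {ψ : A⟦X⟧} (h : IsPsi g ψ) (P : Polynomial A) (m : ℕ) :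
    SS ψ (LL g P) m = m * SS ψ P m := by
  obtain ⟨hX, h1, h2⟩ := h
  have hr : derivative A ψ * rec' ψ = 1 := IsPsi.mul_rec ⟨hX, h1, h2⟩
  set v := rec' ψ with hv
  set D := derivative A ψ with hD
  set u := Polynomial.aeval ψ P with hu
  set u' := Polynomial.aeval ψ (Polynomial.derivative P) with hu'
  set F' := Polynomial.aeval ψ (Polynomial.derivative (FF g)) with hF'
  have e1 : derivative A u = u' * D := deriv_aeval ψ P
  have e2 : D + X * derivative A D = F' * D := by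
    have := congrArg (derivative A) h2
    rw [deriv_aeval, Derivation.leibniz, derivative_X] at this
    rw [← this]
    simp only [smul_eq_mul]
    ring
  have e3 : derivative A v = - (v ^ 2 * derivative A D) := by
    have := congrArg (derivative A) hr
    rw [Derivation.leibniz, Derivation.map_one_eq_zero] at this
    simp only [smul_eq_mul] at this
    have h5 : v * (D * derivative A v + v * derivative A D) = 0 := by rw [this, mul_zero]
    linear_combination h5 - (derivative A v) * hr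
  have e4 : X * derivative A (u * v) - u * v = Polynomial.aeval ψ (LL g P) * v := by
    have e5 : Polynomial.aeval ψ (LL g P) = X * D * u' - F' * u := by
      rw [LL, map_sub, map_mul, map_mul, ← h2]
    rw [e5, Derivation.leibniz, e1, e3]
    simp only [smul_eq_mul]
    linear_combination (-(u * v ^ 2)) * e2 + (u * v - u * v * F') * hr
  rw [SS, ← e4, SS, ← hu, map_sub, mul_comm X, coeff_succ_mul_X, coeff_derivative]
  ring

theorem SS_FF {g : Polynomial A} {ψ : A⟦X⟧} (h : IsPsi g ψ) (P : Polynomial A) (m : ℕ) :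
    SS ψ (FF g * P) m = coeff m (Polynomial.aeval ψ P) := by
  have hr := h.mul_rec
  have e : Polynomial.aeval ψ (FF g * P) = X * derivative A ψ * Polynomial.aeval ψ P := by
    rw [map_mul, ← h.2.2]
  have : X * derivative A ψ * Polynomial.aeval ψ P * rec' ψ = Polynomial.aeval ψ P * X := by
    linear_combination X * Polynomial.aeval ψ P * hr
  rw [SS, e, this, coeff_succ_mul_X]

/-- coefficients of the powers -/
theorem IsPsi.pow_mul {g : Polynomial A} {ψ : A⟦X⟧} (h : IsPsi g ψ) (l m : ℕ) :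
    (m : A) * coeff m (ψ ^ l) = l * coeff m (ψ ^ l) +
      l * coeff m (ψ ^ (l + 1) * Polynomial.aeval ψ g) := by
  have h2 := h.2.2
  rw [aeval_FF] at h2
  have e : (X : A⟦X⟧) * derivative A (ψ ^ l) =
      C (l : A) * ψ ^ l + C (l : A) * (ψ ^ (l + 1) * Polynomial.aeval ψ g) := by
    rcases l with _ | l
    · simp
    · rw [Derivation.leibniz_pow]
      simp only [Nat.add_sub_cancel, smul_eq_mul, nsmul_eq_mul, map_natCast]
      linear_combination ((l + 1 : ℕ) : A⟦X⟧) * ψ ^ l * h2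
  have := congrArg (coeff m) e
  rw [map_add, coeff_C_mul, coeff_C_mul] at this
  rw [← this]
  rcases m with _ | m
  · simp
  · rw [mul_comm X, coeff_succ_mul_X, coeff_derivative]
    push_cast
    ring

end

end Pool.Agent.helper59.LC
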