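import Mathlib

/-!
# Nonvanishing minors and specialisation
-/

namespace Pool.Agent.helper59.LC

noncomputable section

open Matrix

variable {ι : Type*} [Fintype ι] [DecidableEq ι]

/-- a finite independent family of functions has a nonsingular evaluation matrix -/
theorem exists_det {K : Type*} [Field K] {Y : Type*} {φ : ι → Y → K}
    (h : LinearIndependent K φ) : ∃ p : ι → Y, (Matrix.of fun i j => φ i (p j)).det ≠ 0 := by
  set s : Set (ι → K) := Set.range fun y : Y => fun i => φ i y with hs
  have hspan : Submodule.span K s = ⊤ := by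
    by_contra hne
    obtain ⟨f, hf0, hf⟩ := Submodule.exists_le_ker_of_lt_top _ (lt_top_iff_ne_top.2 hne)
    apply hf0
    have h1 : ∀ y, ∑ i, f (Pi.single i 1) * φ i y = 0 := by
      intro y
      have h2 : (fun i => φ i y) ∈ LinearMap.ker f := hf (Submodule.subset_span ⟨y, rfl⟩)
      rw [LinearMap.mem_ker, LinearMap.pi_apply_eq_sum_univ f] at h2
      rw [← h2]
      refine Finset.sum_congr rfl fun i _ => ?_
      rw [smul_eq_mul, mul_comm]
      congr 2
      ext j
      rw [Pi.single_apply]
      simp only [eq_comm]
    have h3 : ∑ i, f (Pi.single i 1) • φ i = 0 := by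
      ext y
      simpa using h1 y
    have h4 := Fintype.linearIndependent_iff.1 h _ h3
    refine LinearMap.pi_ext' fun i => ?_
    ext
    simpa using h4 i
  obtain ⟨f, hf1, -, hf3⟩ := Submodule.exists_fun_fin_finrank_span_eq K s
  have hc : Module.finrank K (Submodule.span K s) = Fintype.card ι := by
    rw [hspan, finrank_top, Module.finrank_fintype_fun_eq_card]
  set e : ι ≃ Fin (Module.finrank K (Submodule.span K s)) :=
    Fintype.equivFinOfCardEq hc.symm with he
  choose p hp using hf1
  refine ⟨fun j => p (e j), ?_⟩
  have h5 : LinearIndependent K (fun j => f (e j)) := hf3.comp _ e.injective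
  have h6 : (Matrix.of fun i j => φ i (p (e j))).col = fun j => f (e j) := by
    funext j
    rw [← hp (e j)]
    rfl
  rw [← h6, Matrix.linearIndependent_cols_iff_isUnit, Matrix.isUnit_iff_isUnit_det,
    isUnit_iff_ne_zero] at h5
  exact h5

theorem linInd_of_det {K : Type*} [Field K] {Y : Type*} {φ : ι → Y → K} (p : ι → Y)
    (h : (Matrix.of fun i j => φ i (p j)).det ≠ 0) : LinearIndependent K φ := by
  rw [Fintype.linearIndependent_iff]
  intro c hc
  have h1 : c ᵥ* (Matrix.of fun i j => φ i (p j)) = 0 := by
    ext j
    have := congrFun hc (p j)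
    simpa [Matrix.vecMul, dotProduct] using this
  have h2 := Matrix.eq_zero_of_vecMul_eq_zero h h1
  exact fun i => congrFun h2 i

/-- semicontinuity of independence -/
theorem exists_disc {v : ι → ℕ → Polynomial ℂ} {s0 : ℂ}
    (h : LinearIndependent ℂ (fun i m => (v i m).eval s0)) :
    ∃ D : Polynomial ℂ, D.eval s0 ≠ 0 ∧ ∀ s, D.eval s ≠ 0 →
      LinearIndependent ℂ (fun i m => (v i m).eval s) := by
  obtain ⟨p, hp⟩ := exists_det h
  have key : ∀ s, (Matrix.of fun i j => v i (p j)).det.eval s =
      (Matrix.of fun i j => (v i (p j)).eval s).det := by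
    intro s
    have := RingHom.map_det (Polynomial.evalRingHom s) (Matrix.of fun i j => v i (p j))
    rw [Polynomial.coe_evalRingHom] at this
    rw [this]
    rfl
  refine ⟨(Matrix.of fun i j => v i (p j)).det, ?_, fun s hs => ?_⟩
  · rw [key]; exact hp
  · rw [key] at hs
    exact linInd_of_det p hs

end

end Pool.Agent.helper59.LC
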