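import Pool.Agent.helper59.LC.Core2
import Pool.Agent.helper59.LC.Minor

/-!
# From the degenerate pair to a conjugate pair
-/

open PowerSeries

namespace Pool.Agent.helper59.LC

noncomputable section

/-- the index set `1 ≤ j ≤ n - 1`, `i + j ≤ n`, `n = k + 2` -/
def TT2 (k : ℕ) : Finset (ℕ × ℕ) :=
  (Finset.range (k + 3) ×ˢ Finset.Icc 1 (k + 1)).filter fun p => p.1 + p.2 ≤ k + 2

theorem mem_TT2 {k : ℕ} {p : ℕ × ℕ} : p ∈ TT2 k ↔ 1 ≤ p.2 ∧ p.2 ≤ k + 1 ∧ p.1 + p.2 ≤ k + 2 := by
  rw [TT2, Finset.mem_filter, Finset.mem_product, Finset.mem_range, Finset.mem_Icc]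
  constructor
  · rintro ⟨⟨-, h1, h2⟩, h3⟩; exact ⟨h1, h2, h3⟩
  · rintro ⟨h1, h2, h3⟩; exact ⟨⟨by omega, h1, h2⟩, h3⟩

/-- the two families of sequences -/
def fam {A : Type*} [CommRing A] [Algebra ℚ A] (k : ℕ) (g1 g2 : Polynomial A) :
    (TT2 k) ⊕ (TT2 k) → ℕ → A
  | .inl p, m => coeff (m + 1) (psi g2 ^ p.1.2) * SS (psi g1) (Polynomial.X ^ p.1.1) (m + 1)
  | .inr p, m => coeff (m + 1) (psi g1 ^ p.1.2) * SS (psi g2) (Polynomial.X ^ p.1.1) (m + 1)

section map

variable {A B : Type*} [CommRing A] [Algebra ℚ A] [CommRing B] [Algebra ℚ B]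

theorem psi_map (φ : A →+* B) (g : Polynomial A) :
    PowerSeries.map φ (psi g) = psi (g.map φ) :=
  ((isPsi_psi g).map φ).unique (isPsi_psi _)

theorem rec_map (φ : A →+* B) (g : Polynomial A) :
    PowerSeries.map φ (rec' (psi g)) = rec' (psi (g.map φ)) := by
  have h1 := congrArg (PowerSeries.map φ) (isPsi_psi g).mul_rec
  rw [map_mul, map_one, map_derivative, psi_map] at h1
  have h2 := (isPsi_psi (g.map φ)).mul_rec
  calc PowerSeries.map φ (rec' (psi g))
      = (derivative B (psi (g.map φ)) * rec' (psi (g.map φ))) *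
          PowerSeries.map φ (rec' (psi g)) := by rw [h2, one_mul]
    _ = rec' (psi (g.map φ)) *
          (derivative B (psi (g.map φ)) * PowerSeries.map φ (rec' (psi g))) := by ring
    _ = _ := by rw [h1, mul_one]

theorem SS_map (φ : A →+* B) (g P : Polynomial A) (m : ℕ) :
    φ (SS (psi g) P m) = SS (psi (g.map φ)) (P.map φ) m := by
  rw [SS, SS, ← coeff_map, map_mul, map_aeval, rec_map, psi_map]

theorem fam_map (φ : A →+* B) (k : ℕ) (g1 g2 : Polynomial A) (x : (TT2 k) ⊕ (TT2 k)) (m : ℕ) :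
    φ (fam k g1 g2 x m) = fam k (g1.map φ) (g2.map φ) x m := by
  rcases x with p | p
  · rw [fam, fam, map_mul, SS_map, ← coeff_map, map_pow, psi_map, Polynomial.map_pow,
      Polynomial.map_X]
  · rw [fam, fam, map_mul, SS_map, ← coeff_map, map_pow, psi_map, Polynomial.map_pow,
      Polynomial.map_X]

end map

theorem SS_sum {A : Type*} [CommRing A] (ψ : A⟦X⟧) {ι : Type*} (s : Finset ι)
    (f : ι → Polynomial A) (m : ℕ) : SS ψ (∑ i ∈ s, f i) m = ∑ i ∈ s, SS ψ (f i) m := by
  classical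
  induction s using Finset.induction_on with
  | empty => simp [SS_zero]
  | insert a s ha ih => rw [Finset.sum_insert ha, Finset.sum_insert ha, SS_add, ih]

/-! ### the family in `b` -/

/-- `b - z^k`, over `ℂ[b]` -/
def gh (k : ℕ) : Polynomial (Polynomial ℂ) := Polynomial.C Polynomial.X - Polynomial.X ^ k

theorem gh_map (k : ℕ) (b : ℂ) : (gh k).map (Polynomial.evalRingHom b) =
    Polynomial.C b - Polynomial.X ^ k := by
  simp [gh]

/-- `(m - N) B_1 = b k B_2` -/
theorem SS_gh {A : Type*} [CommRing A] [Algebra ℚ A] (k : ℕ) (b : A) (m : ℕ) (hm : 1 ≤ m) :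
    ((m : A) - (k + 1)) * SS (psi (Polynomial.C b - Polynomial.X ^ k)) Polynomial.X m =
      b * k * SS (psi (Polynomial.C b - Polynomial.X ^ k)) (Polynomial.X ^ 2) m := by
  set g : Polynomial A := Polynomial.C b - Polynomial.X ^ k with hg
  have hψ := isPsi_psi g
  have h1 := SS_LL hψ Polynomial.X m
  have hF : FF g = Polynomial.X + Polynomial.C b * Polynomial.X ^ 2 - Polynomial.X ^ (k + 2) := by
    rw [FF, hg]; ring
  have e : LL g Polynomial.X =
      Polynomial.C ((k : A) + 1) * Polynomial.X + Polynomial.C (b * k) * Polynomial.X ^ 2 -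
        Polynomial.C ((k : A) + 1) * (FF g * 1) := by
    rw [LL, hF]
    simp only [map_sub, map_add, Polynomial.derivative_X, Polynomial.derivative_X_pow,
      Polynomial.derivative_C_mul, map_mul, map_natCast, map_one]
    push_cast
    ring
  rw [e, SS_sub, SS_add, SS_smul, SS_smul, SS_smul, SS_FF hψ, map_one, coeff_one,
    if_neg (by omega)] at h1
  linear_combination -h1

/-- `c_j` -/
def cj (k j : ℕ) : ℂ := coeff (k + 1) (pC k ^ j) / coeff (k + 1) (pC k)

theorem pC_N_ne (k : ℕ) : coeff (k + 1) (pC k) ≠ 0 := by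
  rw [coeff_pC]
  have := pR_ge_one k (k + 1) (by omega)
  exact_mod_cast (by linarith : coeff (k + 1) (pR k) ≠ 0)

/-- the modified family -/
def Zf (k : ℕ) : (TT2 k) ⊕ (TT2 k) → ℕ → Polynomial ℂ
  | .inl p, m => fam k (gf (Polynomial ℂ) k) (gh k) (.inl p) m
  | .inr p, m => if p.1.1 = 1 ∧ 2 ≤ p.1.2 then
      (if m = k then 0 else
        Polynomial.C ((k : ℂ) / ((m : ℂ) + 1 - (k + 1)) *
          (coeff (m + 1) (pC k ^ p.1.2) - cj k p.1.2 * coeff (m + 1) (pC k))) *
          SS (psi (gh k)) (Polynomial.X ^ 2) (m + 1))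
      else fam k (gf (Polynomial ℂ) k) (gh k) (.inr p) m

theorem Zf_inl (k : ℕ) (p : TT2 k) (m : ℕ) :
    Zf k (.inl p) m = fam k (gf (Polynomial ℂ) k) (gh k) (.inl p) m := rfl

theorem Zf_inr (k : ℕ) (p : TT2 k) (m : ℕ) :
    Zf k (.inr p) m = if p.1.1 = 1 ∧ 2 ≤ p.1.2 then
      (if m = k then 0 else
        Polynomial.C ((k : ℂ) / ((m : ℂ) + 1 - (k + 1)) *
          (coeff (m + 1) (pC k ^ p.1.2) - cj k p.1.2 * coeff (m + 1) (pC k))) *
          SS (psi (gh k)) (Polynomial.X ^ 2) (m + 1))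
      else fam k (gf (Polynomial ℂ) k) (gh k) (.inr p) m := rfl

theorem fam_eval (k : ℕ) (b : ℂ) (x : (TT2 k) ⊕ (TT2 k)) (m : ℕ) :
    (fam k (gf (Polynomial ℂ) k) (gh k) x m).eval b =
      fam k (gf ℂ k) (Polynomial.C b - Polynomial.X ^ k) x m := by
  have := fam_map (Polynomial.evalRingHom b) k (gf (Polynomial ℂ) k) (gh k) x m
  rw [map_gf, gh_map] at this
  exact this

/-- `Z` at `b = 0` is independent -/
theorem Z_indep {k : ℕ} (hk : 3 ≤ k) :
    LinearIndependent ℂ (fun x m => (Zf k x m).eval 0) := by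
  rw [Fintype.linearIndependent_iff]
  intro c hc
  set α : ℕ → ℕ → ℂ := fun i j => if h : (i, j) ∈ TT2 k then c (.inl ⟨(i, j), h⟩) else 0 with hα
  set β : ℕ → ℕ → ℂ := fun i j => if h : (i, j) ∈ TT2 k then c (.inr ⟨(i, j), h⟩) else 0 with hβ
  have hα0 : ∀ i j, (i, j) ∉ TT2 k → α i j = 0 := fun i j h => by rw [hα]; simp [h]
  have hβ0 : ∀ i j, (i, j) ∉ TT2 k → β i j = 0 := fun i j h => by rw [hβ]; simp [h]
  set a : ℕ → Polynomial ℂ := fun j =>
    ∑ i ∈ Finset.range (k + 3), Polynomial.C (α i j) * Polynomial.X ^ i with ha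
  set b : ℕ → Polynomial ℂ := fun i =>
    ∑ j ∈ Finset.Icc 1 (k + 1), Polynomial.C (β i j) * Polynomial.X ^ j with hb
  set G : Polynomial ℂ := ∑ j ∈ Finset.Icc 2 (k + 1), Polynomial.C (β 1 j) * Polynomial.X ^ j
    with hG
  set κ : ℂ := ∑ j ∈ Finset.Icc 2 (k + 1), β 1 j * cj k j with hκ
  -- the sums
  have hsum : ∀ (F : ℕ × ℕ → ℂ) (γ : (TT2 k) → ℂ),
      ∑ p : TT2 k, γ p * F p.1 = ∑ j ∈ Finset.Icc 1 (k + 1), ∑ i ∈ Finset.range (k + 3),
        (if h : (i, j) ∈ TT2 k then γ ⟨(i, j), h⟩ else 0) * F (i, j) := by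
    intro F γ
    have e1 : ∑ p : TT2 k, γ p * F p.1 =
        ∑ p ∈ TT2 k, (if h : p ∈ TT2 k then γ ⟨p, h⟩ else 0) * F p := by
      rw [← Finset.sum_coe_sort (TT2 k) (fun p => (if h : p ∈ TT2 k then γ ⟨p, h⟩ else 0) * F p)]
      refine Finset.sum_congr rfl fun p _ => ?_
      rw [dif_pos p.2]
    rw [e1, Finset.sum_comm, ← Finset.sum_product']
    refine (Finset.sum_subset (Finset.filter_subset _ _) ?_)
    intro p hp hnp
    have : p ∉ TT2 k := hnp
    rw [dif_neg this, zero_mul]
  have hcoef : ∀ (s : Finset ℕ) (γ : ℕ → ℂ) (m : ℕ),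
      coeff m (Polynomial.aeval (pC k) (∑ j ∈ s, Polynomial.C (γ j) * Polynomial.X ^ j)) =
        ∑ j ∈ s, γ j * coeff m (pC k ^ j) := by
    intro s γ m
    rw [map_sum, map_sum]
    refine Finset.sum_congr rfl fun j _ => ?_
    rw [map_mul, Polynomial.aeval_C, map_pow, Polynomial.aeval_X, PowerSeries.algebraMap_apply,
      Algebra.algebraMap_self, RingHom.id_apply, coeff_C_mul]
  have hIcc : Finset.Icc 1 (k + 1) = insert 1 (Finset.Icc 2 (k + 1)) := by
    ext j
    simp only [Finset.mem_Icc, Finset.mem_insert]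
    omega
  have hrange : Finset.range (k + 3) =
      insert 0 (insert 1 (insert (k + 2) (Finset.Icc 2 (k + 1)))) := by
    ext j
    simp only [Finset.mem_Icc, Finset.mem_insert, Finset.mem_range]
    omega
  have hq : psi (Polynomial.C 0 - Polynomial.X ^ k : Polynomial ℂ) = qC k := by
    rw [qC, Polynomial.C_0, zero_sub]
  have hrel : ∀ m, 1 ≤ m → RelK k a b G κ (β 1 1) m = 0 := by
    intro m hm
    obtain ⟨m, rfl⟩ : ∃ m', m = m' + 1 := ⟨m - 1, by omega⟩
    have h1 := congrFun hc m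
    simp only [Finset.sum_apply, Pi.smul_apply, smul_eq_mul, Fintype.sum_sum_type,
      Pi.zero_apply] at h1
    set F1 : ℕ × ℕ → ℂ := fun p => coeff (m + 1) (qC k ^ p.2) *
      SS (pC k) (Polynomial.X ^ p.1) (m + 1) with hF1
    set F2 : ℕ × ℕ → ℂ := fun p => if p.1 = 1 ∧ 2 ≤ p.2 then
      (if m = k then 0 else ((k : ℂ) / ((m : ℂ) + 1 - (k + 1)) *
          (coeff (m + 1) (pC k ^ p.2) - cj k p.2 * coeff (m + 1) (pC k))) *
          SS (qC k) (Polynomial.X ^ 2) (m + 1)) else
      coeff (m + 1) (pC k ^ p.2) * SS (qC k) (Polynomial.X ^ p.1) (m + 1) with hF2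
    have e1 : ∀ p : TT2 k, (Zf k (.inl p) m).eval 0 = F1 p.1 := by
      intro p
      rw [Zf, fam_eval, fam, hq]
      rfl
    have e2 : ∀ p : TT2 k, (Zf k (.inr p) m).eval 0 = F2 p.1 := by
      intro p
      rw [Zf, hF2]
      simp only
      split_ifs with h2 h3
      · simp
      · rw [Polynomial.eval_mul, Polynomial.eval_C]
        congr 1
        have := SS_map (Polynomial.evalRingHom (0 : ℂ)) (gh k) (Polynomial.X ^ 2) (m + 1)
        rw [gh_map, hq, Polynomial.map_pow, Polynomial.map_X] at this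
        exact this
      · rw [fam_eval, fam, hq]
        rfl
    simp only [e1, e2] at h1
    rw [hsum F1 (fun p => c (.inl p)), hsum F2 (fun p => c (.inr p))] at h1
    change ∑ j ∈ Finset.Icc 1 (k + 1), ∑ i ∈ Finset.range (k + 3), α i j * F1 (i, j) +
      ∑ j ∈ Finset.Icc 1 (k + 1), ∑ i ∈ Finset.range (k + 3), β i j * F2 (i, j) = 0 at h1
    have e3 : ∑ j ∈ Finset.Icc 1 (k + 1), ∑ i ∈ Finset.range (k + 3), α i j * F1 (i, j) =
        ∑ j ∈ Finset.Icc 1 (k + 1), coeff (m + 1) (qC k ^ j) * SS (pC k) (a j) (m + 1) := by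
      refine Finset.sum_congr rfl fun j _ => ?_
      rw [ha]
      simp only
      rw [SS_sum, Finset.mul_sum]
      refine Finset.sum_congr rfl fun i _ => ?_
      rw [SS_smul, hF1]
      ring
    have e4 : ∑ j ∈ Finset.Icc 1 (k + 1), ∑ i ∈ Finset.range (k + 3), β i j * F2 (i, j) =
        SS (qC k) 1 (m + 1) * coeff (m + 1) (Polynomial.aeval (pC k) (b 0)) +
        ((β 1 1 * (SS (qC k) Polynomial.X (m + 1) * coeff (m + 1) (pC k)) +
          ∑ j ∈ Finset.Icc 2 (k + 1), β 1 j * F2 (1, j)) +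
        ∑ i ∈ Finset.Icc 2 (k + 1), SS (qC k) (Polynomial.X ^ i) (m + 1) *
          coeff (m + 1) (Polynomial.aeval (pC k) (b i))) := by
      rw [Finset.sum_comm, hrange, Finset.sum_insert (by simp), Finset.sum_insert (by simp),
        Finset.sum_insert (by simp)]
      have t0 : ∑ j ∈ Finset.Icc 1 (k + 1), β 0 j * F2 (0, j) =
          SS (qC k) 1 (m + 1) * coeff (m + 1) (Polynomial.aeval (pC k) (b 0)) := by
        rw [hb]
        simp only
        rw [hcoef, Finset.mul_sum]
        refine Finset.sum_congr rfl fun j _ => ?_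
        rw [hF2]
        simp only
        rw [if_neg (by omega), pow_zero]
        ring
      have t1 : ∑ j ∈ Finset.Icc 1 (k + 1), β 1 j * F2 (1, j) =
          β 1 1 * (SS (qC k) Polynomial.X (m + 1) * coeff (m + 1) (pC k)) +
          ∑ j ∈ Finset.Icc 2 (k + 1), β 1 j * F2 (1, j) := by
        rw [hIcc, Finset.sum_insert (by simp)]
        congr 1
        rw [hF2]
        simp only
        rw [if_neg (by omega), pow_one, pow_one]
        ring
      have t2 : ∑ j ∈ Finset.Icc 1 (k + 1), β (k + 2) j * F2 (k + 2, j) = 0 := by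
        refine Finset.sum_eq_zero fun j hj => ?_
        rw [Finset.mem_Icc] at hj
        rw [hβ0 _ _ (by rw [mem_TT2]; simp only; omega), zero_mul]
      have t3 : ∀ i ∈ Finset.Icc 2 (k + 1), ∑ j ∈ Finset.Icc 1 (k + 1), β i j * F2 (i, j) =
          SS (qC k) (Polynomial.X ^ i) (m + 1) *
            coeff (m + 1) (Polynomial.aeval (pC k) (b i)) := by
        intro i hi
        rw [Finset.mem_Icc] at hi
        rw [hb]
        simp only
        rw [hcoef, Finset.mul_sum]
        refine Finset.sum_congr rfl fun j _ => ?_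
        rw [hF2]
        simp only
        rw [if_neg (by omega)]
        ring
      rw [t0, t1, t2, Finset.sum_congr rfl t3]
      ring
    have e5 : ∑ j ∈ Finset.Icc 2 (k + 1), β 1 j * F2 (1, j) =
        (if m + 1 = k + 1 then 0 else (k : ℂ) * SS (qC k) (Polynomial.X ^ 2) (m + 1) /
          (((m + 1 : ℕ) : ℂ) - (k + 1)) *
          coeff (m + 1) (Polynomial.aeval (pC k) (G - Polynomial.C κ * Polynomial.X))) := by
      have hF : ∀ j ∈ Finset.Icc 2 (k + 1), F2 (1, j) = (if m = k then 0 else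
          ((k : ℂ) / ((m : ℂ) + 1 - (k + 1)) *
          (coeff (m + 1) (pC k ^ j) - cj k j * coeff (m + 1) (pC k))) *
          SS (qC k) (Polynomial.X ^ 2) (m + 1)) := by
        intro j hj
        rw [Finset.mem_Icc] at hj
        rw [hF2]
        simp only
        rw [if_pos ⟨trivial, hj.1⟩]
      by_cases hmk : m = k
      · rw [if_pos (by omega)]
        refine Finset.sum_eq_zero fun j hj => ?_
        rw [hF j hj, if_pos hmk, mul_zero]
      · rw [if_neg (by omega)]
        have e6 : coeff (m + 1) (Polynomial.aeval (pC k) (G - Polynomial.C κ * Polynomial.X)) =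
            ∑ j ∈ Finset.Icc 2 (k + 1), β 1 j *
              (coeff (m + 1) (pC k ^ j) - cj k j * coeff (m + 1) (pC k)) := by
          rw [map_sub, map_sub, hG, hcoef, map_mul, Polynomial.aeval_C, Polynomial.aeval_X,
            PowerSeries.algebraMap_apply, Algebra.algebraMap_self, RingHom.id_apply, coeff_C_mul,
            hκ, Finset.sum_mul, ← Finset.sum_sub_distrib]
          refine Finset.sum_congr rfl fun j _ => ?_
          ring
        rw [e6, Finset.mul_sum]
        refine Finset.sum_congr rfl fun j hj => ?_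
        rw [hF j hj, if_neg hmk]
        push_cast
        ring
    rw [e3, e4, e5] at h1
    rw [RelK]
    linear_combination h1
  have ha_coeff : ∀ i j, i < k + 3 → (a j).coeff i = α i j := by
    intro i j hi
    rw [ha]
    simp only [Polynomial.finsetSum_coeff, Polynomial.coeff_C_mul, Polynomial.coeff_X_pow]
    rw [Finset.sum_eq_single i]
    · rw [if_pos rfl, mul_one]
    · intro i' _ hne
      rw [if_neg (fun h => hne h.symm), mul_zero]
    · intro hn
      exact absurd (Finset.mem_range.2 hi) hn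
  have hb_coeff : ∀ i j, 1 ≤ j → j ≤ k + 1 → (b i).coeff j = β i j := by
    intro i j hj1 hj2
    rw [hb]
    simp only [Polynomial.finsetSum_coeff, Polynomial.coeff_C_mul, Polynomial.coeff_X_pow]
    rw [Finset.sum_eq_single j]
    · rw [if_pos rfl, mul_one]
    · intro i' _ hne
      rw [if_neg (fun h => hne h.symm), mul_zero]
    · intro hn
      exact absurd (Finset.mem_Icc.2 ⟨hj1, hj2⟩) hn
  have hG_coeff : ∀ j, G.coeff j = if 2 ≤ j ∧ j ≤ k + 1 then β 1 j else 0 := by
    intro j
    rw [hG]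
    simp only [Polynomial.finsetSum_coeff, Polynomial.coeff_C_mul, Polynomial.coeff_X_pow]
    split_ifs with hj
    · rw [Finset.sum_eq_single j]
      · rw [if_pos rfl, mul_one]
      · intro i' _ hne
        rw [if_neg (fun h => hne h.symm), mul_zero]
      · intro hn
        exact absurd (Finset.mem_Icc.2 hj) hn
    · refine Finset.sum_eq_zero fun i' hi' => ?_
      rw [Finset.mem_Icc] at hi'
      rw [if_neg (by omega), mul_zero]
  have hcore := core hk (a := a) (b := b) (G := G) (κ := κ) (c11 := β 1 1) ?_ ?_ ?_ ?_ ?_ ?_ hrel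
  · obtain ⟨hA, hB, hB0, hG0, hc11⟩ := hcore
    rintro (⟨⟨i, j⟩, hp⟩ | ⟨⟨i, j⟩, hp⟩)
    · have hp' := mem_TT2.1 hp
      simp only at hp'
      have h1 := ha_coeff i j (by omega)
      rw [hA j hp'.1 hp'.2.1, Polynomial.coeff_zero] at h1
      have h2 : α i j = c (.inl ⟨(i, j), hp⟩) := by rw [hα]; simp [hp]
      rw [← h2, ← h1]
    · have hp' := mem_TT2.1 hp
      simp only at hp'
      have h2 : β i j = c (.inr ⟨(i, j), hp⟩) := by rw [hβ]; simp [hp]
      rw [← h2]
      rcases Nat.eq_zero_or_pos i with rfl | hi0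
      · have h1 := hb_coeff 0 j hp'.1 hp'.2.1
        rw [hB0, Polynomial.coeff_zero] at h1
        exact h1.symm
      rcases eq_or_ne i 1 with rfl | hi1
      · rcases eq_or_ne j 1 with rfl | hj1
        · exact hc11
        · have h1 := hG_coeff j
          rw [if_pos (by omega), hG0, Polynomial.coeff_zero] at h1
          exact h1.symm
      · have h1 := hb_coeff i j hp'.1 hp'.2.1
        rw [hB i (by omega) (by omega), Polynomial.coeff_zero] at h1
        exact h1.symm
  · intro j hj1 hj2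
    rw [Polynomial.natDegree_le_iff_coeff_eq_zero]
    intro i hi
    by_cases h3 : i < k + 3
    · rw [ha_coeff i j h3]
      exact hα0 i j (by rw [mem_TT2]; simp only; omega)
    · rw [ha]
      simp only [Polynomial.finsetSum_coeff, Polynomial.coeff_C_mul, Polynomial.coeff_X_pow]
      refine Finset.sum_eq_zero fun i' hi' => ?_
      rw [Finset.mem_range] at hi'
      rw [if_neg (by omega), mul_zero]
  · intro i
    rw [hb]
    simp only [Polynomial.finsetSum_coeff, Polynomial.coeff_C_mul, Polynomial.coeff_X_pow]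
    refine Finset.sum_eq_zero fun i' hi' => ?_
    rw [Finset.mem_Icc] at hi'
    rw [if_neg (by omega), mul_zero]
  · intro i
    rw [Polynomial.natDegree_le_iff_coeff_eq_zero]
    intro j hj
    rw [hb]
    simp only [Polynomial.finsetSum_coeff, Polynomial.coeff_C_mul, Polynomial.coeff_X_pow]
    refine Finset.sum_eq_zero fun i' hi' => ?_
    rw [Finset.mem_Icc] at hi'
    rw [if_neg (by omega), mul_zero]
  · rw [hG_coeff, if_neg (by omega)]
  · rw [hG_coeff, if_neg (by omega)]
  · rw [Polynomial.natDegree_le_iff_coeff_eq_zero]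
    intro j hj
    rw [hG_coeff, if_neg (by omega)]

/-- independence for some `b` -/
theorem fam_indep_b {k : ℕ} (hk : 3 ≤ k) : ∃ b : ℂ,
    LinearIndependent ℂ (fam k (gf ℂ k) (Polynomial.C b - Polynomial.X ^ k)) := by
  obtain ⟨D, hD0, hD⟩ := exists_disc (Z_indep hk)
  have hDne : D ≠ 0 := fun h => hD0 (by rw [h, Polynomial.eval_zero])
  obtain ⟨b, hb⟩ : ∃ b : ℂ, (D * Polynomial.X).eval b ≠ 0 := by
    by_contra hc
    push Not at hc
    exact (mul_ne_zero hDne Polynomial.X_ne_zero)
      (Polynomial.funext fun r => by rw [hc r, Polynomial.eval_zero])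
  rw [Polynomial.eval_mul, Polynomial.eval_X] at hb
  have hb0 : b ≠ 0 := right_ne_zero_of_mul hb
  have hind := hD b (left_ne_zero_of_mul hb)
  refine ⟨b, ?_⟩
  -- units
  set w : (TT2 k) ⊕ (TT2 k) → ℂˣ := fun x => match x with
    | .inl _ => 1
    | .inr p => if p.1.1 = 1 ∧ 2 ≤ p.1.2 then Units.mk0 b hb0 else 1 with hw
  have h11 : (1, 1) ∈ TT2 k := by rw [mem_TT2]; simp only; omega
  set i0 : (TT2 k) ⊕ (TT2 k) := .inr ⟨(1, 1), h11⟩ with hi0
  set cc : (TT2 k) ⊕ (TT2 k) → ℂ := fun x => match x with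
    | .inl _ => 0
    | .inr p => if p.1.1 = 1 ∧ 2 ≤ p.1.2 then cj k p.1.2 else 0 with hcc
  have h1 := hind.units_smul w
  have hc0 : cc i0 = 0 := by rw [hcc, hi0]; simp
  have h2 := (linearIndependent_add_smul_iff (v := w • fun x m => (Zf k x m).eval b) hc0).2 h1
  have h3 : fam k (gf ℂ k) (Polynomial.C b - Polynomial.X ^ k) =
      (w • fun x m => (Zf k x m).eval b) + fun x => cc x • (w • fun x m => (Zf k x m).eval b) i0 := by
    funext x m
    have hww : ∀ x, (w • fun x m => (Zf k x m).eval b) x = fun m => (w x : ℂ) * (Zf k x m).eval b := by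
      intro x
      rfl
    have hi0v : (w • fun x m => (Zf k x m).eval b) i0 = fun m =>
        fam k (gf ℂ k) (Polynomial.C b - Polynomial.X ^ k) i0 m := by
      rw [hww]
      funext m
      have : w i0 = 1 := by rw [hw, hi0]; simp
      rw [this, Units.val_one, one_mul, hi0, Zf_inr, if_neg (by simp), fam_eval]
    simp only [Pi.add_apply, hi0v]
    rw [hww]
    change fam k (gf ℂ k) (Polynomial.C b - Polynomial.X ^ k) x m = (w x : ℂ) *
      (Zf k x m).eval b + cc x * fam k (gf ℂ k) (Polynomial.C b - Polynomial.X ^ k) i0 m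
    rcases x with p | p
    · rw [Zf_inl, fam_eval, hw, hcc]
      simp
    · by_cases hp : p.1.1 = 1 ∧ 2 ≤ p.1.2
      · have hw1 : (w (.inr p) : ℂ) = b := by rw [hw]; simp [hp]
        have hc1 : cc (.inr p) = cj k p.1.2 := by rw [hcc]; simp [hp]
        rw [hw1, hc1, Zf_inr, if_pos hp, hi0, fam, fam, hp.1]
        simp only [pow_one]
        change coeff (m + 1) (pC k ^ p.1.2) * _ = _ + _ * (coeff (m + 1) (pC k) * _)
        have hgh := SS_gh k b (m + 1) (by omega)
        by_cases hmk : m = k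
        · rw [if_pos hmk, Polynomial.eval_zero, mul_zero, zero_add, cj, hmk, ← mul_assoc,
            div_mul_cancel₀ _ (pC_N_ne k)]
        · rw [if_neg hmk, Polynomial.eval_mul, Polynomial.eval_C]
          have hD1 : ((m : ℂ) + 1 - (k + 1)) ≠ 0 := by
            rw [sub_ne_zero]
            exact_mod_cast (by omega : m + 1 ≠ k + 1)
          have hS := SS_map (Polynomial.evalRingHom b) (gh k) (Polynomial.X ^ 2) (m + 1)
          rw [gh_map, Polynomial.map_pow, Polynomial.map_X, Polynomial.coe_evalRingHom] at hS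
          rw [hS]
          push_cast at hgh
          have hB1 : SS (psi (Polynomial.C b - Polynomial.X ^ k)) Polynomial.X (m + 1) =
              b * k * SS (psi (Polynomial.C b - Polynomial.X ^ k)) (Polynomial.X ^ 2) (m + 1) /
                ((m : ℂ) + 1 - (k + 1)) := by
            rw [eq_div_iff hD1, ← hgh]
            ring
          rw [hB1]
          field_simp
          ring
      · have hw1 : (w (.inr p) : ℂ) = 1 := by rw [hw]; simp [hp]
        have hc1 : cc (.inr p) = 0 := by rw [hcc]; simp [hp]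
        rw [hw1, hc1, Zf_inr, if_neg hp, fam_eval]
        ring
  rw [h3]
  exact h2

end

end Pool.Agent.helper59.LC
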