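import Pool.Agent.helper59.LC.Generic

/-!
# A conjugate pair with independent sequences
-/

open PowerSeries

namespace Pool.Agent.helper59.LC

noncomputable section

theorem exists_pair {k : ℕ} (hk : 3 ≤ k) : ∃ p q : ℂ, q ≠ 0 ∧
    LinearIndependent ℂ (fam k (Polynomial.C p + Polynomial.C q * Polynomial.X ^ k)
      ((Polynomial.C p + Polynomial.C q * Polynomial.X ^ k).map (starRingEnd ℂ))) := by
  obtain ⟨b, hb⟩ := fam_indep_b hk
  set p0 : ℂ := (1 + starRingEnd ℂ b) / 2 with hp0
  set p1 : ℂ := -Complex.I * (1 - starRingEnd ℂ b) / 2 with hp1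
  set g1 : Polynomial (Polynomial ℂ) :=
    Polynomial.C (Polynomial.C p0 + Polynomial.C p1 * Polynomial.X) +
      Polynomial.C (Polynomial.C (-Complex.I) * Polynomial.X) * Polynomial.X ^ k with hg1
  set g2 : Polynomial (Polynomial ℂ) :=
    Polynomial.C (Polynomial.C (starRingEnd ℂ p0) + Polynomial.C (starRingEnd ℂ p1) *
      Polynomial.X) + Polynomial.C (Polynomial.C Complex.I * Polynomial.X) * Polynomial.X ^ k
      with hg2
  have hm1 : ∀ s : ℂ, g1.map (Polynomial.evalRingHom s) =
      Polynomial.C (p0 + p1 * s) + Polynomial.C (-Complex.I * s) * Polynomial.X ^ k := by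
    intro s
    rw [hg1]
    simp
  have hm2 : ∀ s : ℂ, g2.map (Polynomial.evalRingHom s) =
      Polynomial.C (starRingEnd ℂ p0 + starRingEnd ℂ p1 * s) +
        Polynomial.C (Complex.I * s) * Polynomial.X ^ k := by
    intro s
    rw [hg2]
    simp
  have hI := Complex.I_mul_I
  have e1 : g1.map (Polynomial.evalRingHom Complex.I) = gf ℂ k := by
    rw [hm1, gf]
    have h1 : p0 + p1 * Complex.I = 1 := by
      rw [hp0, hp1]
      linear_combination (-(1 - starRingEnd ℂ b) / 2) * hI
    have h2 : -Complex.I * Complex.I = 1 := by linear_combination -hI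
    rw [h1, h2, Polynomial.C_1, one_mul]
  have e2 : g2.map (Polynomial.evalRingHom Complex.I) =
      Polynomial.C b - Polynomial.X ^ k := by
    rw [hm2]
    have h1 : starRingEnd ℂ p0 + starRingEnd ℂ p1 * Complex.I = b := by
      rw [hp0, hp1]
      simp only [map_div₀, map_add, map_mul, map_neg, map_sub, map_one, Complex.conj_conj,
        Complex.conj_I, map_ofNat]
      linear_combination ((1 - b) / 2) * hI
    rw [h1, hI, map_neg, Polynomial.C_1]
    ring
  have hv : ∀ (s : ℂ) x m, (fam k g1 g2 x m).eval s =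
      fam k (g1.map (Polynomial.evalRingHom s)) (g2.map (Polynomial.evalRingHom s)) x m :=
    fun s x m => fam_map (Polynomial.evalRingHom s) k g1 g2 x m
  have hind : LinearIndependent ℂ (fun x m => (fam k g1 g2 x m).eval Complex.I) := by
    have : (fun x m => (fam k g1 g2 x m).eval Complex.I) =
        fam k (gf ℂ k) (Polynomial.C b - Polynomial.X ^ k) := by
      funext x m
      rw [hv, e1, e2]
    rw [this]
    exact hb
  obtain ⟨D, hD0, hD⟩ := exists_disc hind
  have hDne : D ≠ 0 := fun h => hD0 (by rw [h, Polynomial.eval_zero])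
  obtain ⟨s, hs⟩ : ∃ s : ℝ, (D * Polynomial.X).eval (s : ℂ) ≠ 0 := by
    by_contra hc
    push Not at hc
    have hne : D * Polynomial.X ≠ 0 := mul_ne_zero hDne Polynomial.X_ne_zero
    refine hne (Polynomial.eq_zero_of_infinite_isRoot _ ?_)
    refine Set.Infinite.mono (s := Set.range (fun s : ℝ => (s : ℂ))) ?_
      (Set.infinite_range_of_injective Complex.ofReal_injective)
    rintro _ ⟨s, rfl⟩
    exact hc s
  rw [Polynomial.eval_mul, Polynomial.eval_X] at hs
  have hs0 : (s : ℂ) ≠ 0 := right_ne_zero_of_mul hs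
  have h3 := hD s (left_ne_zero_of_mul hs)
  refine ⟨p0 + p1 * s, -Complex.I * s, mul_ne_zero (neg_ne_zero.2 Complex.I_ne_zero) hs0, ?_⟩
  have h4 : (fun x m => (fam k g1 g2 x m).eval (s : ℂ)) =
      fam k (Polynomial.C (p0 + p1 * s) + Polynomial.C (-Complex.I * s) * Polynomial.X ^ k)
      ((Polynomial.C (p0 + p1 * s) + Polynomial.C (-Complex.I * s) * Polynomial.X ^ k).map
        (starRingEnd ℂ)) := by
    funext x m
    rw [hv, hm1, hm2]
    congr 1
    simp
  rw [← h4]
  exact h3

end

end Pool.Agent.helper59.LC
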