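import Pool.Agent.helper59.LC.Minor

/-!
# Simple zeros in an independent family
-/

open Set Filter Topology MeasureTheory

namespace Pool.Agent.helper59.LC

noncomputable section

theorem sard {F : ℝ → ℝ} {a b : ℝ} (hF : ∀ s ∈ Ioo a b, DifferentiableAt ℝ F s) {u v : ℝ}
    (huv : u < v) : ∃ c ∈ Ioo u v, ∀ s ∈ Ioo a b, F s = c → deriv F s ≠ 0 := by
  set Z : Set ℝ := {s | s ∈ Ioo a b ∧ deriv F s = 0} with hZ
  have h0 : volume (F '' Z) = 0 := by
    refine addHaar_image_eq_zero_of_det_fderivWithin_eq_zero volume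
      (f' := fun _ => ContinuousLinearMap.toSpanSingleton ℝ (0 : ℝ)) (fun x hx => ?_)
      (fun x _ => ?_)
    · have h1 := (hF x hx.1).hasDerivAt
      rw [hx.2] at h1
      exact h1.hasFDerivAt.hasFDerivWithinAt (s := Z)
    · have : (ContinuousLinearMap.toSpanSingleton ℝ (0 : ℝ)) = 0 := by
        ext
        simp
      rw [this, ContinuousLinearMap.det]
      simp
  by_contra hc
  push Not at hc
  have hsub : Ioo u v ⊆ F '' Z := by
    intro c hcuv
    obtain ⟨s, hs, hFs, hd⟩ := hc c hcuv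
    exact ⟨s, ⟨hs, hd⟩, hFs⟩
  have h1 := measure_mono_null hsub h0
  rw [Real.volume_Ioo, ENNReal.ofReal_eq_zero] at h1
  linarith

theorem exists_zeros {ι : Type*} [Fintype ι] [DecidableEq ι] {ρ : ℝ} (φ : ι → ℝ → ℝ) (i₀ : ι)
    (h1 : ∀ s, φ i₀ s = 1)
    (hd : ∀ i, ∀ s ∈ Ioo 0 ρ, DifferentiableAt ℝ (φ i) s)
    (hind : LinearIndependent ℝ (fun i => fun s : Ioo (0 : ℝ) ρ => φ i s)) {m : ℕ}
    (hm : Fintype.card ι = m + 1) :
    ∃ v : ι → ℝ, ∃ z : Fin m → ℝ, StrictMono z ∧ ∀ j, z j ∈ Ioo 0 ρ ∧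
      ∑ i, v i * φ i (z j) = 0 ∧ deriv (fun s => ∑ i, v i * φ i s) (z j) ≠ 0 := by
  obtain ⟨p, hp⟩ := exists_det hind
  set M : Matrix ι ι ℝ := Matrix.of fun i j => φ i (p j) with hM
  have hM' : (Matrix.of fun i j => (fun s : Ioo (0 : ℝ) ρ => φ i s) (p j)) = M := rfl
  have hpinj : Function.Injective fun j => (p j : ℝ) := by
    intro x y hxy
    by_contra hne
    apply hp
    refine Matrix.det_zero_of_column_eq hne fun i => ?_
    change φ i (p x) = φ i (p y)
    simp only at hxy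
    rw [hxy]
  set P : Finset ℝ := Finset.univ.image fun j => (p j : ℝ) with hP
  have hPc : P.card = m + 1 := by
    rw [hP, Finset.card_image_of_injective _ hpinj, Finset.card_univ, hm]
  set e := P.orderEmbOfFin hPc with he
  have hidx : ∀ x : ι, ∃ j : Fin (m + 1), e j = p x := by
    intro x
    have : (p x : ℝ) ∈ P := Finset.mem_image_of_mem _ (Finset.mem_univ x)
    rw [← Finset.mem_coe, ← Finset.range_orderEmbOfFin P hPc] at this
    exact this
  choose idx hidx using hidx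
  have hpt : ∀ j : Fin (m + 1), ∃ x : ι, (p x : ℝ) = e j := by
    intro j
    obtain ⟨x, -, hx⟩ := Finset.mem_image.1 (Finset.orderEmbOfFin_mem P hPc j)
    exact ⟨x, hx⟩
  set τ : ι → ℝ := fun x => (-1) ^ (idx x : ℕ) with hτ
  set v : ι → ℝ := Matrix.vecMul τ M⁻¹ with hv
  have hMu : IsUnit M.det := isUnit_iff_ne_zero.2 hp
  have hvM : Matrix.vecMul v M = τ := by
    rw [hv, Matrix.vecMul_vecMul, Matrix.nonsing_inv_mul _ hMu, Matrix.vecMul_one]
  set F : ℝ → ℝ := fun s => ∑ i, v i * φ i s with hF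
  have hFp : ∀ x, F (p x) = τ x := by
    intro x
    rw [← hvM, hF]
    simp [Matrix.vecMul, dotProduct, hM]
  have hFe : ∀ j : Fin (m + 1), F (e j) = (-1) ^ (j : ℕ) := by
    intro j
    obtain ⟨x, hx⟩ := hpt j
    rw [← hx, hFp, hτ]
    simp only
    have : idx x = j := e.injective (by rw [hidx x, hx])
    rw [this]
  have heI : ∀ j, e j ∈ Ioo 0 ρ := by
    intro j
    obtain ⟨x, hx⟩ := hpt j
    rw [← hx]
    exact (p x).2
  have hFd : ∀ s ∈ Ioo 0 ρ, DifferentiableAt ℝ F s := by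
    intro s hs
    have := DifferentiableAt.fun_sum (u := Finset.univ) (A := fun i s => v i * φ i s) (x := s)
      (fun i _ => (hd i s hs).const_mul (v i))
    exact this
  obtain ⟨c, hc, hcr⟩ := sard hFd (show (-1 : ℝ) < 1 by norm_num)
  have hzero : ∀ j : Fin m, ∃ z ∈ Ioo (e j.castSucc) (e j.succ), F z = c := by
    intro j
    have hlt : e j.castSucc < e j.succ := e.strictMono (Fin.castSucc_lt_succ)
    have hsub : Icc (e j.castSucc) (e j.succ) ⊆ Ioo 0 ρ := fun s hs =>
      ⟨(heI _).1.trans_le hs.1, hs.2.trans_lt (heI _).2⟩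
    have hcont : ContinuousOn F (Icc (e j.castSucc) (e j.succ)) := fun s hs =>
      (hFd s (hsub hs)).continuousAt.continuousWithinAt
    have e1 := hFe j.castSucc
    have e2 := hFe j.succ
    simp only [Fin.val_castSucc, Fin.val_succ] at e1 e2
    rcases Nat.even_or_odd (j : ℕ) with hj | hj
    · rw [hj.neg_one_pow] at e1
      rw [pow_succ, hj.neg_one_pow, one_mul] at e2
      have := intermediate_value_Ioo' hlt.le hcont (show c ∈ Ioo _ _ from by
        rw [e1, e2]; exact hc)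
      obtain ⟨z, hz, hz2⟩ := this
      exact ⟨z, hz, hz2⟩
    · rw [hj.neg_one_pow] at e1
      rw [pow_succ, hj.neg_one_pow, neg_mul_neg, one_mul] at e2
      have := intermediate_value_Ioo hlt.le hcont (show c ∈ Ioo _ _ from by
        rw [e1, e2]; exact hc)
      obtain ⟨z, hz, hz2⟩ := this
      exact ⟨z, hz, hz2⟩
  choose z hz hzc using hzero
  have hsumv : ∀ s, ∑ i, (v i - if i = i₀ then c else 0) * φ i s = F s - c := by
    intro s
    rw [hF]
    simp only [sub_mul, ite_mul, zero_mul, Finset.sum_sub_distrib, Finset.sum_ite_eq',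
      Finset.mem_univ, if_true, h1, mul_one]
  refine ⟨fun i => v i - if i = i₀ then c else 0, z, ?_, fun j => ⟨?_, ?_, ?_⟩⟩
  · intro i j hij
    have h2 : e i.succ ≤ e j.castSucc := e.monotone (by
      rw [Fin.le_def, Fin.val_succ, Fin.val_castSucc]
      exact hij)
    exact (hz i).2.trans_le (h2.trans (hz j).1.le)
  · exact ⟨(heI _).1.trans (hz j).1, (hz j).2.trans (heI _).2⟩
  · rw [hsumv, hzc, sub_self]
  · have : (fun s => ∑ i, (v i - if i = i₀ then c else 0) * φ i s) = fun s => F s - c :=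
      funext hsumv
    rw [this, deriv_sub_const]
    exact hcr _ ⟨(heI _).1.trans (hz j).1, (hz j).2.trans (heI _).2⟩ (hzc j)

end

end Pool.Agent.helper59.LC
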