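import Pool.Agent.helper59.LC.Mel
import Pool.Agent.helper59.LC.Zeros
import Pool.Agent.helper59.LC.Pair

/-!
# Independence of the real functions, choice of the perturbation
-/

open Set Filter Topology PowerSeries

namespace Pool.Agent.helper59.LC

noncomputable section

/-- a series vanishing on an interval -/
theorem eq_zero_of_ev {φ : ℂ⟦X⟧} {ρ : ℝ} (hρ : 0 < ρ) (h : Conv ρ φ)
    (h0 : ∀ s : ℝ, 0 < s → s < ρ → ev (s : ℂ) φ = 0) : φ = 0 := by
  by_contra hne
  have hex : ∃ m, coeff m φ ≠ 0 := by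
    by_contra hc
    push Not at hc
    exact hne (PowerSeries.ext fun m => by rw [hc m, map_zero])
  classical
  set d := Nat.find hex with hd
  have hd1 : coeff d φ ≠ 0 := Nat.find_spec hex
  have hd2 : ∀ i, i < d → coeff i φ = 0 := fun i hi => by
    by_contra hc
    exact Nat.find_min hex hi hc
  set χ : ℂ⟦X⟧ := PowerSeries.mk fun m => coeff (m + d) φ with hχ
  have hφχ : φ = X ^ d * χ := by
    ext m
    rcases lt_or_ge m d with hm | hm
    · rw [hd2 m hm, coeff_X_pow_mul', if_neg (by omega)]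
    · rw [coeff_X_pow_mul', if_pos hm, hχ, coeff_mk, Nat.sub_add_cancel hm]
  have hconv : Conv ρ χ := by
    have h1 : Summable fun m => ‖coeff (m + d) φ‖ * ρ ^ (m + d) := (summable_nat_add_iff d).2 h
    refine (h1.mul_right ((ρ ^ d)⁻¹)).congr fun m => ?_
    rw [hχ, coeff_mk, pow_add]
    field_simp
  have hev : ∀ s : ℝ, 0 < s → s < ρ → ev (s : ℂ) χ = 0 := by
    intro s hs1 hs2
    have hns : ‖(s : ℂ)‖ ≤ ρ := by
      rw [Complex.norm_real, Real.norm_of_nonneg hs1.le]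
      exact hs2.le
    have h1 := h0 s hs1 hs2
    rw [hφχ, ev_mul ((conv_X ρ).pow hρ.le d) hconv hns, ev_pow hρ.le (conv_X ρ) d hns, ev_X] at h1
    exact (mul_eq_zero.1 h1).resolve_left (pow_ne_zero _ (by exact_mod_cast hs1.ne'))
  have hcont : ContinuousAt (fun s : ℝ => ev (s : ℂ) χ) 0 := by
    have h1 : ContinuousAt (fun w : ℂ => ev w χ) ((0 : ℝ) : ℂ) := by
      rw [Complex.ofReal_zero]
      exact (hasDerivAt_ev hconv (by rw [norm_zero]; exact hρ)).continuousAt
    exact ContinuousAt.comp (f := fun s : ℝ => (s : ℂ)) h1 Complex.continuous_ofReal.continuousAt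
  have hlim : Tendsto (fun s : ℝ => ev (s : ℂ) χ) (𝓝[>] 0) (𝓝 (ev ((0 : ℝ) : ℂ) χ)) :=
    hcont.tendsto.mono_left nhdsWithin_le_nhds
  have hlim0 : Tendsto (fun s : ℝ => ev (s : ℂ) χ) (𝓝[>] 0) (𝓝 0) := by
    refine (tendsto_congr' ?_).2 tendsto_const_nhds
    filter_upwards [Ioo_mem_nhdsGT hρ] with s hs
    exact hev s hs.1 hs.2
  have h2 := tendsto_nhds_unique hlim hlim0
  rw [Complex.ofReal_zero, ev_zero_pt, hχ, coeff_mk, zero_add] at h2
  exact hd1 h2

theorem psi_conj (g : Polynomial ℂ) (j m : ℕ) :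
    coeff m (psi (g.map (starRingEnd ℂ)) ^ j) = starRingEnd ℂ (coeff m (psi g ^ j)) := by
  rw [← psi_map, ← map_pow, coeff_map]

theorem SS_conj (g : Polynomial ℂ) (i m : ℕ) :
    SS (psi (g.map (starRingEnd ℂ))) (Polynomial.X ^ i) m =
      starRingEnd ℂ (SS (psi g) (Polynomial.X ^ i) m) := by
  rw [SS_map, Polynomial.map_pow, Polynomial.map_X]

/-- the index set of the real functions -/
abbrev II (k : ℕ) : Type := Option ((TT2 k) ⊕ (TT2 k))

/-- the real functions -/
def rf (k : ℕ) (g : Polynomial ℂ) : II k → ℝ → ℝ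
  | none, _ => 1
  | some (.inl p), s => (ev (s : ℂ) (sg g p.1)).re
  | some (.inr p), s => (Complex.I * ev (s : ℂ) (sg g p.1)).re

/-- the complex coefficients attached to real ones -/
def gam (k : ℕ) (v : II k → ℝ) (p : ℕ × ℕ) : ℂ :=
  if h : p ∈ TT2 k then (v (some (.inl ⟨p, h⟩)) : ℂ) + v (some (.inr ⟨p, h⟩)) * Complex.I else 0

theorem sum_rf (k : ℕ) (g : Polynomial ℂ) (v : II k → ℝ) (s : ℝ) :
    ∑ i, v i * rf k g i s = nu k g (v none) (gam k v) s := by
  rw [Fintype.sum_option, Fintype.sum_sum_type, nu, ← Finset.sum_coe_sort (TT2 k), Complex.re_sum]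
  simp only [rf, mul_one]
  rw [← Finset.sum_add_distrib]
  congr 1
  refine Finset.sum_congr rfl fun p _ => ?_
  rw [gam, dif_pos p.2]
  simp only [Complex.mul_re, Complex.add_re, Complex.add_im, Complex.ofReal_re, Complex.ofReal_im,
    Complex.I_re, Complex.I_im, Complex.mul_im]
  ring

theorem conv_sg {g : Polynomial ℂ} {r : ℝ} (hr : 0 < r) (h1 : Conv r (psi g))
    (h2 : Conv r (rec' (psi g))) (p : ℕ × ℕ) : Conv (r ^ 2) (sg g p) := by
  rw [sg_eq]
  exact conv_mk hr ((h1.pow hr.le _).mul hr.le h2) (h1.pow hr.le _)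

theorem re_ev {φ : ℂ⟦X⟧} {ρ : ℝ} (h : Conv ρ φ) {s : ℝ} (hs0 : 0 ≤ s) (hs : s ≤ ρ) :
    ev (s : ℂ) (PowerSeries.mk fun m => (((coeff m φ).re : ℝ) : ℂ)) =
      (((ev (s : ℂ) φ).re : ℝ) : ℂ) := by
  have hns : ‖(s : ℂ)‖ ≤ ρ := by
    rw [Complex.norm_real, Real.norm_of_nonneg hs0]
    exact hs
  have h1 := Complex.hasSum_re (h.summable hns).hasSum
  rw [ev]
  change _ = (((∑' m, coeff m φ * (s : ℂ) ^ m).re : ℝ) : ℂ)
  rw [← h1.tsum_eq, Complex.ofReal_tsum]
  refine tsum_congr fun m => ?_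
  rw [coeff_mk, ← Complex.ofReal_pow, Complex.re_mul_ofReal]
  push_cast
  ring

theorem conv_re {φ : ℂ⟦X⟧} {ρ : ℝ} (hρ : 0 ≤ ρ) (h : Conv ρ φ) :
    Conv ρ (PowerSeries.mk fun m => (((coeff m φ).re : ℝ) : ℂ)) := by
  refine Summable.of_nonneg_of_le (fun m => by positivity) (fun m => ?_) h
  rw [coeff_mk, Complex.norm_real, Real.norm_eq_abs]
  gcongr
  exact Complex.abs_re_le_norm _

theorem Conv.sum {r : ℝ} (h0 : 0 ≤ r) {ι : Type*} (s : Finset ι) {φ : ι → ℂ⟦X⟧}
    (h : ∀ i ∈ s, Conv r (φ i)) : Conv r (∑ i ∈ s, φ i) :=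
  Subalgebra.sum_mem (convSub r h0) h

theorem ev_sum {r : ℝ} (h0 : 0 ≤ r) {ι : Type*} (s : Finset ι) {φ : ι → ℂ⟦X⟧}
    (h : ∀ i ∈ s, Conv r (φ i)) {w : ℂ} (hw : ‖w‖ ≤ r) :
    ev w (∑ i ∈ s, φ i) = ∑ i ∈ s, ev w (φ i) := by
  classical
  induction s using Finset.induction_on with
  | empty => simp [ev]
  | insert a s ha ih =>
    rw [Finset.sum_insert ha, Finset.sum_insert ha, ev_add (h a (Finset.mem_insert_self _ _))
      (Conv.sum h0 s fun i hi => h i (Finset.mem_insert_of_mem hi)) hw,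
      ih fun i hi => h i (Finset.mem_insert_of_mem hi)]

/-- independence of the real functions -/
theorem rf_indep {k : ℕ} {g : Polynomial ℂ}
    (hind : LinearIndependent ℂ (fam k g (g.map (starRingEnd ℂ)))) {r : ℝ} (hr : 0 < r)
    (h1 : Conv r (psi g)) (h2 : Conv r (rec' (psi g))) {ρ : ℝ} (hρ : 0 < ρ) (hρr : ρ ≤ r ^ 2) :
    LinearIndependent ℝ (fun i => fun s : Ioo (0 : ℝ) ρ => rf k g i s) := by
  rw [Fintype.linearIndependent_iff]
  intro v hv
  set γ := gam k v with hγ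
  have hnu : ∀ s : ℝ, 0 < s → s < ρ → nu k g (v none) γ s = 0 := by
    intro s hs1 hs2
    have := congrFun hv ⟨s, hs1, hs2⟩
    simp only [Finset.sum_apply, Pi.smul_apply, smul_eq_mul, Pi.zero_apply] at this
    rw [← sum_rf, this]
  have hcs : ∀ p, Conv ρ (sg g p) := fun p => (conv_sg hr h1 h2 p).mono hρ.le hρr
  set Φ : ℂ⟦X⟧ := C ((v none : ℝ) : ℂ) + ∑ p ∈ TT2 k, C (γ p) * sg g p with hΦ
  have hcp : ∀ p, Conv ρ (C (γ p) * sg g p) := fun p => (conv_C ρ _).mul hρ.le (hcs p)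
  have hΦc : Conv ρ Φ := (conv_C ρ _).add hρ.le (Conv.sum hρ.le _ fun p _ => hcp p)
  have hΦev : ∀ s : ℝ, 0 < s → s < ρ → ev (s : ℂ) (PowerSeries.mk fun m =>
      (((coeff m Φ).re : ℝ) : ℂ)) = 0 := by
    intro s hs1 hs2
    have hns : ‖(s : ℂ)‖ ≤ ρ := by
      rw [Complex.norm_real, Real.norm_of_nonneg hs1.le]
      exact hs2.le
    rw [re_ev hΦc hs1.le hs2.le, hΦ, ev_add (conv_C ρ _) (Conv.sum hρ.le _ fun p _ => hcp p) hns,
      ev_C, ev_sum hρ.le _ (fun p _ => hcp p) hns]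
    have e : ∀ p ∈ TT2 k, ev (s : ℂ) (C (γ p) * sg g p) = γ p * ev (s : ℂ) (sg g p) := by
      intro p _
      rw [ev_mul (conv_C ρ _) (hcs p) hns, ev_C]
    rw [Finset.sum_congr rfl e]
    have := hnu s hs1 hs2
    rw [nu] at this
    rw [Complex.add_re, Complex.ofReal_re, this, Complex.ofReal_zero]
  have hzero := eq_zero_of_ev hρ (conv_re hρ.le hΦc) hΦev
  have hcoef : ∀ m, (coeff m Φ).re = 0 := by
    intro m
    have := congrArg (coeff m) hzero
    rw [coeff_mk, map_zero] at this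
    exact_mod_cast this
  have hΦm : ∀ m, coeff (m + 1) Φ = ∑ p ∈ TT2 k, γ p * coeff (m + 1) (sg g p) := by
    intro m
    rw [hΦ, map_add, coeff_C, if_neg (by omega), zero_add, map_sum]
    refine Finset.sum_congr rfl fun p _ => ?_
    rw [coeff_C_mul]
  -- the complex relation
  have hrel := Fintype.linearIndependent_iff.1 hind
    (fun x => match x with
      | .inl p => γ p.1
      | .inr p => starRingEnd ℂ (γ p.1)) (by
    funext m
    simp only [Finset.sum_apply, Pi.smul_apply, smul_eq_mul, Pi.zero_apply, Fintype.sum_sum_type]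
    have e1 : ∀ p : TT2 k, γ p.1 * fam k g (g.map (starRingEnd ℂ)) (.inl p) m =
        γ p.1 * coeff (m + 1) (sg g p.1) := by
      intro p
      rw [fam, psi_conj, sg, coeff_mk]
      ring
    have e2 : ∀ p : TT2 k, starRingEnd ℂ (γ p.1) * fam k g (g.map (starRingEnd ℂ)) (.inr p) m =
        starRingEnd ℂ (γ p.1 * coeff (m + 1) (sg g p.1)) := by
      intro p
      rw [fam, SS_conj, sg, coeff_mk]
      simp only [map_mul, Complex.conj_conj]
      ring
    rw [Finset.sum_congr rfl fun p _ => e1 p, Finset.sum_congr rfl fun p _ => e2 p, ← map_sum,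
      Complex.add_conj]
    have h3 := hcoef (m + 1)
    rw [hΦm, ← Finset.sum_coe_sort (TT2 k)] at h3
    rw [h3]
    simp)
  have hγ0 : ∀ p ∈ TT2 k, γ p = 0 := fun p hp => hrel (.inl ⟨p, hp⟩)
  have hvnone : v none = 0 := by
    have h3 := hcoef 0
    rw [hΦ, map_add, map_sum, Finset.sum_eq_zero] at h3
    · simpa using h3
    · intro p hp
      rw [hγ0 p hp, map_zero, zero_mul, map_zero]
  rintro (_ | (p | p))
  · exact hvnone
  · have h3 := hγ0 p.1 p.2
    rw [hγ, gam, dif_pos p.2] at h3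
    have := congrArg Complex.re h3
    simpa using this
  · have h3 := hγ0 p.1 p.2
    rw [hγ, gam, dif_pos p.2] at h3
    have := congrArg Complex.im h3
    simpa using this

theorem rf_diff {k : ℕ} {g : Polynomial ℂ} {r : ℝ} (hr : 0 < r)
    (h1 : Conv r (psi g)) (h2 : Conv r (rec' (psi g))) (i : II k) {s : ℝ} (hs : 0 < s)
    (hsr : s < r ^ 2) : DifferentiableAt ℝ (rf k g i) s := by
  have hd : ∀ p, DifferentiableAt ℝ (fun s : ℝ => ev (s : ℂ) (sg g p)) s := by
    intro p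
    have h3 : HasDerivAt (fun z : ℂ => ev z (sg g p)) (ev (s : ℂ) (derivative ℂ (sg g p)))
        (s : ℂ) := hasDerivAt_ev (conv_sg hr h1 h2 p) (by
      rw [Complex.norm_real, Real.norm_of_nonneg hs.le]
      exact hsr)
    exact h3.comp_ofReal.differentiableAt
  rcases i with _ | (p | p)
  · exact differentiableAt_const _
  · exact Complex.reCLM.differentiableAt.comp s (hd p.1)
  · exact Complex.reCLM.differentiableAt.comp s ((hd p.1).const_mul Complex.I)

theorem card_TT2 (k : ℕ) : 2 * (TT2 k).card = (k + 1) * (k + 4) := by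
  have h1 : (TT2 k).card = ∑ j ∈ Finset.range (k + 1), (j + 2) := by
    rw [TT2, Finset.card_filter, Finset.sum_product_right]
    have h2 : ∀ j ∈ Finset.Icc 1 (k + 1), ∑ i ∈ Finset.range (k + 3),
        (if i + j ≤ k + 2 then 1 else 0) = k + 3 - j := by
      intro j hj
      rw [Finset.mem_Icc] at hj
      rw [← Finset.card_filter]
      have : (Finset.range (k + 3)).filter (fun i => i + j ≤ k + 2) =
          Finset.range (k + 3 - j) := by
        ext i
        simp only [Finset.mem_filter, Finset.mem_range]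
        omega
      rw [this, Finset.card_range]
    rw [Finset.sum_congr rfl h2]
    have h3 : Finset.Icc 1 (k + 1) = Finset.Ico 1 (k + 2) := by
      ext j
      simp only [Finset.mem_Icc, Finset.mem_Ico]
      omega
    have h4 : k + 2 - 1 = k + 1 := by omega
    rw [h3, Finset.sum_Ico_eq_sum_range, h4, ← Finset.sum_range_reflect]
    refine Finset.sum_congr rfl fun j hj => ?_
    rw [Finset.mem_range] at hj
    omega
  rw [h1, Finset.sum_add_distrib, Finset.sum_const, Finset.card_range]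
  have := Finset.sum_range_id_mul_two (k + 1)
  simp only [Nat.add_sub_cancel] at this
  rw [smul_eq_mul]
  nlinarith

/-- choice of the perturbation -/
theorem exists_perturbation {k : ℕ} (hk : 3 ≤ k) : ∃ p q : ℂ, q ≠ 0 ∧
    ∀ g : Polynomial ℂ, g = Polynomial.C p + Polynomial.C q * Polynomial.X ^ k →
    ∀ r : ℝ, 0 < r → Conv r (psi g) → Conv r (rec' (psi g)) →
    ∃ (c0 : ℝ) (γ : ℕ × ℕ → ℂ) (z : Fin ((k + 1) * (k + 4)) → ℝ), StrictMono z ∧
      ∀ j, z j ∈ Ioo 0 (r ^ 2) ∧ nu k g c0 γ (z j) = 0 ∧ deriv (nu k g c0 γ) (z j) ≠ 0 ∧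
        DifferentiableAt ℝ (nu k g c0 γ) (z j) := by
  obtain ⟨p, q, hq, hind⟩ := exists_pair hk
  refine ⟨p, q, hq, ?_⟩
  rintro g rfl r hr h1 h2
  set g := Polynomial.C p + Polynomial.C q * Polynomial.X ^ k with hg
  have hr2 : 0 < r ^ 2 := by positivity
  have hcard : Fintype.card (II k) = (k + 1) * (k + 4) + 1 := by
    rw [Fintype.card_option, Fintype.card_sum, Fintype.card_coe, ← card_TT2]
    ring
  obtain ⟨v, z, hz, hzj⟩ := exists_zeros (rf k g) none (fun s => rfl)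
    (fun i s hs => rf_diff hr h1 h2 i hs.1 hs.2) (rf_indep hind hr h1 h2 hr2 le_rfl) hcard
  refine ⟨v none, gam k v, z, hz, fun j => ?_⟩
  obtain ⟨e1, e2, e3⟩ := hzj j
  have e4 : (fun s => ∑ i, v i * rf k g i s) = nu k g (v none) (gam k v) :=
    funext fun s => sum_rf k g v s
  rw [e4] at e3
  rw [sum_rf] at e2
  exact ⟨e1, e2, e3, differentiableAt_of_deriv_ne_zero e3⟩

end

end Pool.Agent.helper59.LC
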