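import Pool.Agent.helper59.LC.Radius

/-!
# The analytic part of the key lemma

`ψ` for `f = z + z² + z^(k+2)`.
-/

open PowerSeries

namespace Pool.Agent.helper59.LC

noncomputable section

/-- the polynomial `1 + X^k` -/
def gf (A : Type*) [CommRing A] (k : ℕ) : Polynomial A := 1 + Polynomial.X ^ k

theorem map_gf {A B : Type*} [CommRing A] [CommRing B] (φ : A →+* B) (k : ℕ) :
    (gf A k).map φ = gf B k := by
  simp [gf]

theorem aeval_gf {A : Type*} [CommRing A] (k : ℕ) (ψ : A⟦X⟧) :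
    Polynomial.aeval ψ (gf A k) = 1 + ψ ^ k := by
  simp [gf]

theorem gf_coeff_nonneg (k m : ℕ) : 0 ≤ (gf ℝ k).coeff m := by
  rw [gf, Polynomial.coeff_add, Polynomial.coeff_one, Polynomial.coeff_X_pow]
  split_ifs <;> norm_num

theorem pdom_gf (k : ℕ) : PDom (gf ℂ k) (gf ℝ k) := fun m => by
  rw [gf, gf, Polynomial.coeff_add, Polynomial.coeff_one, Polynomial.coeff_X_pow,
    Polynomial.coeff_add, Polynomial.coeff_one, Polynomial.coeff_X_pow]
  refine (norm_add_le _ _).trans ?_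
  split_ifs <;> simp

/-- the real series -/
def pR (k : ℕ) : ℝ⟦X⟧ := psi (gf ℝ k)

theorem isPsi_pR (k : ℕ) : IsPsi (gf ℝ k) (pR k) := isPsi_psi _

theorem pR_nonneg (k m : ℕ) : 0 ≤ coeff m (pR k) := (dom_psi (pdom_gf k)).nonneg m

theorem pR_ge_one (k m : ℕ) (hm : 1 ≤ m) : 1 ≤ coeff m (pR k) := by
  induction m using Nat.strong_induction_on with
  | _ m ih =>
    obtain ⟨m, rfl⟩ : ∃ j, m = j + 1 := ⟨m - 1, by omega⟩
    rcases Nat.eq_zero_or_pos m with rfl | hm0
    · rw [zero_add, (isPsi_pR k).2.1]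
    have h := (isPsi_pR k).2.2
    rw [aeval_FF, aeval_gf, show pR k ^ 2 * (1 + pR k ^ k) = pR k ^ 2 + pR k ^ (2 + k) by ring]
      at h
    have h1 := congrArg (coeff (m + 1)) h
    rw [mul_comm X, coeff_succ_mul_X, coeff_derivative, map_add, map_add] at h1
    have h2 : 0 ≤ coeff (m + 1) (pR k ^ (2 + k)) := ((dom_psi (pdom_gf k)).pow _).nonneg _
    have h3 : (m : ℝ) ≤ coeff (m + 1) (pR k ^ 2) := by
      rw [pow_two, coeff_mul, Finset.Nat.sum_antidiagonal_eq_sum_range_succ_mk]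
      calc (m : ℝ) = ∑ i ∈ Finset.Icc 1 m, (1 : ℝ) := by simp
        _ ≤ ∑ i ∈ Finset.Icc 1 m, coeff i (pR k) * coeff (m + 1 - i) (pR k) := by
            refine Finset.sum_le_sum fun i hi => ?_
            rw [Finset.mem_Icc] at hi
            exact one_le_mul_of_one_le_of_one_le (ih i (by omega) hi.1)
              (ih (m + 1 - i) (by omega) (by omega))
        _ ≤ _ := by
            refine Finset.sum_le_sum_of_subset_of_nonneg ?_ fun i _ _ =>
              mul_nonneg (pR_nonneg _ _) (pR_nonneg _ _)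
            intro i hi
            rw [Finset.mem_Icc] at hi
            rw [Finset.mem_range]
            omega
    have hm1 : (0 : ℝ) < m := by exact_mod_cast hm0
    have h4 : (m : ℝ) * 1 ≤ m * coeff (m + 1) (pR k) := by linarith
    exact le_of_mul_le_mul_left h4 hm1

/-- the truncations of `ψ / X` -/
def pM (k M : ℕ) (x : ℝ) : ℝ := (trunc M (ups (pR k))).eval x

theorem pM_eq (k M : ℕ) (x : ℝ) : pM k M x = ∑ m ∈ Finset.range M, coeff (m + 1) (pR k) * x ^ m := by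
  rw [pM, eval_trunc]
  simp [ups]

theorem pM_mono (k M : ℕ) {x y : ℝ} (hx : 0 ≤ x) (hxy : x ≤ y) : pM k M x ≤ pM k M y := by
  rw [pM_eq, pM_eq]
  exact Finset.sum_le_sum fun m _ => mul_le_mul_of_nonneg_left (pow_le_pow_left₀ hx hxy m)
    (pR_nonneg _ _)

/-- the points at which the truncations are bounded -/
def TS (k : ℕ) : Set ℝ := {x | 0 ≤ x ∧ ∃ B, ∀ M, pM k M x ≤ B}

theorem TS_zero (k : ℕ) : (0 : ℝ) ∈ TS k := by
  refine ⟨le_rfl, 1, fun M => ?_⟩
  rw [pM_eq]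
  rcases M with _ | M
  · simp
  · rw [Finset.sum_range_succ']
    simp [(isPsi_pR k).2.1]

theorem TS_lt_one (k : ℕ) {x : ℝ} (hx : x ∈ TS k) : x < 1 := by
  by_contra hc
  push Not at hc
  obtain ⟨h0, B, hB⟩ := hx
  obtain ⟨M, hM⟩ := exists_nat_gt B
  have h1 := (pM_mono k M zero_le_one hc).trans (hB M)
  rw [pM_eq] at h1
  have h2 : (M : ℝ) ≤ ∑ m ∈ Finset.range M, coeff (m + 1) (pR k) * 1 ^ m := by
    calc (M : ℝ) = ∑ m ∈ Finset.range M, (1 : ℝ) := by simp
      _ ≤ _ := Finset.sum_le_sum fun m _ => by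
          rw [one_pow, mul_one]
          exact pR_ge_one k _ (by omega)
  linarith

/-- the radius -/
def RR (k : ℕ) : ℝ := sSup (TS k)

theorem TS_bdd (k : ℕ) : BddAbove (TS k) := ⟨1, fun _ hx => (TS_lt_one k hx).le⟩

theorem TS_ext (k : ℕ) {x B : ℝ} (h0 : 0 ≤ x) (hB : ∀ M, pM k M x ≤ B) :
    ∃ δ > 0, x + δ ∈ TS k := by
  obtain ⟨δ, hδ, h⟩ := trunc_ext (gf_coeff_nonneg k) (isPsi_pR k) (pR_nonneg k) h0
    (B := max B 1) (by positivity) (fun M => (hB M).trans (le_max_left _ _))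
  exact ⟨δ, hδ, by linarith, _, h⟩

theorem RR_pos (k : ℕ) : 0 < RR k := by
  obtain ⟨δ, hδ, h⟩ := TS_ext k le_rfl (TS_zero k).2.choose_spec
  rw [zero_add] at h
  exact hδ.trans_le (le_csSup (TS_bdd k) h)

theorem RR_le_one (k : ℕ) : RR k ≤ 1 := csSup_le ⟨0, TS_zero k⟩ fun _ hx => (TS_lt_one k hx).le

theorem mem_TS (k : ℕ) {x : ℝ} (h0 : 0 ≤ x) (hx : x < RR k) : x ∈ TS k := by
  obtain ⟨y, ⟨hy0, B, hB⟩, hxy⟩ := exists_lt_of_lt_csSup ⟨0, TS_zero k⟩ hx
  exact ⟨h0, B, fun M => (pM_mono k M h0 hxy.le).trans (hB M)⟩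

theorem pM_unbdd (k : ℕ) (B : ℝ) : ∃ x, RR k / 2 < x ∧ x < RR k ∧ ∃ M, B < pM k M x := by
  by_contra hc
  push Not at hc
  have hR := RR_pos k
  have h1 : ∀ M, pM k M (RR k) ≤ B := by
    intro M
    have ht : Filter.Tendsto (fun x => pM k M x) (nhdsWithin (RR k) (Set.Iio (RR k)))
        (nhds (pM k M (RR k))) :=
      ((trunc M (ups (pR k))).continuous.tendsto (RR k)).mono_left nhdsWithin_le_nhds
    refine le_of_tendsto ht ?_
    have h2 : Set.Ioo (RR k / 2) (RR k) ∈ nhdsWithin (RR k) (Set.Iio (RR k)) :=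
      Ioo_mem_nhdsLT (by linarith)
    filter_upwards [h2] with x hx
    exact hc x hx.1 hx.2 M
  obtain ⟨δ, hδ, h⟩ := TS_ext k hR.le h1
  have := le_csSup (TS_bdd k) h
  change RR k + δ ≤ RR k at this
  linarith

theorem pR_summable (k : ℕ) {x : ℝ} (h0 : 0 ≤ x) (hx : x < RR k) :
    Summable (fun m => coeff m (pR k) * x ^ m) := by
  obtain ⟨-, B, hB⟩ := mem_TS k h0 hx
  rw [← summable_nat_add_iff 1]
  have h2 : Summable (fun m => coeff (m + 1) (pR k) * x ^ m) := by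
    refine summable_of_sum_range_le (c := B) (fun m => mul_nonneg (pR_nonneg _ _) (by positivity))
      fun M => ?_
    have := hB M
    rwa [pM_eq] at this
  refine (h2.mul_right x).congr fun m => ?_
  rw [pow_succ]
  ring

/-- the value of `ψ` at real points -/
def vR (k : ℕ) (x : ℝ) : ℝ := ∑' m, coeff m (pR k) * x ^ m

theorem vR_unbdd (k : ℕ) (B : ℝ) : ∃ x, 0 < x ∧ x < RR k ∧ B < vR k x := by
  have hR := RR_pos k
  obtain ⟨x, h1, h2, M, h3⟩ := pM_unbdd k (max B 0 / (RR k / 2))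
  have hx0 : 0 < x := by linarith
  refine ⟨x, hx0, h2, ?_⟩
  have h4 : x * pM k M x ≤ vR k x := by
    have hs := pR_summable k hx0.le h2
    have h5 := hs.sum_le_tsum (Finset.range (M + 1)) fun m _ =>
      mul_nonneg (pR_nonneg k m) (by positivity)
    refine le_trans (le_of_eq ?_) h5
    rw [Finset.sum_range_succ', pM_eq, Finset.mul_sum]
    have h0 : coeff 0 (pR k) = 0 := by
      have := (isPsi_pR k).1
      rwa [X_dvd_iff, ← coeff_zero_eq_constantCoeff_apply] at this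
    rw [h0, zero_mul, add_zero]
    refine Finset.sum_congr rfl fun m _ => ?_
    rw [pow_succ]
    ring
  refine lt_of_lt_of_le ?_ h4
  calc B ≤ max B 0 := le_max_left _ _
    _ = RR k / 2 * (max B 0 / (RR k / 2)) := by
        field_simp
    _ < x * pM k M x := by
        have : 0 ≤ max B 0 / (RR k / 2) := by positivity
        nlinarith

/-- the complex series -/
def pC (k : ℕ) : ℂ⟦X⟧ := psi (gf ℂ k)

theorem isPsi_pC (k : ℕ) : IsPsi (gf ℂ k) (pC k) := isPsi_psi _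

theorem pC_eq (k : ℕ) : pC k = PowerSeries.map Complex.ofRealHom (pR k) := by
  have := (isPsi_pR k).map Complex.ofRealHom
  rw [map_gf] at this
  exact (isPsi_pC k).unique this

theorem coeff_pC (k m : ℕ) : coeff m (pC k) = ((coeff m (pR k) : ℝ) : ℂ) := by
  rw [pC_eq, coeff_map]
  rfl

theorem conv_pC (k : ℕ) {x : ℝ} (h0 : 0 ≤ x) (hx : x < RR k) : Conv x (pC k) := by
  refine (pR_summable k h0 hx).congr fun m => ?_
  rw [coeff_pC, Complex.norm_real, Real.norm_of_nonneg (pR_nonneg k m)]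

theorem ev_pC_real (k : ℕ) (x : ℝ) : ev (x : ℂ) (pC k) = (vR k x : ℂ) := by
  rw [ev, vR, Complex.ofReal_tsum]
  refine tsum_congr fun m => ?_
  rw [coeff_pC]
  push_cast
  ring

/-- the reciprocal of `ψ / X` -/
def uR (k : ℕ) : ℝ⟦X⟧ := invOfUnit (ups (pR k)) 1

theorem ups_mul_uR (k : ℕ) : ups (pR k) * uR k = 1 := by
  apply mul_invOfUnit
  rw [← coeff_zero_eq_constantCoeff_apply, ups, coeff_mk]
  exact (isPsi_pR k).2.1

theorem pR_mul_uR (k : ℕ) : pR k * uR k = X := by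
  rw [← X_mul_ups (isPsi_pR k).1, mul_assoc, ups_mul_uR, mul_one]

theorem uR_zero (k : ℕ) : coeff 0 (uR k) = 1 := by
  have := congrArg (coeff 0) (ups_mul_uR k)
  simpa [coeff_mul, ups, (isPsi_pR k).2.1] using this

theorem uR_deriv (k : ℕ) : derivative ℝ (uR k) = - (1 + pR k ^ k) := by
  have h1 := ups_mul_uR k
  have h2 := congrArg (derivative ℝ) h1
  rw [Derivation.leibniz, Derivation.map_one_eq_zero, (isPsi_pR k).ups_deriv, aeval_gf] at h2
  simp only [smul_eq_mul] at h2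
  have h3 := congrArg (uR k * ·) h2
  simp only [mul_zero] at h3
  linear_combination h3 - (derivative ℝ (uR k) + (1 + pR k ^ k) * (1 + ups (pR k) * uR k)) * h1

theorem uR_succ (k m : ℕ) : coeff (m + 1) (uR k) * ((m : ℝ) + 1) =
    - coeff m (1 + pR k ^ k) := by
  rw [← coeff_derivative, uR_deriv, map_neg]

theorem one_add_pow_nonneg (k m : ℕ) : 0 ≤ coeff m (1 + pR k ^ k) := by
  rw [map_add, coeff_one]
  have : 0 ≤ coeff m (pR k ^ k) := ((dom_psi (pdom_gf k)).pow _).nonneg _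
  split_ifs <;> linarith

theorem uR_nonpos (k m : ℕ) (hm : 1 ≤ m) : coeff m (uR k) ≤ 0 := by
  obtain ⟨m, rfl⟩ : ∃ j, m = j + 1 := ⟨m - 1, by omega⟩
  have h := uR_succ k m
  have h2 := one_add_pow_nonneg k m
  by_contra hc
  push Not at hc
  have : 0 < coeff (m + 1) (uR k) * ((m : ℝ) + 1) := by positivity
  linarith

theorem uR_one (k : ℕ) (hk : 1 ≤ k) : coeff 1 (uR k) = -1 := by
  have h := uR_succ k 0
  have h2 : coeff 0 (pR k ^ k) = 0 := by
    have h3 : (X : ℝ⟦X⟧) ∣ pR k ^ k := dvd_pow (isPsi_pR k).1 (by omega)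
    rwa [X_dvd_iff, ← coeff_zero_eq_constantCoeff_apply] at h3
  rw [map_add, h2] at h
  simpa using h

theorem uR_summable (k : ℕ) {x : ℝ} (h0 : 0 ≤ x) (hx : x < RR k) :
    Summable (fun m => ‖coeff m (uR k)‖ * x ^ m) := by
  rw [← summable_nat_add_iff 1]
  have h1 : Conv x (Polynomial.aeval (pC k) (gf ℂ k)) := (conv_pC k h0 hx).aeval h0 _
  have h2 : Summable fun m => ‖coeff m (Polynomial.aeval (pC k) (gf ℂ k))‖ * x ^ m * x :=
    Summable.mul_right _ h1
  refine Summable.of_nonneg_of_le (fun m => by positivity) (fun m => ?_) h2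
  have h3 : coeff m (Polynomial.aeval (pC k) (gf ℂ k)) = ((coeff m (1 + pR k ^ k) : ℝ) : ℂ) := by
    rw [aeval_gf, pC_eq, ← map_pow, ← map_one (PowerSeries.map Complex.ofRealHom), ← map_add,
      coeff_map]
    rfl
  rw [h3, Complex.norm_real]
  have h4 : ‖coeff (m + 1) (uR k)‖ ≤ ‖coeff m (1 + pR k ^ k)‖ := by
    have h5 := uR_succ k m
    rw [← norm_neg (coeff m (1 + pR k ^ k)), ← h5, norm_mul]
    have h6 : (1 : ℝ) ≤ ‖(m : ℝ) + 1‖ := by
      rw [Real.norm_of_nonneg (by positivity)]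
      have : (0 : ℝ) ≤ m := by positivity
      linarith
    have := norm_nonneg (coeff (m + 1) (uR k))
    nlinarith
  rw [pow_succ]
  calc ‖coeff (m + 1) (uR k)‖ * (x ^ m * x) ≤ ‖coeff m (1 + pR k ^ k)‖ * (x ^ m * x) := by gcongr
    _ = _ := by ring

/-- the bound on rays -/
theorem ray_bound (k : ℕ) (hk : 1 ≤ k) {ζ : ℂ} (hζ : ‖ζ‖ = 1) (hre : ζ.re < 1) {x : ℝ}
    (h0 : 0 < x) (hx : x < RR k) : ‖ev ((x : ℂ) * ζ) (pC k)‖ ≤ 1 / (1 - ζ.re) := by
  set UC : ℂ⟦X⟧ := PowerSeries.map Complex.ofRealHom (uR k) with hUC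
  have hcoe : ∀ m, coeff m UC = ((coeff m (uR k) : ℝ) : ℂ) := fun m => by
    rw [hUC, coeff_map]; rfl
  have hU : Conv x UC := by
    refine (uR_summable k h0.le hx).congr fun m => ?_
    rw [hcoe, Complex.norm_real]
  have hP := conv_pC k h0.le hx
  have hprod : pC k * UC = X := by
    rw [pC_eq, hUC, ← map_mul, pR_mul_uR, PowerSeries.map_X]
  have hev : ∀ w : ℂ, ‖w‖ ≤ x → ev w (pC k) * ev w UC = w := by
    intro w hw
    rw [← ev_mul hP hU hw, hprod, ev_X]
  -- at the real point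
  set Ux : ℝ := ∑' m, coeff m (uR k) * x ^ m with hUx
  have hUs : Summable fun m => coeff m (uR k) * x ^ m := by
    refine Summable.of_norm ?_
    refine (uR_summable k h0.le hx).congr fun m => ?_
    rw [norm_mul, Real.norm_of_nonneg (show (0 : ℝ) ≤ x ^ m by positivity)]
  have hevU : ev (x : ℂ) UC = (Ux : ℂ) := by
    rw [ev, hUx, Complex.ofReal_tsum]
    refine tsum_congr fun m => ?_
    rw [hcoe]
    push_cast
    ring
  have hvpos : 0 < vR k x := by
    have hs := pR_summable k h0.le hx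
    have h5 := hs.sum_le_tsum {1} fun m _ => mul_nonneg (pR_nonneg k m) (by positivity)
    rw [Finset.sum_singleton, (isPsi_pR k).2.1] at h5
    change 1 * x ^ 1 ≤ vR k x at h5
    linarith
  have hUpos : 0 < Ux := by
    have h5 := hev (x : ℂ) (by rw [Complex.norm_real, Real.norm_of_nonneg h0.le])
    rw [ev_pC_real, hevU, ← Complex.ofReal_mul, Complex.ofReal_inj] at h5
    by_contra hc
    push Not at hc
    nlinarith
  -- on the ray
  have hw : ‖(x : ℂ) * ζ‖ ≤ x := by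
    rw [norm_mul, hζ, mul_one, Complex.norm_real, Real.norm_of_nonneg h0.le]
  have hS : HasSum (fun m => coeff m UC * ((x : ℂ) * ζ) ^ m) (ev ((x : ℂ) * ζ) UC) :=
    (hU.summable hw).hasSum
  have hSre : HasSum (fun m => coeff m (uR k) * x ^ m * (ζ ^ m).re) (ev ((x : ℂ) * ζ) UC).re := by
    have h := Complex.hasSum_re hS
    have e : (fun m => coeff m (uR k) * x ^ m * (ζ ^ m).re) =
        fun m => (coeff m UC * ((x : ℂ) * ζ) ^ m).re := by
      funext m
      rw [hcoe, mul_pow, ← mul_assoc, ← Complex.ofReal_pow, ← Complex.ofReal_mul,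
        Complex.re_ofReal_mul]
    rw [e]
    exact h
  have hdiff : HasSum (fun m => coeff m (uR k) * x ^ m * ((ζ ^ m).re - 1))
      ((ev ((x : ℂ) * ζ) UC).re - Ux) := by
    have h := hSre.sub hUs.hasSum
    have e : (fun m => coeff m (uR k) * x ^ m * ((ζ ^ m).re - 1)) =
        fun m => coeff m (uR k) * x ^ m * (ζ ^ m).re - coeff m (uR k) * x ^ m := by
      funext m
      ring
    rw [e]
    exact h
  have hterm : ∀ m, 0 ≤ coeff m (uR k) * x ^ m * ((ζ ^ m).re - 1) := by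
    intro m
    rcases Nat.eq_zero_or_pos m with rfl | hm
    · simp
    · have h6 : (ζ ^ m).re ≤ 1 := by
        refine (Complex.re_le_norm _).trans ?_
        rw [norm_pow, hζ, one_pow]
      have h7 := uR_nonpos k m hm
      have h8 : (0 : ℝ) ≤ x ^ m := by positivity
      exact mul_nonneg_of_nonpos_of_nonpos (mul_nonpos_of_nonpos_of_nonneg h7 h8) (by linarith)
  have hge : x * (1 - ζ.re) ≤ (ev ((x : ℂ) * ζ) UC).re := by
    have h9 := sum_le_hasSum {1} (fun m _ => hterm m) hdiff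
    rw [Finset.sum_singleton, uR_one k hk, pow_one, pow_one] at h9
    linarith
  have hnorm : x * (1 - ζ.re) ≤ ‖ev ((x : ℂ) * ζ) UC‖ := hge.trans (Complex.re_le_norm _)
  have h10 : ‖ev ((x : ℂ) * ζ) (pC k)‖ * ‖ev ((x : ℂ) * ζ) UC‖ = x := by
    rw [← norm_mul, hev _ hw, norm_mul, hζ, mul_one, Complex.norm_real,
      Real.norm_of_nonneg h0.le]
  have h11 : 0 < 1 - ζ.re := by linarith
  rw [le_div_iff₀ h11]
  have h12 : ‖ev ((x : ℂ) * ζ) (pC k)‖ * (x * (1 - ζ.re)) ≤ x := by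
    calc _ ≤ ‖ev ((x : ℂ) * ζ) (pC k)‖ * ‖ev ((x : ℂ) * ζ) UC‖ := by gcongr
      _ = x := h10
  have h13 : x * (‖ev ((x : ℂ) * ζ) (pC k)‖ * (1 - ζ.re)) ≤ x * 1 := by linarith
  exact le_of_mul_le_mul_left h13 h0

end

end Pool.Agent.helper59.LC
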