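import Pool.Agent.helper59.LC.KeyA

/-!
# The key lemma
-/

open PowerSeries

namespace Pool.Agent.helper59.LC

noncomputable section

/-- the primitive root of unity -/
def om (N : ℕ) : ℂ := Complex.exp (2 * Real.pi * Complex.I / N)

theorem om_prim {N : ℕ} (hN : N ≠ 0) : IsPrimitiveRoot (om N) N := Complex.isPrimitiveRoot_exp N hN

theorem om_norm {N : ℕ} (hN : N ≠ 0) : ‖om N‖ = 1 := (om_prim hN).norm'_eq_one hN

theorem om_pow_re_lt {N s : ℕ} (hs : 0 < s) (hsN : s < N) : (om N ^ s).re < 1 := by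
  have hN : N ≠ 0 := by omega
  have h1 : ‖om N ^ s‖ = 1 := by rw [norm_pow, om_norm hN, one_pow]
  have h2 : om N ^ s ≠ 1 := fun h => by
    have := ((om_prim hN).pow_eq_one_iff_dvd s).1 h
    exact absurd (Nat.le_of_dvd hs this) (by omega)
  rcases lt_or_eq_of_le ((Complex.re_le_norm (om N ^ s)).trans h1.le) with h3 | h3
  · exact h3
  · exfalso
    apply h2
    have h4 := Complex.sq_norm_sub_sq_re (om N ^ s)
    rw [h1, h3] at h4
    apply Complex.ext
    · rw [h3, Complex.one_re]
    · rw [Complex.one_im]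
      have : (om N ^ s).im ^ 2 = 0 := by rw [← h4]; norm_num
      exact pow_eq_zero_iff (two_ne_zero) |>.1 this

theorem geom_om {N : ℕ} (hN : N ≠ 0) (j : ℕ) :
    ∑ s ∈ Finset.range N, (om N ^ s) ^ j = if N ∣ j then (N : ℂ) else 0 := by
  have e : ∀ s, (om N ^ s) ^ j = (om N ^ j) ^ s := fun s => by rw [← pow_mul, ← pow_mul, mul_comm]
  simp_rw [e]
  split_ifs with h
  · have : om N ^ j = 1 := ((om_prim hN).pow_eq_one_iff_dvd j).2 h
    simp [this]
  · have h1 : om N ^ j ≠ 1 := fun h' => h (((om_prim hN).pow_eq_one_iff_dvd j).1 h')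
    have h2 := geom_sum_eq h1 N
    rw [h2, ← pow_mul, mul_comm, pow_mul, (om_prim hN).pow_eq_one, one_pow, sub_self, zero_div]

/-- **K1**: a polynomial in `ψ` whose coefficients vanish for large indices of a residue class
is constant. -/
theorem K1 {k : ℕ} (hk : 1 ≤ k) (P : Polynomial ℂ) (ρ m0 : ℕ)
    (h : ∀ m, m0 ≤ m → (k + 1) ∣ m + ρ → coeff m (Polynomial.aeval (pC k) P) = 0) :
    P.natDegree = 0 := by
  set N := k + 1 with hN
  have hN0 : N ≠ 0 := by omega
  set α := Polynomial.aeval (pC k) P with hα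
  -- the bound
  set C1 : ℝ := ∑ m ∈ Finset.range m0, ‖coeff m α‖ * N with hC1
  set C2 : ℝ := ∑ s ∈ Finset.range N,
    ∑ j ∈ Finset.range (P.natDegree + 1), ‖P.coeff j‖ * (1 / (1 - (om N ^ s).re)) ^ j with hC2
  have main : ∀ x : ℝ, 0 < x → x < RR k → ‖P.eval (vR k x : ℂ)‖ ≤ C1 + C2 := by
    intro x hx0 hx
    have hconv := conv_pC k hx0.le hx
    have hαc : Conv x α := hconv.aeval hx0.le P
    have hwn : ∀ s, ‖(x : ℂ) * om N ^ s‖ ≤ x := fun s => by
      rw [norm_mul, norm_pow, om_norm hN0, one_pow, mul_one, Complex.norm_real,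
        Real.norm_of_nonneg hx0.le]
    -- the filtered sum
    have hfil : ∑ s ∈ Finset.range N, (om N ^ s) ^ ρ * ev ((x : ℂ) * om N ^ s) α =
        ∑ m ∈ Finset.range m0, coeff m α * (x : ℂ) ^ m * (if N ∣ m + ρ then (N : ℂ) else 0) := by
      have h1 : ∀ s ∈ Finset.range N, HasSum (fun m => coeff m α * (x : ℂ) ^ m *
          (om N ^ s) ^ (m + ρ)) ((om N ^ s) ^ ρ * ev ((x : ℂ) * om N ^ s) α) := by
        intro s _
        have := ((hαc.summable (hwn s)).hasSum).mul_left ((om N ^ s) ^ ρ)
        have e : (fun m => coeff m α * (x : ℂ) ^ m * (om N ^ s) ^ (m + ρ)) =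
            fun m => (om N ^ s) ^ ρ * (coeff m α * ((x : ℂ) * om N ^ s) ^ m) := by
          funext m
          rw [pow_add, mul_pow]
          ring
        rw [e]
        exact this
      have h2 := hasSum_sum h1
      have h3 : HasSum (fun m => coeff m α * (x : ℂ) ^ m * (if N ∣ m + ρ then (N : ℂ) else 0))
          (∑ s ∈ Finset.range N, (om N ^ s) ^ ρ * ev ((x : ℂ) * om N ^ s) α) := by
        have e : (fun m => coeff m α * (x : ℂ) ^ m * (if N ∣ m + ρ then (N : ℂ) else 0)) =
            fun m => ∑ s ∈ Finset.range N, coeff m α * (x : ℂ) ^ m * (om N ^ s) ^ (m + ρ) := by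
          funext m
          rw [← Finset.mul_sum, geom_om hN0]
        rw [e]
        exact h2
      refine h3.unique (hasSum_sum_of_ne_finset_zero fun m hm => ?_)
      rw [Finset.mem_range, not_lt] at hm
      split_ifs with hd
      · rw [h m hm hd, zero_mul, zero_mul]
      · rw [mul_zero]
    have hfin : ‖∑ m ∈ Finset.range m0, coeff m α * (x : ℂ) ^ m *
        (if N ∣ m + ρ then (N : ℂ) else 0)‖ ≤ C1 := by
      refine (norm_sum_le _ _).trans (Finset.sum_le_sum fun m _ => ?_)
      rw [norm_mul, norm_mul, norm_pow, Complex.norm_real, Real.norm_of_nonneg hx0.le]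
      have h4 : x ^ m ≤ 1 := pow_le_one₀ hx0.le (hx.le.trans (RR_le_one k))
      have h5 : ‖(if N ∣ m + ρ then (N : ℂ) else 0)‖ ≤ N := by
        split_ifs <;> simp
      calc ‖coeff m α‖ * x ^ m * _ ≤ ‖coeff m α‖ * 1 * N := by gcongr
        _ = _ := by ring
    -- the term `s = 0`
    have hN1 : N = k + 1 := rfl
    rw [hN1, Finset.sum_range_succ', ← hN1] at hfil
    simp only [pow_zero, one_pow, one_mul, mul_one] at hfil
    have hv : ev (x : ℂ) α = P.eval (vR k x : ℂ) := by
      rw [hα, ev_aeval hx0.le hconv P (by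
        rw [Complex.norm_real, Real.norm_of_nonneg hx0.le]), ev_pC_real]
    rw [hv] at hfil
    have hrest : ‖∑ s ∈ Finset.range k, (om N ^ (s + 1)) ^ ρ *
        ev ((x : ℂ) * om N ^ (s + 1)) α‖ ≤ C2 := by
      refine (norm_sum_le _ _).trans ?_
      have hterm : ∀ s, 0 < s → s < N → ‖(om N ^ s) ^ ρ * ev ((x : ℂ) * om N ^ s) α‖ ≤
          ∑ j ∈ Finset.range (P.natDegree + 1), ‖P.coeff j‖ * (1 / (1 - (om N ^ s).re)) ^ j := by
        intro s hs0 hs
        rw [norm_mul, norm_pow, norm_pow, om_norm hN0, one_pow, one_pow, one_mul, hα,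
          ev_aeval hx0.le hconv P (hwn s), Polynomial.eval_eq_sum_range]
        refine (norm_sum_le _ _).trans (Finset.sum_le_sum fun j _ => ?_)
        rw [norm_mul, norm_pow]
        have := ray_bound k hk (ζ := om N ^ s) (by rw [norm_pow, om_norm hN0, one_pow])
          (om_pow_re_lt hs0 hs) hx0 hx
        gcongr
      calc ∑ s ∈ Finset.range k, ‖(om N ^ (s + 1)) ^ ρ * ev ((x : ℂ) * om N ^ (s + 1)) α‖
          ≤ ∑ s ∈ Finset.range k, ∑ j ∈ Finset.range (P.natDegree + 1),
              ‖P.coeff j‖ * (1 / (1 - (om N ^ (s + 1)).re)) ^ j := by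
            refine Finset.sum_le_sum fun s hs => hterm _ (by omega) ?_
            rw [Finset.mem_range] at hs
            omega
        _ ≤ C2 := by
            rw [hC2, hN, Finset.sum_range_succ']
            have : 0 ≤ ∑ j ∈ Finset.range (P.natDegree + 1),
                ‖P.coeff j‖ * (1 / (1 - (om (k + 1) ^ 0).re)) ^ j := by
              refine Finset.sum_nonneg fun j _ => ?_
              simp only [pow_zero, Complex.one_re, sub_self, div_zero]
              positivity
            linarith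
    have : P.eval (vR k x : ℂ) = (∑ m ∈ Finset.range m0, coeff m α * (x : ℂ) ^ m *
        (if N ∣ m + ρ then (N : ℂ) else 0)) - ∑ s ∈ Finset.range k, (om N ^ (s + 1)) ^ ρ *
        ev ((x : ℂ) * om N ^ (s + 1)) α := by
      rw [← hfil]; ring
    rw [this]
    exact (norm_sub_le _ _).trans (add_le_add hfin hrest)
  -- conclusion
  by_contra hd
  have hdeg : 0 < P.degree := Polynomial.natDegree_pos_iff_degree_pos.1 (Nat.pos_of_ne_zero hd)
  choose x hx0 hx hxv using fun j : ℕ => vR_unbdd k j
  have ht : Filter.Tendsto (fun j : ℕ => ‖((vR k (x j) : ℝ) : ℂ)‖) Filter.atTop Filter.atTop := by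
    refine Filter.tendsto_atTop_mono (fun j => ?_) tendsto_natCast_atTop_atTop
    rw [Complex.norm_real]
    exact (hxv j).le.trans (le_abs_self _)
  have ht2 := P.tendsto_norm_atTop hdeg ht
  obtain ⟨j, hj⟩ := (ht2.eventually (Filter.eventually_gt_atTop (C1 + C2))).exists
  exact absurd (main (x j) (hx0 j) (hx j)) (not_le.2 hj)

/-! ### the operator `𝓛` as a linear map -/

section
variable {A : Type*} [CommRing A]

/-- `LL` as a linear map -/
def Lin (g : Polynomial A) : Module.End A (Polynomial A) :=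
  (LinearMap.mulLeft A (FF g)).comp Polynomial.derivative -
    LinearMap.mulLeft A (Polynomial.derivative (FF g))

theorem Lin_apply (g P : Polynomial A) : Lin g P = LL g P := rfl

theorem SS_zero (ψ : A⟦X⟧) (m : ℕ) : SS ψ 0 m = 0 := by simp [SS]

theorem SS_Csmul (ψ : A⟦X⟧) (c : A) (P : Polynomial A) (m : ℕ) :
    SS ψ (c • P) m = c * SS ψ P m := by
  rw [Polynomial.smul_eq_C_mul, SS_smul]

theorem SS_poly {g : Polynomial A} {ψ : A⟦X⟧} (h : IsPsi g ψ) (χ P : Polynomial A) (m : ℕ) :
    SS ψ (Polynomial.aeval (Lin g) χ P) m = χ.eval (m : A) * SS ψ P m := by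
  induction χ using Polynomial.induction_on' generalizing P with
  | add p q hp hq =>
    rw [map_add, LinearMap.add_apply, SS_add, hp, hq, Polynomial.eval_add, add_mul]
  | monomial j a =>
    rw [Polynomial.aeval_monomial, Polynomial.eval_monomial, Module.End.mul_apply,
      Module.algebraMap_end_apply, SS_Csmul]
    have : SS ψ ((Lin g ^ j) P) m = (m : A) ^ j * SS ψ P m := by
      induction j generalizing P with
      | zero => simp
      | succ j ih =>
        rw [pow_succ, Module.End.mul_apply, ih, Lin_apply, SS_LL h, pow_succ]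
        ring
    rw [this]
    ring

end

/-- degree of `𝓛 P` -/
theorem natDegree_LL {k : ℕ} (hk : 1 ≤ k) {P : Polynomial ℂ} (hP : P ≠ 0)
    (hd : P.natDegree ≠ k + 2) :
    (LL (gf ℂ k) P).natDegree = P.natDegree + (k + 1) ∧
      (LL (gf ℂ k) P).coeff (P.natDegree + (k + 1)) ≠ 0 := by
  set d := P.natDegree with hd'
  have hF : FF (gf ℂ k) = Polynomial.X + Polynomial.X ^ 2 + Polynomial.X ^ (k + 2) := by
    rw [FF, gf]; ring
  have hF' : Polynomial.derivative (FF (gf ℂ k)) =
      1 + Polynomial.C 2 * Polynomial.X + Polynomial.C ((k + 2 : ℕ) : ℂ) *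
        Polynomial.X ^ (k + 1) := by
    have h2 : (Polynomial.C 2 : Polynomial ℂ) = 2 := map_ofNat _ 2
    rw [hF, h2]
    simp only [map_add, Polynomial.derivative_X, Polynomial.derivative_X_pow, map_natCast]
    push_cast
    ring
  have hP' : (Polynomial.derivative P).natDegree ≤ d - 1 := Polynomial.natDegree_derivative_le P
  have hlt : ∀ {Q : Polynomial ℂ} {j : ℕ}, Q.natDegree < j → Q.coeff j = 0 := fun h =>
    Polynomial.coeff_eq_zero_of_natDegree_lt h
  have hcd : ∀ j, d < j → P.coeff j = 0 := fun j hj => hlt hj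
  have hcoef : (LL (gf ℂ k) P).coeff (d + (k + 1)) = ((d : ℂ) - (k + 2)) * P.coeff d := by
    rw [LL, hF', hF, Polynomial.coeff_sub, add_mul, add_mul, add_mul, add_mul, one_mul,
      Polynomial.coeff_add, Polynomial.coeff_add, Polynomial.coeff_add, Polynomial.coeff_add,
      mul_assoc (Polynomial.C 2), mul_assoc (Polynomial.C _), Polynomial.coeff_C_mul,
      Polynomial.coeff_C_mul]
    have e1 : (Polynomial.X * Polynomial.derivative P).coeff (d + (k + 1)) = 0 := by
      rw [show d + (k + 1) = (d + k) + 1 by ring, Polynomial.coeff_X_mul,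
        Polynomial.coeff_derivative, hcd _ (by omega), zero_mul]
    have e2 : (Polynomial.X ^ 2 * Polynomial.derivative P).coeff (d + (k + 1)) = 0 := by
      rw [show d + (k + 1) = (d + k - 1) + 2 by omega, Polynomial.coeff_X_pow_mul,
        Polynomial.coeff_derivative, hcd _ (by omega), zero_mul]
    have e3 : (Polynomial.X ^ (k + 2) * Polynomial.derivative P).coeff (d + (k + 1)) =
        d * P.coeff d := by
      rcases Nat.eq_zero_or_pos d with h0 | h0
      · have : Polynomial.derivative P = 0 := by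
          rw [Polynomial.natDegree_eq_zero.1 (hd'.symm.trans h0) |>.choose_spec.symm,
            Polynomial.derivative_C]
        rw [this, mul_zero, Polynomial.coeff_zero, h0]
        simp
      · rw [show d + (k + 1) = (d - 1) + (k + 2) by omega, Polynomial.coeff_X_pow_mul,
          Polynomial.coeff_derivative, Nat.sub_add_cancel h0, mul_comm]
        congr 1
        rw [Nat.cast_sub h0]
        push_cast
        ring
    have e4 : P.coeff (d + (k + 1)) = 0 := hcd _ (by omega)
    have e5 : (Polynomial.X * P).coeff (d + (k + 1)) = 0 := by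
      rw [show d + (k + 1) = (d + k) + 1 by ring, Polynomial.coeff_X_mul, hcd _ (by omega)]
    have e6 : (Polynomial.X ^ (k + 1) * P).coeff (d + (k + 1)) = P.coeff d := by
      rw [Polynomial.coeff_X_pow_mul]
    rw [e1, e2, e3, e4, e5, e6]
    push_cast
    ring
  have hne : (LL (gf ℂ k) P).coeff (d + (k + 1)) ≠ 0 := by
    rw [hcoef]
    refine mul_ne_zero ?_ ?_
    · rw [sub_ne_zero]
      exact_mod_cast hd
    · exact Polynomial.leadingCoeff_ne_zero.2 hP
  refine ⟨Polynomial.natDegree_eq_of_le_of_coeff_ne_zero ?_ hne, hne⟩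
  rw [Polynomial.natDegree_le_iff_coeff_eq_zero]
  intro j hj
  rw [LL, hF', hF, Polynomial.coeff_sub, add_mul, add_mul, add_mul, add_mul, one_mul,
      Polynomial.coeff_add, Polynomial.coeff_add, Polynomial.coeff_add, Polynomial.coeff_add,
      mul_assoc (Polynomial.C 2), mul_assoc (Polynomial.C _), Polynomial.coeff_C_mul,
      Polynomial.coeff_C_mul]
  obtain ⟨i, rfl⟩ : ∃ i, j = i + (k + 2) := ⟨j - (k + 2), by omega⟩
  have e1 : (Polynomial.X * Polynomial.derivative P).coeff (i + (k + 2)) = 0 := by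
    rw [show i + (k + 2) = (i + (k + 1)) + 1 by ring, Polynomial.coeff_X_mul,
      Polynomial.coeff_derivative, hcd _ (by omega), zero_mul]
  have e2 : (Polynomial.X ^ 2 * Polynomial.derivative P).coeff (i + (k + 2)) = 0 := by
    rw [show i + (k + 2) = (i + k) + 2 by omega, Polynomial.coeff_X_pow_mul,
      Polynomial.coeff_derivative, hcd _ (by omega), zero_mul]
  have e3 : (Polynomial.X ^ (k + 2) * Polynomial.derivative P).coeff (i + (k + 2)) = 0 := by
    rw [Polynomial.coeff_X_pow_mul, Polynomial.coeff_derivative, hcd _ (by omega), zero_mul]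
  have e4 : P.coeff (i + (k + 2)) = 0 := hcd _ (by omega)
  have e5 : (Polynomial.X * P).coeff (i + (k + 2)) = 0 := by
    rw [show i + (k + 2) = (i + (k + 1)) + 1 by ring, Polynomial.coeff_X_mul, hcd _ (by omega)]
  have e6 : (Polynomial.X ^ (k + 1) * P).coeff (i + (k + 2)) = 0 := by
    rw [show i + (k + 2) = (i + 1) + (k + 1) by ring, Polynomial.coeff_X_pow_mul,
      hcd _ (by omega)]
  rw [e1, e2, e3, e4, e5, e6]
  ring

/-- degree of `χ(𝓛) P` -/
theorem natDegree_aeval_Lin {k : ℕ} (hk : 1 ≤ k) {P : Polynomial ℂ} (hP : P ≠ 0)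
    (hd : P.natDegree ≠ k + 2) (hd1 : P.natDegree ≠ 1) (e : ℕ) (χ : Polynomial ℂ) (hχ : χ ≠ 0)
    (he : χ.natDegree = e) :
    Polynomial.aeval (Lin (gf ℂ k)) χ P ≠ 0 ∧
      (Polynomial.aeval (Lin (gf ℂ k)) χ P).natDegree = P.natDegree + e * (k + 1) := by
  induction e generalizing χ with
  | zero =>
    obtain ⟨c, rfl⟩ := Polynomial.natDegree_eq_zero.1 he
    have hc : c ≠ 0 := fun h => hχ (by rw [h, map_zero])
    rw [Polynomial.aeval_C, Module.algebraMap_end_apply]
    refine ⟨smul_ne_zero hc hP, ?_⟩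
    rw [Polynomial.natDegree_smul _ hc]
    ring
  | succ e ih =>
    have h1 := Polynomial.divX_mul_X_add χ
    have hne : Polynomial.divX χ ≠ 0 := by
      intro h0
      rw [h0, zero_mul, zero_add] at h1
      rw [← h1, Polynomial.natDegree_C] at he
      omega
    have hde : (Polynomial.divX χ).natDegree = e := by
      rw [Polynomial.natDegree_divX_eq_natDegree_tsub_one, he, Nat.add_sub_cancel]
    obtain ⟨h2, h3⟩ := ih _ hne hde
    set W := Polynomial.aeval (Lin (gf ℂ k)) (Polynomial.divX χ) P with hW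
    have hWd : W.natDegree ≠ k + 2 := by
      rw [h3]
      rcases e with _ | _ | e
      · simpa using hd
      · intro h; omega
      · intro h
        have : k + 2 < (e + 1 + 1) * (k + 1) := by nlinarith
        omega
    have h4 : Polynomial.aeval (Lin (gf ℂ k)) χ P = LL (gf ℂ k) W + χ.coeff 0 • P := by
      conv_lhs => rw [← h1, map_add, mul_comm, map_mul, Polynomial.aeval_X, Polynomial.aeval_C]
      rw [LinearMap.add_apply, Module.End.mul_apply, Module.algebraMap_end_apply, ← hW,
        Lin_apply]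
    obtain ⟨h5, h6⟩ := natDegree_LL hk h2 hWd
    have h7 : (χ.coeff 0 • P).natDegree < W.natDegree + (k + 1) := by
      refine (Polynomial.natDegree_smul_le _ _).trans_lt ?_
      rw [h3]
      nlinarith [Nat.zero_le (e * (k + 1))]
    have h8 : (Polynomial.aeval (Lin (gf ℂ k)) χ P).coeff (W.natDegree + (k + 1)) ≠ 0 := by
      rw [h4, Polynomial.coeff_add, Polynomial.coeff_eq_zero_of_natDegree_lt h7, add_zero]
      exact h6
    refine ⟨fun h0 => h8 (by rw [h0, Polynomial.coeff_zero]), ?_⟩
    have h9 : (Polynomial.aeval (Lin (gf ℂ k)) χ P).natDegree = W.natDegree + (k + 1) := by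
      refine Polynomial.natDegree_eq_of_le_of_coeff_ne_zero ?_ h8
      rw [h4]
      refine (Polynomial.natDegree_add_le _ _).trans (max_le h5.le h7.le)
    rw [h9, h3]
    ring

theorem FF_gf (k : ℕ) : FF (gf ℂ k) = Polynomial.X + Polynomial.X ^ 2 + Polynomial.X ^ (k + 2) := by
  rw [FF, gf]; ring

theorem FF_coeff_top {k : ℕ} (hk : 1 ≤ k) : (FF (gf ℂ k)).coeff (k + 2) = 1 := by
  rw [FF_gf, Polynomial.coeff_add, Polynomial.coeff_add, Polynomial.coeff_X,
    Polynomial.coeff_X_pow, Polynomial.coeff_X_pow, if_neg (by omega), if_neg (by omega),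
    if_pos rfl]
  ring

theorem FF_natDegree {k : ℕ} (hk : 1 ≤ k) : (FF (gf ℂ k)).natDegree = k + 2 := by
  refine Polynomial.natDegree_eq_of_le_of_coeff_ne_zero ?_ ?_
  · rw [Polynomial.natDegree_le_iff_coeff_eq_zero]
    intro j hj
    rw [FF_gf, Polynomial.coeff_add, Polynomial.coeff_add, Polynomial.coeff_X,
      Polynomial.coeff_X_pow, Polynomial.coeff_X_pow, if_neg (by omega), if_neg (by omega),
      if_neg (by omega)]
    ring
  · rw [FF_coeff_top hk]
    exact one_ne_zero

theorem FF_monic {k : ℕ} (hk : 1 ≤ k) : (FF (gf ℂ k)).Monic := by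
  rw [Polynomial.Monic, Polynomial.leadingCoeff, FF_natDegree hk, FF_coeff_top hk]

/-- some polynomial in `𝓛` of positive degree maps everything into the ideal of `f` -/
theorem exists_chi {k : ℕ} (hk : 1 ≤ k) : ∃ χ : Polynomial ℂ, 1 ≤ χ.natDegree ∧
    ∀ P, FF (gf ℂ k) ∣ Polynomial.aeval (Lin (gf ℂ k)) χ P := by
  set f := FF (gf ℂ k) with hf
  have hfin : Module.Finite ℂ (AdjoinRoot f) := (FF_monic hk).finite_adjoinRoot
  have hnt : Nontrivial (AdjoinRoot f) := by
    apply AdjoinRoot.nontrivial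
    intro h0
    have : f.natDegree = 0 := Polynomial.natDegree_eq_of_degree_eq_some h0
    rw [hf, FF_natDegree hk] at this
    omega
  set y : AdjoinRoot f := - AdjoinRoot.mk f (Polynomial.derivative f) with hy
  have hint : IsIntegral ℂ y := Algebra.IsIntegral.isIntegral y
  refine ⟨minpoly ℂ y, minpoly.natDegree_pos hint, fun P => ?_⟩
  have key : ∀ (χ P : Polynomial ℂ), AdjoinRoot.mk f (Polynomial.aeval (Lin (gf ℂ k)) χ P) =
      Polynomial.aeval y χ * AdjoinRoot.mk f P := by
    intro χ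
    induction χ using Polynomial.induction_on' with
    | add p q hp hq =>
      intro P
      rw [map_add, LinearMap.add_apply, map_add, hp, hq, map_add, add_mul]
    | monomial j a =>
      intro P
      rw [Polynomial.aeval_monomial, Polynomial.aeval_monomial, Module.End.mul_apply,
        Module.algebraMap_end_apply, Polynomial.smul_eq_C_mul, map_mul, AdjoinRoot.mk_C,
        ← AdjoinRoot.algebraMap_eq, mul_assoc]
      congr 1
      induction j generalizing P with
      | zero => simp
      | succ j ih =>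
        rw [pow_succ, Module.End.mul_apply, ih, Lin_apply, pow_succ, mul_assoc]
        congr 1
        rw [LL, ← hf, map_sub, map_mul, map_mul, AdjoinRoot.mk_self, zero_mul, zero_sub, hy,
          neg_mul]
  rw [← AdjoinRoot.mk_eq_zero, key, minpoly.aeval, zero_mul]

/-- **Key lemma** -/
theorem key {k : ℕ} (hk : 2 ≤ k) (P : Polynomial ℂ) (ρ m0 : ℕ)
    (h : ∀ m, m0 ≤ m → (k + 1) ∣ m + ρ → SS (pC k) P m = 0) :
    ∃ c : ℂ, P = c • FF (gf ℂ k) := by
  set f := FF (gf ℂ k) with hf
  have hk1 : 1 ≤ k := by omega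
  have hψ := isPsi_pC k
  have hSf : ∀ m, 1 ≤ m → SS (pC k) f m = 0 := by
    intro m hm
    have := SS_FF hψ 1 m
    rw [mul_one, map_one, coeff_one, if_neg (by omega)] at this
    exact this
  obtain ⟨χ, hχ1, hχ2⟩ := exists_chi hk1
  -- the main case
  have case1 : ∀ (Q : Polynomial ℂ) (m1 : ℕ), Q ≠ 0 → Q.natDegree ≠ k + 2 → Q.natDegree ≠ 1 →
      (∀ m, m1 ≤ m → (k + 1) ∣ m + ρ → SS (pC k) Q m = 0) → False := by
    intro Q m1 hQ hd hd1 hS
    have hχ0 : χ ≠ 0 := fun h0 => by rw [h0, Polynomial.natDegree_zero] at hχ1; omega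
    obtain ⟨h1, h2⟩ := natDegree_aeval_Lin hk1 hQ hd hd1 _ χ hχ0 rfl
    obtain ⟨B, hB⟩ := hχ2 Q
    have hK1 : B.natDegree = 0 := by
      refine K1 hk1 B ρ m1 fun m hm hdvd => ?_
      rw [← SS_FF hψ B m, ← hf, ← hB, SS_poly hψ, hS m hm hdvd, mul_zero]
    rw [hB] at h1 h2
    have hB0 : B ≠ 0 := fun h0 => h1 (by rw [h0, mul_zero])
    have hf0 : FF (gf ℂ k) ≠ 0 := (FF_monic hk1).ne_zero
    rw [Polynomial.natDegree_mul hf0 hB0, hK1, FF_natDegree hk1] at h2
    obtain ⟨e, he⟩ : ∃ e, χ.natDegree = e + 1 := ⟨χ.natDegree - 1, by omega⟩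
    rw [he] at h2
    rcases e with _ | e
    · have : Q.natDegree = 1 := by omega
      exact hd1 this
    · have : k + 2 < (e + 1 + 1) * (k + 1) := by nlinarith
      omega
  -- reduction to `coeff (k+2) = 0`
  have red : ∀ (Q : Polynomial ℂ), (∀ m, m0 ≤ m → (k + 1) ∣ m + ρ → SS (pC k) Q m = 0) →
      ∀ m, max m0 1 ≤ m → (k + 1) ∣ m + ρ → SS (pC k) (Q - Q.coeff (k + 2) • f) m = 0 := by
    intro Q hQ m hm hd
    rw [SS_sub, SS_Csmul, hQ m (by omega) hd, hSf m (by omega)]
    ring
  have hfc : f.coeff (k + 2) = 1 := by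
    have := FF_monic hk1
    rwa [Polynomial.Monic, Polynomial.leadingCoeff, FF_natDegree hk1] at this
  have hcz : ∀ Q : Polynomial ℂ, (Q - Q.coeff (k + 2) • f).coeff (k + 2) = 0 := by
    intro Q
    rw [Polynomial.coeff_sub, Polynomial.coeff_smul, hfc, smul_eq_mul, mul_one, sub_self]
  have hdz : ∀ Q : Polynomial ℂ, Q ≠ 0 → Q.coeff (k + 2) = 0 → Q.natDegree ≠ k + 2 := by
    intro Q hQ h0 hd
    apply hQ
    rw [← Polynomial.leadingCoeff_eq_zero, Polynomial.leadingCoeff, hd, h0]
  refine ⟨P.coeff (k + 2), ?_⟩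
  rw [← sub_eq_zero]
  by_contra hne
  set P1 := P - P.coeff (k + 2) • f with hP1
  have hS1 := red P h
  have hd2 : P1.natDegree ≠ k + 2 := hdz P1 hne (hcz P)
  by_cases hd1 : P1.natDegree = 1
  · -- the degree one case
    obtain ⟨l, hl, μ, hPe⟩ : ∃ l : ℂ, l ≠ 0 ∧ ∃ μ : ℂ,
        P1 = Polynomial.C l * Polynomial.X + Polynomial.C μ := by
      obtain ⟨l, hl, μ, h1⟩ := Polynomial.natDegree_eq_one.1 hd1
      exact ⟨l, hl, μ, h1.symm⟩
    set Q := LL (gf ℂ k) P1 with hQ
    have hSQ : ∀ m, max m0 1 ≤ m → (k + 1) ∣ m + ρ → SS (pC k) Q m = 0 := by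
      intro m hm hd
      rw [hQ, SS_LL hψ, hS1 m hm hd, mul_zero]
    set P2 := Q - Q.coeff (k + 2) • f with hP2
    have hS2 : ∀ m, max m0 1 ≤ m → (k + 1) ∣ m + ρ → SS (pC k) P2 m = 0 := by
      intro m hm hd
      rw [hP2, SS_sub, SS_Csmul, hSQ m hm hd, hSf m (by omega)]
      ring
    have hc2 : P2.coeff 2 ≠ 0 := by
      have hF' : Polynomial.derivative (FF (gf ℂ k)) =
          1 + Polynomial.C 2 * Polynomial.X + Polynomial.C ((k + 2 : ℕ) : ℂ) *
            Polynomial.X ^ (k + 1) := by
        have h2 : (Polynomial.C 2 : Polynomial ℂ) = 2 := map_ofNat _ 2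
        rw [FF_gf, h2]
        simp only [map_add, Polynomial.derivative_X, Polynomial.derivative_X_pow, map_natCast]
        push_cast
        ring
      have hQe : Q = Polynomial.C l * (Polynomial.X + Polynomial.X ^ 2 + Polynomial.X ^ (k + 2)) -
          (1 + Polynomial.C 2 * Polynomial.X + Polynomial.C ((k + 2 : ℕ) : ℂ) *
            Polynomial.X ^ (k + 1)) * (Polynomial.C l * Polynomial.X + Polynomial.C μ) := by
        rw [hQ, LL, hF', hPe, FF_gf]
        simp only [map_add, Polynomial.derivative_C_mul, Polynomial.derivative_X,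
          Polynomial.derivative_C]
        ring
      have hQ2 : Q = Polynomial.C (- μ) + Polynomial.C (-2 * μ) * Polynomial.X +
          Polynomial.C (-l) * Polynomial.X ^ 2 +
          Polynomial.C (-((k + 2 : ℕ) : ℂ) * μ) * Polynomial.X ^ (k + 1) +
          Polynomial.C (l * (1 - ((k + 2 : ℕ) : ℂ))) * Polynomial.X ^ (k + 2) := by
        have h2 : (Polynomial.C 2 : Polynomial ℂ) = 2 := map_ofNat _ 2
        rw [hQe]
        simp only [map_mul, map_neg, map_sub, map_one, h2]
        ring
      have hQc : Q.coeff (k + 2) = l * (1 - ((k + 2 : ℕ) : ℂ)) := by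
        rw [hQ2]
        simp only [Polynomial.coeff_add, Polynomial.coeff_C_mul, Polynomial.coeff_X_pow,
          Polynomial.coeff_X, Polynomial.coeff_C]
        rw [if_neg (by omega), if_neg (by omega), if_neg (by omega), if_neg (by omega),
          if_pos trivial]
        ring
      have hQ22 : Q.coeff 2 = -l := by
        rw [hQ2]
        simp only [Polynomial.coeff_add, Polynomial.coeff_C_mul, Polynomial.coeff_X_pow,
          Polynomial.coeff_X, Polynomial.coeff_C]
        rw [if_neg (by omega), if_neg (by omega), if_pos trivial, if_neg (by omega),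
          if_neg (by omega)]
        ring
      have hf2 : f.coeff 2 = 1 := by
        rw [hf, FF_gf]
        simp only [Polynomial.coeff_add, Polynomial.coeff_X_pow, Polynomial.coeff_X]
        rw [if_neg (by omega), if_pos trivial, if_neg (by omega)]
        ring
      rw [hP2, Polynomial.coeff_sub, Polynomial.coeff_smul, hQc, hQ22, hf2, smul_eq_mul, mul_one]
      have : -l - l * (1 - ((k + 2 : ℕ) : ℂ)) = l * k := by push_cast; ring
      rw [this]
      exact mul_ne_zero hl (by exact_mod_cast (by omega : k ≠ 0))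
    have hP2ne : P2 ≠ 0 := fun h0 => hc2 (by rw [h0, Polynomial.coeff_zero])
    refine case1 P2 (max m0 1) hP2ne (hdz P2 hP2ne (hcz Q)) (fun h1 => ?_) hS2
    exact hc2 (Polynomial.coeff_eq_zero_of_natDegree_lt (by omega))
  · exact case1 P1 (max m0 1) hne hd2 hd1 hS1

end

end Pool.Agent.helper59.LC
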