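import Pool.Agent.helper59.LC.Ann
import Pool.Agent.helper59.LC.Generic

/-!
# The Melnikov function
-/

open Set Filter Topology PowerSeries

namespace Pool.Agent.helper59.LC

noncomputable section

theorem int_exp (n m : ℕ) : ∫ θ in (0 : ℝ)..(2 * Real.pi),
    Complex.exp ((((n : ℂ) - 1 - m) * Complex.I) * θ) = if n = m + 1 then (2 * Real.pi : ℂ) else 0
    := by
  split_ifs with h
  · have : ((n : ℂ) - 1 - m) = 0 := by rw [h]; push_cast; ring
    simp [this]
  · have hc : (((n : ℂ) - 1 - m) * Complex.I) ≠ 0 := by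
      refine mul_ne_zero ?_ Complex.I_ne_zero
      intro h0
      apply h
      have : (n : ℂ) = ((m + 1 : ℕ) : ℂ) := by push_cast; linear_combination h0
      exact_mod_cast this
    rw [integral_exp_mul_complex hc]
    have h1 : Complex.exp ((((n : ℂ) - 1 - m) * Complex.I) * ((2 * Real.pi : ℝ) : ℂ)) = 1 := by
      rw [Complex.exp_eq_one_iff]
      refine ⟨(n : ℤ) - 1 - m, ?_⟩
      push_cast
      ring
    rw [h1]
    simp

theorem fourier {φ χ : ℂ⟦X⟧} {r : ℝ} (hr : 0 < r) (hφ : Conv r φ) (hχ : Conv r χ) :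
    ∫ θ in (0 : ℝ)..(2 * Real.pi), Complex.exp (-(θ * Complex.I)) *
      (ev (r * Complex.exp (θ * Complex.I)) φ *
        starRingEnd ℂ (ev (r * Complex.exp (θ * Complex.I)) χ)) =
      2 * Real.pi * r * ev ((r : ℂ) ^ 2)
        (PowerSeries.mk fun m => coeff (m + 1) φ * starRingEnd ℂ (coeff m χ)) := by
  set F : ℕ × ℕ → ℝ → ℂ := fun p θ => Complex.exp (-(θ * Complex.I)) *
    ((coeff p.1 φ * (r * Complex.exp (θ * Complex.I)) ^ p.1) *
      starRingEnd ℂ (coeff p.2 χ * (r * Complex.exp (θ * Complex.I)) ^ p.2)) with hF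
  have hn1 : ∀ θ : ℝ, ‖Complex.exp (-(θ * Complex.I))‖ = 1 := fun θ => by
    have : -((θ : ℂ) * Complex.I) = ((-θ : ℝ) : ℂ) * Complex.I := by push_cast; ring
    rw [this, Complex.norm_exp_ofReal_mul_I]
  have hw : ∀ θ : ℝ, ‖(r : ℂ) * Complex.exp (θ * Complex.I)‖ = r := norm_polar hr
  have hFn : ∀ p θ, ‖F p θ‖ = (‖coeff p.1 φ‖ * r ^ p.1) * (‖coeff p.2 χ‖ * r ^ p.2) := by
    intro p θ
    rw [hF]
    simp only
    rw [norm_mul, hn1, one_mul, norm_mul, norm_mul, norm_pow, hw, RCLike.norm_conj, norm_mul,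
      norm_pow, hw]
  have hsum : ∀ θ : ℝ, HasSum (fun p => F p θ) (Complex.exp (-(θ * Complex.I)) *
      (ev (r * Complex.exp (θ * Complex.I)) φ *
        starRingEnd ℂ (ev (r * Complex.exp (θ * Complex.I)) χ))) := by
    intro θ
    have s1 := hφ.norm_summable (hw θ).le
    have s2 := hχ.norm_summable (hw θ).le
    have s2' : Summable fun m => ‖starRingEnd ℂ
        (coeff m χ * ((r : ℂ) * Complex.exp (θ * Complex.I)) ^ m)‖ := by
      refine s2.congr fun m => ?_
      rw [RCLike.norm_conj]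
    have h1 : HasSum (fun m => coeff m φ * ((r : ℂ) * Complex.exp (θ * Complex.I)) ^ m)
        (ev (r * Complex.exp (θ * Complex.I)) φ) := (hφ.summable (hw θ).le).hasSum
    have h2 : HasSum (fun m => starRingEnd ℂ
        (coeff m χ * ((r : ℂ) * Complex.exp (θ * Complex.I)) ^ m))
        (starRingEnd ℂ (ev (r * Complex.exp (θ * Complex.I)) χ)) := by
      exact Complex.hasSum_conj'.2 (hχ.summable (hw θ).le).hasSum
    have h3 := summable_mul_of_summable_norm s1 s2'
    have h4 := h1.mul h2 h3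
    exact h4.mul_left (Complex.exp (-(θ * Complex.I)))
  have hS : Summable fun p : ℕ × ℕ => (‖coeff p.1 φ‖ * r ^ p.1) * (‖coeff p.2 χ‖ * r ^ p.2) :=
    Summable.mul_of_nonneg hφ hχ (fun _ => by positivity) (fun _ => by positivity)
  have hFc : ∀ p, Continuous (F p) := by
    intro p
    rw [hF]
    simp only
    have hconj : Continuous (starRingEnd ℂ) := Complex.continuous_conj
    fun_prop
  have key := intervalIntegral.hasSum_integral_of_dominated_convergence
    (μ := MeasureTheory.volume) (a := 0) (b := 2 * Real.pi) (F := F)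
    (f := fun θ : ℝ => Complex.exp (-(θ * Complex.I)) *
      (ev (r * Complex.exp (θ * Complex.I)) φ *
        starRingEnd ℂ (ev (r * Complex.exp (θ * Complex.I)) χ)))
    (fun p _ => (‖coeff p.1 φ‖ * r ^ p.1) * (‖coeff p.2 χ‖ * r ^ p.2))
    (fun p => (hFc p).aestronglyMeasurable)
    (fun p => Eventually.of_forall fun θ _ => (hFn p θ).le)
    (Eventually.of_forall fun θ _ => hS)
    (intervalIntegrable_const)
    (Eventually.of_forall fun θ _ => hsum θ)
  have hFi : ∀ p : ℕ × ℕ, ∫ θ in (0 : ℝ)..(2 * Real.pi), F p θ =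
      if p.1 = p.2 + 1 then 2 * Real.pi * (coeff p.1 φ * starRingEnd ℂ (coeff p.2 χ) *
        r ^ (p.1 + p.2)) else 0 := by
    rintro ⟨n, m⟩
    have e : ∀ θ : ℝ, F (n, m) θ = (coeff n φ * starRingEnd ℂ (coeff m χ) * r ^ (n + m)) *
        Complex.exp ((((n : ℂ) - 1 - m) * Complex.I) * θ) := by
      intro θ
      rw [hF]
      simp only
      rw [map_mul, map_pow, map_mul, Complex.conj_ofReal, ← Complex.exp_conj, map_mul,
        Complex.conj_ofReal, Complex.conj_I, mul_pow, mul_pow, ← Complex.exp_nat_mul,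
        ← Complex.exp_nat_mul]
      have e2 : Complex.exp ((((n : ℂ) - 1 - m) * Complex.I) * θ) =
          Complex.exp (-(θ * Complex.I)) * Complex.exp (n * (θ * Complex.I)) *
            Complex.exp (m * (θ * -Complex.I)) := by
        rw [← Complex.exp_add, ← Complex.exp_add]
        congr 1
        ring
      rw [e2, pow_add]
      ring
    simp_rw [e]
    rw [intervalIntegral.integral_const_mul, int_exp]
    split_ifs
    · ring
    · ring
  simp_rw [hFi] at key
  have hinj : Function.Injective fun m : ℕ => ((m + 1, m) : ℕ × ℕ) := fun a b h => by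
    simp only [Prod.mk.injEq] at h
    exact h.2
  have h3 := (hinj.hasSum_iff (f := fun p : ℕ × ℕ => if p.1 = p.2 + 1 then
    2 * (Real.pi : ℂ) * (coeff p.1 φ * starRingEnd ℂ (coeff p.2 χ) *
        (r : ℂ) ^ (p.1 + p.2)) else 0) (by
    rintro ⟨n, m⟩ hnm
    rw [if_neg]
    rintro h
    exact hnm ⟨m, by simp only at h ⊢; rw [h]⟩)).2 key
  rw [← h3.tsum_eq, ev, ← tsum_mul_left]
  refine tsum_congr fun m => ?_
  simp only [Function.comp_apply, if_true]
  rw [coeff_mk]
  ring

/-- the coefficients of the Melnikov function -/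
def sg (g : Polynomial ℂ) (p : ℕ × ℕ) : ℂ⟦X⟧ :=
  PowerSeries.mk fun m => SS (psi g) (Polynomial.X ^ p.1) m *
    starRingEnd ℂ (coeff m (psi g ^ p.2))

theorem sg_eq (g : Polynomial ℂ) (p : ℕ × ℕ) : sg g p =
    PowerSeries.mk fun m => coeff (m + 1) (psi g ^ p.1 * rec' (psi g)) *
      starRingEnd ℂ (coeff m (psi g ^ p.2)) := by
  rw [sg]
  simp only [SS, map_pow, Polynomial.aeval_X]

theorem conv_mk {φ χ : ℂ⟦X⟧} {r : ℝ} (hr : 0 < r) (hφ : Conv r φ) (hχ : Conv r χ) :
    Conv (r ^ 2) (PowerSeries.mk fun m => coeff (m + 1) φ * starRingEnd ℂ (coeff m χ)) := by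
  have h1 : Summable fun m => ‖coeff (m + 1) φ‖ * r ^ (m + 1) := (summable_nat_add_iff 1).2 hφ
  set S := ∑' m, ‖coeff m χ‖ * r ^ m with hS
  have h2 : ∀ m, ‖coeff m χ‖ * r ^ m ≤ S := fun m =>
    hχ.le_tsum m fun _ _ => by positivity
  refine Summable.of_nonneg_of_le (fun m => by positivity) (fun m => ?_) (h1.mul_left (S / r))
  rw [coeff_mk, norm_mul, RCLike.norm_conj]
  calc ‖coeff (m + 1) φ‖ * ‖coeff m χ‖ * (r ^ 2) ^ m =
      (‖coeff m χ‖ * r ^ m) / r * (‖coeff (m + 1) φ‖ * r ^ (m + 1)) := by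
        rw [← pow_mul, pow_succ]
        field_simp
        ring
    _ ≤ S / r * (‖coeff (m + 1) φ‖ * r ^ (m + 1)) := by
        gcongr
        exact h2 m

/-- the perturbation in the linearising coordinate -/
def GG (k : ℕ) (g : Polynomial ℂ) (c0 : ℝ) (γ : ℕ × ℕ → ℂ) (w : ℂ) : ℂ :=
  ev w (rec' (psi g)) * ((c0 : ℂ) * ev w (psi g) +
    ∑ p ∈ TT2 k, γ p * (ev w (psi g) ^ p.1 * starRingEnd ℂ (ev w (psi g)) ^ p.2))

/-- the reduced Melnikov function -/
def nu (k : ℕ) (g : Polynomial ℂ) (c0 : ℝ) (γ : ℕ × ℕ → ℂ) (s : ℝ) : ℝ :=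
  c0 + (∑ p ∈ TT2 k, γ p * ev (s : ℂ) (sg g p)).re

theorem ev_conv_continuous {r : ℝ} {φ : ℂ⟦X⟧} (h : Conv r φ) :
    ContinuousOn (fun w => ev w φ) (Metric.ball 0 r) := fun w hw => by
  rw [mem_ball_zero_iff] at hw
  exact (hasDerivAt_ev h hw).continuousAt.continuousWithinAt

theorem ev_contDiffOn {r : ℝ} {φ : ℂ⟦X⟧} (h : Conv r φ) :
    ContDiffOn ℝ 1 (fun w => ev w φ) (Metric.ball 0 r) := by
  have h1 : DifferentiableOn ℂ (fun w => ev w φ) (Metric.ball 0 r) := fun w hw => by
    rw [mem_ball_zero_iff] at hw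
    exact (hasDerivAt_ev h hw).differentiableAt.differentiableWithinAt
  exact (h1.contDiffOn Metric.isOpen_ball).restrict_scalars ℝ

theorem GG_contDiffOn {k : ℕ} {g : Polynomial ℂ} {r : ℝ} (h1 : Conv r (psi g))
    (h2 : Conv r (rec' (psi g))) (c0 : ℝ) (γ : ℕ × ℕ → ℂ) :
    ContDiffOn ℝ 1 (GG k g c0 γ) (Metric.ball 0 r) := by
  have e1 := ev_contDiffOn h1
  have e2 := ev_contDiffOn h2
  have e3 : ContDiffOn ℝ 1 (fun w => starRingEnd ℂ (ev w (psi g))) (Metric.ball 0 r) :=
    (Complex.conjCLE : ℂ →L[ℝ] ℂ).contDiff.comp_contDiffOn e1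
  refine e2.mul ((contDiffOn_const.mul e1).add (ContDiffOn.sum fun p _ => ?_))
  exact contDiffOn_const.mul ((e1.pow _).mul (e3.pow _))

/-- **Melnikov formula** -/
theorem melnikov {k : ℕ} {g : Polynomial ℂ} {R : ℝ} (h1 : Conv R (psi g))
    (h2 : Conv R (rec' (psi g))) (c0 : ℝ) (γ : ℕ × ℕ → ℂ) {r : ℝ} (hr : 0 < r) (hrR : r < R) :
    ∫ θ in (0 : ℝ)..(2 * Real.pi), AA (GG k g c0 γ) θ r =
      2 * Real.pi * r * nu k g c0 γ (r ^ 2) := by
  have hw : ∀ θ : ℝ, ‖(r : ℂ) * Complex.exp (θ * Complex.I)‖ = r := norm_polar hr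
  have hwR : ∀ θ : ℝ, ‖(r : ℂ) * Complex.exp (θ * Complex.I)‖ ≤ r := fun θ => (hw θ).le
  have c1 : Conv r (psi g) := h1.mono hr.le hrR.le
  have c2 : Conv r (rec' (psi g)) := h2.mono hr.le hrR.le
  have c3 : Conv r (1 : ℂ⟦X⟧) := by
    have := conv_C r 1
    rwa [map_one] at this
  -- continuity of the integrands
  have hcont : ∀ {φ : ℂ⟦X⟧}, Conv R φ → Continuous fun θ : ℝ =>
      ev ((r : ℂ) * Complex.exp (θ * Complex.I)) φ := by
    intro φ hφ
    refine (ev_conv_continuous hφ).comp_continuous (by fun_prop) fun θ => ?_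
    rw [mem_ball_zero_iff, hw]
    exact hrR
  have hR0 : 0 ≤ R := hr.le.trans hrR.le
  have hcexp : Continuous fun θ : ℝ => Complex.exp (-(θ * Complex.I)) := by fun_prop
  have hI : ∀ {φ χ : ℂ⟦X⟧}, Conv R φ → Conv R χ → Continuous fun θ : ℝ =>
      Complex.exp (-(θ * Complex.I)) * (ev (r * Complex.exp (θ * Complex.I)) φ *
        starRingEnd ℂ (ev (r * Complex.exp (θ * Complex.I)) χ)) := by
    intro φ χ hφ hχ
    exact hcexp.mul ((hcont hφ).mul (Complex.continuous_conj.comp (hcont hχ)))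
  have c3R : Conv R (1 : ℂ⟦X⟧) := by
    have := conv_C R 1
    rwa [map_one] at this
  have cp : ∀ i, Conv R (psi g ^ i * rec' (psi g)) := fun i => (h1.pow hR0 i).mul hR0 h2
  have cpr : ∀ i, Conv r (psi g ^ i * rec' (psi g)) := fun i => (c1.pow hr.le i).mul hr.le c2
  -- the complex integral
  have hint : ∫ θ in (0 : ℝ)..(2 * Real.pi), Complex.exp (-(θ * Complex.I)) *
      GG k g c0 γ (r * Complex.exp (θ * Complex.I)) =
      2 * Real.pi * r * (c0 + ∑ p ∈ TT2 k, γ p * ev ((r : ℂ) ^ 2) (sg g p)) := by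
    have e : ∀ θ : ℝ, Complex.exp (-(θ * Complex.I)) *
        GG k g c0 γ (r * Complex.exp (θ * Complex.I)) =
        (c0 : ℂ) * (Complex.exp (-(θ * Complex.I)) *
          (ev (r * Complex.exp (θ * Complex.I)) (psi g ^ 1 * rec' (psi g)) *
          starRingEnd ℂ (ev (r * Complex.exp (θ * Complex.I)) 1))) +
        ∑ p ∈ TT2 k, γ p * (Complex.exp (-(θ * Complex.I)) *
          (ev (r * Complex.exp (θ * Complex.I)) (psi g ^ p.1 * rec' (psi g)) *
          starRingEnd ℂ (ev (r * Complex.exp (θ * Complex.I)) (psi g ^ p.2)))) := by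
      intro θ
      rw [GG, ev_one, map_one, mul_one, ev_mul (c1.pow hr.le 1) c2 (hwR θ), pow_one]
      rw [mul_add, mul_add, Finset.mul_sum, Finset.mul_sum]
      congr 1
      · ring
      · refine Finset.sum_congr rfl fun p _ => ?_
        rw [ev_mul (c1.pow hr.le _) c2 (hwR θ), ev_pow hr.le c1 _ (hwR θ),
          ev_pow hr.le c1 _ (hwR θ), map_pow]
        ring
    simp_rw [e]
    rw [intervalIntegral.integral_add, intervalIntegral.integral_const_mul,
      intervalIntegral.integral_finsetSum]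
    · rw [fourier hr (cpr 1) c3, mul_add, Finset.mul_sum]
      congr 1
      · have e2 : (PowerSeries.mk fun m => coeff (m + 1) (psi g ^ 1 * rec' (psi g)) *
            starRingEnd ℂ (coeff m (1 : ℂ⟦X⟧))) = 1 := by
          ext m
          rw [coeff_mk, coeff_one]
          rcases m with _ | m
          · have h3 := (isPsi_psi g).mul_rec
            have h4 := (isPsi_psi g).2.1
            have h0 : coeff 0 (psi g) = 0 := by
              have := (isPsi_psi g).1
              rwa [X_dvd_iff, ← coeff_zero_eq_constantCoeff_apply] at this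
            have h5 : coeff 0 (rec' (psi g)) = 1 := by
              have h6 := congrArg (coeff 0) h3
              simpa [coeff_mul, coeff_derivative, h4] using h6
            rw [pow_one, coeff_mul, Finset.Nat.sum_antidiagonal_eq_sum_range_succ_mk]
            simp [Finset.sum_range_succ, h0, h4, h5]
          · simp
        rw [e2, ev_one]
        ring
      · refine Finset.sum_congr rfl fun p _ => ?_
        rw [intervalIntegral.integral_const_mul, fourier hr (cpr p.1) (c1.pow hr.le p.2), sg_eq]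
        ring
    · intro p _
      exact ((continuous_const.mul (hI (cp _) (h1.pow hR0 _)))).intervalIntegrable _ _
    · exact (continuous_const.mul (hI (cp _) c3R)).intervalIntegrable _ _
    · refine Continuous.intervalIntegrable ?_ _ _
      exact continuous_finsetSum _ fun p _ => continuous_const.mul (hI (cp _) (h1.pow hR0 _))
  have hGc : Continuous fun θ : ℝ => Complex.exp (-(θ * Complex.I)) *
      GG k g c0 γ (r * Complex.exp (θ * Complex.I)) := by
    refine hcexp.mul ((GG_contDiffOn h1 h2 c0 γ).continuousOn.comp_continuous (by fun_prop)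
      fun θ => ?_)
    rw [mem_ball_zero_iff, hw]
    exact hrR
  have hre : ∫ θ in (0 : ℝ)..(2 * Real.pi), AA (GG k g c0 γ) θ r =
      (∫ θ in (0 : ℝ)..(2 * Real.pi), Complex.exp (-(θ * Complex.I)) *
      GG k g c0 γ (r * Complex.exp (θ * Complex.I))).re := by
    have := Complex.reCLM.intervalIntegral_comp_comm (μ := MeasureTheory.volume)
      (hGc.intervalIntegrable 0 (2 * Real.pi))
    exact this
  rw [hre, hint, nu]
  have e3 : (2 * (Real.pi : ℂ) * r) = ((2 * Real.pi * r : ℝ) : ℂ) := by push_cast; ring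
  rw [e3, Complex.re_ofReal_mul, Complex.add_re, Complex.ofReal_re, Complex.ofReal_pow]

/-- the derivative of the Melnikov integral -/
theorem melnikov_deriv {k : ℕ} {g : Polynomial ℂ} {R : ℝ} (h1 : Conv R (psi g))
    (h2 : Conv R (rec' (psi g))) (c0 : ℝ) (γ : ℕ × ℕ → ℂ) {r : ℝ} (hr : 0 < r) (hrR : r < R)
    {d : ℝ} (hd : HasDerivAt (nu k g c0 γ) d (r ^ 2)) (h0 : nu k g c0 γ (r ^ 2) = 0) :
    ∫ θ in (0 : ℝ)..(2 * Real.pi), deriv (AA (GG k g c0 γ) θ) r = 4 * Real.pi * r ^ 2 * d := by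
  set G := GG k g c0 γ with hG
  have hGd : ContDiffOn ℝ 1 G {w | 0 < ‖w‖ ∧ ‖w‖ < R} := by
    refine (GG_contDiffOn h1 h2 c0 γ).mono fun w hw => ?_
    rw [mem_ball_zero_iff]
    exact hw.2
  obtain ⟨hcA, -⟩ := contDiffOn_AA le_rfl hGd
  obtain ⟨A', hA'd, hA'c, hA'b, -⟩ := per_data hcA (AA_per G)
  obtain ⟨α, β, hα, hαr, hrβ, hβ⟩ : ∃ α β, 0 < α ∧ α < r ∧ r < β ∧ β < R :=
    ⟨r / 2, (r + R) / 2, by positivity, by linarith, by linarith, by linarith⟩
  obtain ⟨C, hC⟩ := hA'b α β hα hβ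
  have hAc : ∀ x, 0 < x → x < R → Continuous fun θ => AA G θ x := fun x hx1 hx2 =>
    hcA.continuousOn.comp_continuous (f := fun θ : ℝ => (θ, x))
      (continuous_id.prodMk continuous_const) fun θ => ⟨hx1, hx2⟩
  have hA'cr : Continuous fun θ => A' θ r :=
    hA'c.comp_continuous (f := fun θ : ℝ => (θ, r))
      (continuous_id.prodMk continuous_const) fun θ => ⟨hr, hrR⟩
  have key := intervalIntegral.hasDerivAt_integral_of_dominated_loc_of_deriv_le
    (μ := MeasureTheory.volume) (a := 0) (b := 2 * Real.pi)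
    (F := fun x θ => AA G θ x) (F' := fun x θ => A' θ x) (x₀ := r) (s := Ioo α β)
    (bound := fun _ => C) (Ioo_mem_nhds hαr hrβ)
    (by
      filter_upwards [Ioo_mem_nhds hαr hrβ] with x hx
      exact (hAc x (hα.trans hx.1) (hx.2.trans hβ)).aestronglyMeasurable)
    ((hAc r hr hrR).intervalIntegrable _ _)
    hA'cr.aestronglyMeasurable
    (Eventually.of_forall fun θ _ x hx => (hC θ x hx.1.le hx.2.le).2)
    intervalIntegrable_const
    (Eventually.of_forall fun θ _ x hx => hA'd θ x (hα.trans hx.1) (hx.2.trans hβ))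
  have h3 : HasDerivAt (fun x => ∫ θ in (0 : ℝ)..(2 * Real.pi), AA G θ x)
      (4 * Real.pi * r ^ 2 * d) r := by
    have h4 : HasDerivAt (fun x : ℝ => 2 * Real.pi * x * nu k g c0 γ (x ^ 2))
        (4 * Real.pi * r ^ 2 * d) r := by
      have h5 : HasDerivAt (fun x : ℝ => nu k g c0 γ (x ^ 2)) (d * (2 * r)) r := by
        have h6 := hasDerivAt_pow 2 r
        have h7 := HasDerivAt.comp r (h₂ := nu k g c0 γ) (h := fun x : ℝ => x ^ 2) hd h6
        refine h7.congr_deriv ?_
        norm_num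
      have h8 : HasDerivAt (fun x : ℝ => 2 * Real.pi * x) (2 * Real.pi) r := by
        have := (hasDerivAt_id r).const_mul (2 * Real.pi)
        rwa [mul_one] at this
      have h9 := h8.fun_mul h5
      refine h9.congr_deriv ?_
      rw [h0]
      ring
    refine h4.congr_of_eventuallyEq ?_
    filter_upwards [Ioo_mem_nhds hαr hrβ] with x hx
    exact melnikov h1 h2 c0 γ (hα.trans hx.1) (hx.2.trans hβ)
  have h10 := key.2.unique h3
  rw [← h10]
  refine intervalIntegral.integral_congr fun θ _ => ?_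
  exact (hA'd θ r hr hrR).deriv

end

end Pool.Agent.helper59.LC
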