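import Pool.Agent.helper59.LC.Scalar

/-!
# Polar coordinates
-/

open Set Filter Topology

namespace Pool.Agent.helper59.LC

noncomputable section

/-- reparametrisation -/
theorem reparam {φ φ' : ℝ → ℝ} {c : ℝ} (hc : 0 < c) (hd : ∀ t, HasDerivAt φ (φ' t) t)
    (hb : ∀ t, c ≤ φ' t) : ∃ χ : ℝ → ℝ, (∀ t, χ (φ t) = t) ∧ (∀ x, φ (χ x) = x) ∧
      ∀ x, HasDerivAt χ (φ' (χ x))⁻¹ x := by
  have hcont : Continuous φ := continuous_iff_continuousAt.2 fun t => (hd t).continuousAt
  have hmono : StrictMono φ := strictMono_of_deriv_pos fun t => by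
    rw [(hd t).deriv]
    exact hc.trans_le (hb t)
  have hge : ∀ s t, s ≤ t → c * (t - s) ≤ φ t - φ s := by
    intro s t hst
    refine Convex.mul_sub_le_image_sub_of_le_deriv convex_univ hcont.continuousOn
      (fun x _ => (hd x).differentiableAt.differentiableWithinAt) (fun x _ => ?_) s (mem_univ _)
      t (mem_univ _) hst
    rw [(hd x).deriv]
    exact hb x
  have htop : Tendsto φ atTop atTop := by
    refine tendsto_atTop_mono' atTop (f₁ := fun t => c * t + φ 0) ?_ ?_
    · filter_upwards [eventually_ge_atTop (0 : ℝ)] with t ht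
      have := hge 0 t ht
      linarith
    · exact tendsto_atTop_add_const_right _ _ (tendsto_id.const_mul_atTop hc)
  have hbot : Tendsto φ atBot atBot := by
    refine tendsto_atBot_mono' atBot (f₁ := fun t => c * t + φ 0) ?_ ?_
    · filter_upwards [eventually_le_atBot (0 : ℝ)] with t ht
      have := hge t 0 ht
      linarith
    · exact tendsto_atBot_add_const_right _ _ (tendsto_id.const_mul_atBot hc)
  have hsurj : Function.Surjective φ := hcont.surjective htop hbot
  set e := StrictMono.orderIsoOfSurjective φ hmono hsurj with he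
  have h1 : ∀ t, e.symm (φ t) = t := fun t => e.symm_apply_apply t
  have h2 : ∀ x, φ (e.symm x) = x := fun x => e.apply_symm_apply x
  refine ⟨e.symm, h1, h2, fun x => ?_⟩
  exact HasDerivAt.of_local_left_inverse e.symm.continuous.continuousAt (hd _)
    (hc.trans_le (hb _)).ne' (Eventually.of_forall h2)

/-- the radial part -/
def AA (G : ℂ → ℂ) (θ r : ℝ) : ℝ :=
  (Complex.exp (-(θ * Complex.I)) * G (r * Complex.exp (θ * Complex.I))).re

/-- the angular part -/
def HH (G : ℂ → ℂ) (θ r : ℝ) : ℝ :=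
  (Complex.exp (-(θ * Complex.I)) * G (r * Complex.exp (θ * Complex.I))).im / r

/-- the right hand side of the scalar equation, without the factor `ε` -/
def WW (G : ℂ → ℂ) (ε θ r : ℝ) : ℝ := AA G θ r / (1 + ε * HH G θ r)

/-- the vector field -/
def VF (G : ℂ → ℂ) (ε : ℝ) (w : ℂ) : ℂ := Complex.I * w + ε * G w

theorem exp_neg_mul (θ : ℝ) :
    Complex.exp (-(θ * Complex.I)) * Complex.exp (θ * Complex.I) = 1 := by
  rw [← Complex.exp_add, neg_add_cancel, Complex.exp_zero]

theorem AA_HH (G : ℂ → ℂ) (θ : ℝ) {r : ℝ} (hr : r ≠ 0) :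
    ((AA G θ r : ℝ) : ℂ) + Complex.I * (r * (HH G θ r : ℝ)) =
      Complex.exp (-(θ * Complex.I)) * G (r * Complex.exp (θ * Complex.I)) := by
  rw [AA, HH]
  set z := Complex.exp (-(θ * Complex.I)) * G (r * Complex.exp (θ * Complex.I))
  have : ((r : ℂ) * ((z.im / r : ℝ) : ℂ)) = z.im := by
    rw [← Complex.ofReal_mul, mul_div_cancel₀ _ hr]
  rw [this, mul_comm]
  exact Complex.re_add_im z

theorem norm_polar {r : ℝ} (hr : 0 < r) (θ : ℝ) : ‖(r : ℂ) * Complex.exp (θ * Complex.I)‖ = r := by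
  rw [norm_mul, Complex.norm_exp_ofReal_mul_I, mul_one, Complex.norm_real,
    Real.norm_of_nonneg hr.le]

theorem exp_period (θ : ℝ) : Complex.exp (((θ + 2 * Real.pi : ℝ) : ℂ) * Complex.I) =
    Complex.exp (θ * Complex.I) := by
  push_cast
  rw [add_mul, Complex.exp_add, Complex.exp_two_pi_mul_I, mul_one]

theorem AA_per (G : ℂ → ℂ) (θ r : ℝ) : AA G (θ + 2 * Real.pi) r = AA G θ r := by
  rw [AA, AA, Complex.exp_neg, exp_period, Complex.exp_neg]

theorem HH_per (G : ℂ → ℂ) (θ r : ℝ) : HH G (θ + 2 * Real.pi) r = HH G θ r := by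
  rw [HH, HH, Complex.exp_neg, exp_period, Complex.exp_neg]

/-- from scalar to planar -/
theorem to_planar {G : ℂ → ℂ} {ε a b : ℝ} (ha : 0 ≤ a)
    (hG : ContinuousOn G {w | a < ‖w‖ ∧ ‖w‖ < b})
    (hH : ∀ θ r, a < r → r < b → |ε * HH G θ r| ≤ 1 / 2)
    {ρ : ℝ → ℝ} (hρ : ∀ θ, HasDerivAt ρ (ε * WW G ε θ (ρ θ)) θ) (hab : ∀ θ, a < ρ θ ∧ ρ θ < b)
    (hper : ∀ θ, ρ (θ + 2 * Real.pi) = ρ θ) :
    ∃ T : ℝ, 0 < T ∧ ∃ w : ℝ → ℂ, (∀ t, HasDerivAt w (VF G ε (w t)) t) ∧
      (∀ t, w (t + T) = w t) ∧ range w = range fun θ : ℝ => (ρ θ : ℂ) * Complex.exp (θ * Complex.I)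
        := by
  have hρ0 : ∀ θ, 0 < ρ θ := fun θ => ha.trans_lt (hab θ).1
  have hρc : Continuous ρ := continuous_iff_continuousAt.2 fun t => (hρ t).continuousAt
  set z : ℝ → ℂ := fun θ => (ρ θ : ℂ) * Complex.exp (θ * Complex.I) with hz
  have hzc : Continuous z := by
    rw [hz]
    fun_prop
  have hGz : Continuous fun θ => G (z θ) := by
    refine hG.comp_continuous hzc fun θ => ?_
    rw [mem_ofPred_eq, hz]
    simp only
    rw [norm_polar (hρ0 θ)]
    exact hab θ
  have hHc : Continuous fun θ => HH G θ (ρ θ) := by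
    have : (fun θ => HH G θ (ρ θ)) = fun θ : ℝ =>
        (Complex.exp (-(θ * Complex.I)) * G (z θ)).im / ρ θ := rfl
    rw [this]
    refine Continuous.div ?_ hρc fun θ => (hρ0 θ).ne'
    refine Complex.continuous_im.comp (Continuous.mul ?_ hGz)
    fun_prop
  set p : ℝ → ℝ := fun θ => (1 + ε * HH G θ (ρ θ))⁻¹ with hp
  have hden : ∀ θ, 1 / 2 ≤ 1 + ε * HH G θ (ρ θ) ∧ 1 + ε * HH G θ (ρ θ) ≤ 3 / 2 := by
    intro θ
    have := abs_le.1 (hH θ (ρ θ) (hab θ).1 (hab θ).2)
    constructor <;> linarith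
  have hpc : Continuous p := by
    refine Continuous.inv₀ (continuous_const.add (continuous_const.mul hHc)) fun θ => ?_
    have := (hden θ).1
    positivity
  have hplb : ∀ θ, 2 / 3 ≤ p θ := by
    intro θ
    rw [hp]
    simp only
    rw [show (2 : ℝ) / 3 = (3 / 2)⁻¹ by norm_num]
    have h1 := (hden θ).1
    exact inv_anti₀ (by linarith) (hden θ).2
  have hφd : ∀ θ, HasDerivAt (fun θ => ∫ s in (0 : ℝ)..θ, p s) (p θ) θ := fun θ =>
    intervalIntegral.integral_hasDerivAt_right (hpc.intervalIntegrable _ _)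
      (hpc.stronglyMeasurableAtFilter _ _) hpc.continuousAt
  set φ : ℝ → ℝ := fun θ => ∫ s in (0 : ℝ)..θ, p s with hφ
  obtain ⟨τ, h1, h2, h3⟩ := reparam (by norm_num : (0 : ℝ) < 2 / 3) hφd hplb
  have hpper : Function.Periodic p (2 * Real.pi) := by
    intro θ
    rw [hp]
    simp only
    rw [hper, HH_per]
  have hφper : ∀ θ, φ (θ + 2 * Real.pi) = φ θ + φ (2 * Real.pi) := by
    intro θ
    rw [hφ]
    simp only
    rw [← intervalIntegral.integral_add_adjacent_intervals (b := θ)
      (hpc.intervalIntegrable _ _) (hpc.intervalIntegrable _ _),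
      hpper.intervalIntegral_add_eq θ 0, zero_add]
  have hpi : (0 : ℝ) < 2 * Real.pi := by positivity
  have hT : 0 < φ (2 * Real.pi) := by
    have hmono : StrictMono φ := strictMono_of_deriv_pos fun t => by
      rw [(hφd t).deriv]
      have := hplb t
      linarith
    have := hmono hpi
    have h0 : φ 0 = 0 := by rw [hφ]; simp
    rwa [h0] at this
  have hzper : ∀ θ, z (θ + 2 * Real.pi) = z θ := by
    intro θ
    rw [hz]
    simp only
    rw [hper, exp_period]
  refine ⟨φ (2 * Real.pi), hT, fun t => z (τ t), fun t => ?_, fun t => ?_, ?_⟩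
  · have hz' : HasDerivAt z (((ε * WW G ε (τ t) (ρ (τ t)) : ℝ) : ℂ) * Complex.exp (τ t * Complex.I) +
        (ρ (τ t) : ℂ) * (Complex.exp (τ t * Complex.I) * Complex.I)) (τ t) := by
      have e1 : HasDerivAt (fun θ : ℝ => (ρ θ : ℂ)) ((ε * WW G ε (τ t) (ρ (τ t)) : ℝ) : ℂ) (τ t) :=
        (hρ (τ t)).ofReal_comp
      have e2 : HasDerivAt (fun θ : ℝ => Complex.exp (θ * Complex.I))
          (Complex.exp (τ t * Complex.I) * Complex.I) (τ t) := by
        have e3 : HasDerivAt (fun θ : ℝ => (θ : ℂ) * Complex.I) Complex.I (τ t) := by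
          have := (Complex.ofRealCLM.hasDerivAt (x := τ t)).mul_const Complex.I
          simpa using this
        exact e3.cexp
      exact e1.mul e2
    have h4 := hz'.scomp t (h3 t)
    refine h4.congr_deriv ?_
    set θ := τ t with hθ
    have hd0 := (hden θ).1
    have hne : (1 + ε * HH G θ (ρ θ)) ≠ 0 := by linarith
    have e5 : (p θ)⁻¹ = 1 + ε * HH G θ (ρ θ) := by rw [hp]; simp
    rw [e5, Complex.real_smul, VF]
    have e6 := AA_HH G θ (hρ0 θ).ne'
    have e7 : (((1 + ε * HH G θ (ρ θ) : ℝ) : ℂ)) * ((ε * WW G ε θ (ρ θ) : ℝ) : ℂ) =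
        ((ε * AA G θ (ρ θ) : ℝ) : ℂ) := by
      rw [← Complex.ofReal_mul, WW]
      congr 1
      field_simp
    have e8 : G (z θ) = Complex.exp (θ * Complex.I) * (((AA G θ (ρ θ) : ℝ) : ℂ) +
        Complex.I * (ρ θ * (HH G θ (ρ θ) : ℝ))) := by
      rw [e6, ← mul_assoc, mul_comm (Complex.exp (θ * Complex.I)), exp_neg_mul, one_mul]
    rw [e8, mul_add, ← mul_assoc, e7]
    simp only [hz]
    push_cast
    ring
  · simp only
    have : τ (t + φ (2 * Real.pi)) = τ t + 2 * Real.pi := by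
      rw [← h1 (τ t + 2 * Real.pi), hφper, h2]
    rw [this, hzper]
  · apply Set.Subset.antisymm
    · rintro _ ⟨t, rfl⟩
      exact ⟨τ t, rfl⟩
    · rintro _ ⟨θ, rfl⟩
      refine ⟨φ θ, ?_⟩
      simp only [h1]

/-- from planar to scalar -/
theorem to_scalar {G : ℂ → ℂ} {ε a b : ℝ} (ha : 0 ≤ a)
    (hG : ContinuousOn G {w | a < ‖w‖ ∧ ‖w‖ < b})
    (hH : ∀ θ r, a < r → r < b → |ε * HH G θ r| ≤ 1 / 2)
    {w : ℝ → ℂ} (hw : ∀ t, HasDerivAt w (VF G ε (w t)) t) (hab : ∀ t, a < ‖w t‖ ∧ ‖w t‖ < b)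
    {T : ℝ} (hT : 0 < T) (hper : ∀ t, w (t + T) = w t) :
    ∃ σ : ℝ → ℝ, (∀ θ, HasDerivAt σ (ε * WW G ε θ (σ θ)) θ) ∧ (∀ θ, a < σ θ ∧ σ θ < b) ∧
      (∃ K : ℕ, 1 ≤ K ∧ ∀ θ, σ (θ + 2 * Real.pi * K) = σ θ) ∧
      range w = range fun θ : ℝ => (σ θ : ℂ) * Complex.exp (θ * Complex.I) := by
  have hw0 : ∀ t, w t ≠ 0 := fun t h0 => by
    have := (hab t).1
    rw [h0, norm_zero] at this
    linarith
  have hwc : Continuous w := continuous_iff_continuousAt.2 fun t => (hw t).continuousAt
  have hGw : Continuous fun t => G (w t) := hG.comp_continuous hwc hab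
  set u : ℝ → ℂ := fun t => VF G ε (w t) / w t with hu
  have huc : Continuous u := by
    refine Continuous.div ?_ hwc hw0
    exact (continuous_const.mul hwc).add (continuous_const.mul hGw)
  have hLd : ∀ t, HasDerivAt (fun t => ∫ s in (0 : ℝ)..t, u s) (u t) t := fun t =>
    intervalIntegral.integral_hasDerivAt_right (huc.intervalIntegrable _ _)
      (huc.stronglyMeasurableAtFilter _ _) huc.continuousAt
  set L : ℝ → ℂ := fun t => ∫ s in (0 : ℝ)..t, u s with hL
  have hL0 : L 0 = 0 := by rw [hL]; simp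
  have hwL : ∀ t, w t = w 0 * Complex.exp (L t) := by
    have hder : ∀ t, HasDerivAt (fun t => w t * Complex.exp (-L t)) 0 t := by
      intro t
      have h1 := (hw t).fun_mul (hLd t).fun_neg.cexp
      refine h1.congr_deriv ?_
      rw [hu]
      simp only
      have := hw0 t
      field_simp
      ring
    intro t
    have h1 := is_const_of_deriv_eq_zero (f := fun t => w t * Complex.exp (-L t))
      (fun t => (hder t).differentiableAt) (fun t => (hder t).deriv) t 0
    simp only [hL0, neg_zero, Complex.exp_zero, mul_one] at h1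
    rw [← h1, mul_assoc, ← Complex.exp_add, neg_add_cancel, Complex.exp_zero, mul_one]
  set r : ℝ → ℝ := fun t => ‖w 0‖ * Real.exp (L t).re with hr
  set Θ : ℝ → ℝ := fun t => (w 0).arg + (L t).im with hΘ
  have hwpolar : ∀ t, w t = (r t : ℂ) * Complex.exp (Θ t * Complex.I) := by
    intro t
    rw [hwL t, hr, hΘ]
    simp only
    conv_lhs => rw [← Complex.norm_mul_exp_arg_mul_I (w 0)]
    push_cast
    rw [mul_assoc, mul_assoc, ← Complex.exp_add, ← Complex.exp_add]
    congr 2
    conv_lhs => rw [← Complex.re_add_im (L t)]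
    ring
  have hr0 : ∀ t, 0 < r t := fun t => mul_pos (norm_pos_iff.2 (hw0 0)) (Real.exp_pos _)
  have hrn : ∀ t, ‖w t‖ = r t := fun t => by
    conv_lhs => rw [hwpolar t]
    exact norm_polar (hr0 t) _
  have hu1 : ∀ t, u t = Complex.I + ε * (((AA G (Θ t) (r t) : ℝ) : ℂ) +
        Complex.I * (r t * (HH G (Θ t) (r t) : ℝ))) / r t := by
    intro t
    have hrc : (r t : ℂ) ≠ 0 := by exact_mod_cast (hr0 t).ne'
    rw [AA_HH G (Θ t) (hr0 t).ne', ← hwpolar t, hu]
    simp only [VF]
    have h2 : (r t : ℂ) = w t * Complex.exp (-(Θ t * Complex.I)) := by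
      conv_rhs => rw [hwpolar t]
      rw [mul_assoc, mul_comm (Complex.exp (Θ t * Complex.I)), exp_neg_mul, mul_one]
    have hwt := hw0 t
    have hex : Complex.exp (-(Θ t * Complex.I)) ≠ 0 := Complex.exp_ne_zero _
    rw [h2]
    field_simp
  have hure : ∀ t, (u t).re = ε * AA G (Θ t) (r t) / r t := by
    intro t
    have hrc : (r t : ℂ) ≠ 0 := by exact_mod_cast (hr0 t).ne'
    have : u t = ((ε * AA G (Θ t) (r t) / r t : ℝ) : ℂ) +
        ((1 + ε * HH G (Θ t) (r t) : ℝ) : ℂ) * Complex.I := by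
      rw [hu1]
      push_cast
      field_simp
      ring
    rw [this, Complex.add_re, Complex.ofReal_re, Complex.re_ofReal_mul, Complex.I_re, mul_zero,
      add_zero]
  have huim : ∀ t, (u t).im = 1 + ε * HH G (Θ t) (r t) := by
    intro t
    have hrc : (r t : ℂ) ≠ 0 := by exact_mod_cast (hr0 t).ne'
    have : u t = ((ε * AA G (Θ t) (r t) / r t : ℝ) : ℂ) +
        ((1 + ε * HH G (Θ t) (r t) : ℝ) : ℂ) * Complex.I := by
      rw [hu1]
      push_cast
      field_simp
      ring
    rw [this, Complex.add_im, Complex.ofReal_im, Complex.im_ofReal_mul, Complex.I_im, mul_one,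
      zero_add]
  have hrab : ∀ t, a < r t ∧ r t < b := fun t => by rw [← hrn]; exact hab t
  have hΘd : ∀ t, HasDerivAt Θ (1 + ε * HH G (Θ t) (r t)) t := by
    intro t
    have h3 : HasDerivAt (fun t => (L t).im) (u t).im t := by
      have := (Complex.imCLM.hasFDerivAt (x := L t)).comp_hasDerivAt t (hLd t)
      exact this
    rw [← huim]
    exact h3.const_add _
  have hrd : ∀ t, HasDerivAt r (ε * AA G (Θ t) (r t)) t := by
    intro t
    have h3 : HasDerivAt (fun t => (L t).re) (u t).re t := by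
      have := (Complex.reCLM.hasFDerivAt (x := L t)).comp_hasDerivAt t (hLd t)
      exact this
    have h4 := (h3.exp).const_mul ‖w 0‖
    refine h4.congr_deriv ?_
    rw [← mul_assoc, hure]
    have := (hr0 t).ne'
    change r t * _ = _
    field_simp
  have hΘlb : ∀ t, 1 / 2 ≤ 1 + ε * HH G (Θ t) (r t) := fun t => by
    have := abs_le.1 (hH (Θ t) (r t) (hrab t).1 (hrab t).2)
    linarith
  obtain ⟨χ, h1, h2, h3⟩ := reparam (by norm_num : (0 : ℝ) < 1 / 2) hΘd hΘlb
  have huper : Function.Periodic u T := by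
    intro t
    rw [hu]
    simp only
    rw [hper]
  have hLper : ∀ t, L (t + T) = L t + L T := by
    intro t
    rw [hL]
    simp only
    rw [← intervalIntegral.integral_add_adjacent_intervals (b := t)
      (huc.intervalIntegrable _ _) (huc.intervalIntegrable _ _),
      huper.intervalIntegral_add_eq t 0, zero_add]
  have hexpT : Complex.exp (L T) = 1 := by
    have h4 := hwL T
    have h5 : w T = w 0 := by have := hper 0; rwa [zero_add] at this
    rw [h5] at h4
    have h6 : w 0 * (Complex.exp (L T) - 1) = 0 := by linear_combination -h4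
    exact sub_eq_zero.1 ((mul_eq_zero.1 h6).resolve_left (hw0 0))
  obtain ⟨n, hn⟩ := Complex.exp_eq_one_iff.1 hexpT
  have hreT : (L T).re = 0 := by
    rw [hn]
    simp
  have himT : (L T).im = 2 * Real.pi * n := by
    rw [hn]
    simp
    ring
  have hmono : StrictMono Θ := strictMono_of_deriv_pos fun t => by
    rw [(hΘd t).deriv]
    have := hΘlb t
    linarith
  have hnpos : 0 < n := by
    have h7 := hmono hT
    rw [hΘ] at h7
    simp only [hL0, Complex.zero_im, add_zero] at h7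
    rw [himT] at h7
    have h8 : (0 : ℝ) < 2 * Real.pi * n := by linarith
    have h9 : (0 : ℝ) < n := by
      by_contra hc
      push Not at hc
      nlinarith [Real.pi_pos]
    exact_mod_cast h9
  have hnN : ((n.toNat : ℕ) : ℝ) = (n : ℝ) := by
    have : ((n.toNat : ℕ) : ℤ) = n := Int.toNat_of_nonneg hnpos.le
    exact_mod_cast this
  refine ⟨fun θ => r (χ θ), fun θ => ?_, fun θ => hrab _, ⟨n.toNat, by omega, fun θ => ?_⟩, ?_⟩
  · have h4 := (hrd (χ θ)).scomp θ (h3 θ)
    refine h4.congr_deriv ?_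
    rw [h2, smul_eq_mul, WW]
    field_simp
  · simp only
    have h4 : χ (θ + 2 * Real.pi * (n.toNat : ℕ)) = χ θ + T := by
      rw [← h1 (χ θ + T)]
      congr 1
      rw [hΘ]
      simp only
      rw [hLper, Complex.add_im, himT, hnN, ← add_assoc]
      have h5 := h2 θ
      rw [hΘ] at h5
      simp only at h5
      rw [h5]
    rw [h4, hr]
    simp only
    rw [hLper, Complex.add_re, hreT, add_zero]
  · apply Set.Subset.antisymm
    · rintro _ ⟨t, rfl⟩
      refine ⟨Θ t, ?_⟩
      simp only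
      rw [h1, ← hwpolar]
    · rintro _ ⟨θ, rfl⟩
      refine ⟨χ θ, ?_⟩
      rw [hwpolar, h2]

end

end Pool.Agent.helper59.LC
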