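import Pool.Agent.helper59.LC.Eval

/-!
# Majorants, positive radius, and blow up of the partial sums
-/

open PowerSeries

namespace Pool.Agent.helper59.LC

noncomputable section

section map

variable {A B : Type*} [CommRing A] [CommRing B]

theorem map_derivative (φ : A →+* B) (ψ : A⟦X⟧) :
    PowerSeries.map φ (derivative A ψ) = derivative B (PowerSeries.map φ ψ) := by
  ext m
  simp [coeff_derivative]

theorem map_aeval (φ : A →+* B) (ψ : A⟦X⟧) (P : Polynomial A) :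
    PowerSeries.map φ (Polynomial.aeval ψ P) =
      Polynomial.aeval (PowerSeries.map φ ψ) (P.map φ) := by
  induction P using Polynomial.induction_on' with
  | add p q hp hq => simp [hp, hq]
  | monomial k a =>
    simp [Polynomial.aeval_monomial]

theorem IsPsi.map (φ : A →+* B) {g : Polynomial A} {ψ : A⟦X⟧} (h : IsPsi g ψ) :
    IsPsi (g.map φ) (PowerSeries.map φ ψ) := by
  obtain ⟨⟨χ, hX⟩, h1, h2⟩ := h
  refine ⟨⟨PowerSeries.map φ χ, ?_⟩, ?_, ?_⟩
  · rw [hX, map_mul, PowerSeries.map_X]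
  · rw [coeff_map, h1, map_one]
  · rw [← map_derivative, ← PowerSeries.map_X φ, ← map_mul, h2, map_aeval]
    congr 1
    simp [FF]

end map

/-! ### domination -/

/-- coefficientwise domination of a complex series by a real one -/
def Dom (φ : ℂ⟦X⟧) (χ : ℝ⟦X⟧) : Prop := ∀ m, ‖coeff m φ‖ ≤ coeff m χ

theorem Dom.nonneg {φ : ℂ⟦X⟧} {χ : ℝ⟦X⟧} (h : Dom φ χ) (m : ℕ) : 0 ≤ coeff m χ :=
  (norm_nonneg _).trans (h m)

theorem Dom.add {φ φ' : ℂ⟦X⟧} {χ χ' : ℝ⟦X⟧} (h : Dom φ χ) (h' : Dom φ' χ') :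
    Dom (φ + φ') (χ + χ') := fun m => by
  rw [map_add, map_add]
  exact (norm_add_le _ _).trans (add_le_add (h m) (h' m))

theorem Dom.mul {φ φ' : ℂ⟦X⟧} {χ χ' : ℝ⟦X⟧} (h : Dom φ χ) (h' : Dom φ' χ') :
    Dom (φ * φ') (χ * χ') := fun m => by
  rw [coeff_mul, coeff_mul]
  refine (norm_sum_le _ _).trans (Finset.sum_le_sum fun p _ => ?_)
  rw [norm_mul]
  exact mul_le_mul (h _) (h' _) (norm_nonneg _) (h.nonneg _)

theorem dom_C {a : ℂ} {b : ℝ} (h : ‖a‖ ≤ b) : Dom (C a) (C b) := fun m => by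
  rw [coeff_C, coeff_C]
  split_ifs
  · exact h
  · simp

theorem dom_X : Dom X X := fun m => by
  rw [coeff_X, coeff_X]
  split_ifs <;> simp

theorem Dom.pow {φ : ℂ⟦X⟧} {χ : ℝ⟦X⟧} (h : Dom φ χ) (k : ℕ) : Dom (φ ^ k) (χ ^ k) := by
  induction k with
  | zero =>
    rw [pow_zero, pow_zero, ← map_one C, ← map_one C]
    exact dom_C (by simp)
  | succ k ih =>
    rw [pow_succ, pow_succ]
    exact ih.mul h

/-- domination of polynomials -/
def PDom (g : Polynomial ℂ) (g' : Polynomial ℝ) : Prop := ∀ m, ‖g.coeff m‖ ≤ g'.coeff m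

theorem Dom.aeval {φ : ℂ⟦X⟧} {χ : ℝ⟦X⟧} (h : Dom φ χ) {g : Polynomial ℂ} {g' : Polynomial ℝ}
    (hg : PDom g g') : Dom (Polynomial.aeval φ g) (Polynomial.aeval χ g') := by
  have e1 : Polynomial.aeval φ g =
      ∑ k ∈ Finset.range (max g.natDegree g'.natDegree + 1), C (g.coeff k) * φ ^ k := by
    rw [Polynomial.aeval_eq_sum_range' (n := max g.natDegree g'.natDegree + 1) (by omega)]
    refine Finset.sum_congr rfl fun k _ => ?_
    rw [smul_eq_C_mul]
  have e2 : Polynomial.aeval χ g' =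
      ∑ k ∈ Finset.range (max g.natDegree g'.natDegree + 1), C (g'.coeff k) * χ ^ k := by
    rw [Polynomial.aeval_eq_sum_range' (n := max g.natDegree g'.natDegree + 1) (by omega)]
    refine Finset.sum_congr rfl fun k _ => ?_
    rw [smul_eq_C_mul]
  rw [e1, e2]
  generalize max g.natDegree g'.natDegree + 1 = K
  induction K with
  | zero => intro m; simp
  | succ K ih =>
    rw [Finset.sum_range_succ, Finset.sum_range_succ]
    exact ih.add ((dom_C (hg K)).mul (h.pow K))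

theorem Dom.JJ {φ : ℂ⟦X⟧} {χ : ℝ⟦X⟧} (h : Dom φ χ) : Dom (JJ φ) (JJ χ) := fun m => by
  rw [coeff_JJ, coeff_JJ]
  split_ifs with hm
  · simp
  · have h2 : (0 : ℚ) ≤ (((m : ℚ) - 1)⁻¹) := by
      rw [inv_nonneg, sub_nonneg]
      exact_mod_cast (show 1 ≤ m by omega)
    rw [norm_smul]
    have : ‖(((m : ℚ) - 1)⁻¹)‖ = (((((m : ℚ) - 1)⁻¹) : ℚ) : ℝ) := by
      rw [← Rat.norm_cast_real, Real.norm_of_nonneg (by exact_mod_cast h2)]
    rw [this, Rat.smul_def]
    exact mul_le_mul_of_nonneg_left (h m) (by exact_mod_cast h2)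

theorem dom_psiN {g : Polynomial ℂ} {g' : Polynomial ℝ} (hg : PDom g g') (k : ℕ) :
    Dom (psiN g k) (psiN g' k) := by
  induction k with
  | zero => exact dom_X
  | succ k ih => exact dom_X.add ((ih.pow 2).mul (ih.aeval hg)).JJ

theorem dom_psi {g : Polynomial ℂ} {g' : Polynomial ℝ} (hg : PDom g g') :
    Dom (psi g) (psi g') := fun m => by
  rw [psi, psi, coeff_mk, coeff_mk]
  exact dom_psiN hg m m

/-! ### the quotient `ψ / X` and its truncations -/

/-- `ψ / X` -/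
def ups {A : Type*} [CommRing A] (ψ : A⟦X⟧) : A⟦X⟧ := PowerSeries.mk fun m => coeff (m + 1) ψ

section
variable {A : Type*} [CommRing A]

theorem X_mul_ups {ψ : A⟦X⟧} (h : (X : A⟦X⟧) ∣ ψ) : X * ups ψ = ψ := by
  ext m
  rcases m with _ | m
  · rw [X_dvd_iff] at h
    simp [h]
  · rw [mul_comm, coeff_succ_mul_X, ups, coeff_mk]

theorem IsPsi.ups_deriv {g : Polynomial A} {ψ : A⟦X⟧} (h : IsPsi g ψ) :
    derivative A (ups ψ) = ups ψ ^ 2 * Polynomial.aeval ψ g := by
  have h1 := X_mul_ups h.1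
  have h2 := h.2.2
  rw [aeval_FF] at h2
  have h3 : derivative A ψ = ups ψ + X * derivative A (ups ψ) := by
    conv_lhs => rw [← h1]
    rw [Derivation.leibniz, derivative_X]
    simp only [smul_eq_mul]
    ring
  have h4 : X ^ 2 * derivative A (ups ψ) = X ^ 2 * (ups ψ ^ 2 * Polynomial.aeval ψ g) := by
    rw [h3] at h2
    linear_combination h2 - h1 - (ups ψ * X + ψ) * Polynomial.aeval ψ g * h1
  ext m
  have := congrArg (coeff (m + 2)) h4
  rwa [coeff_X_pow_mul, coeff_X_pow_mul] at this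

end

theorem eval_nonneg' {q : Polynomial ℝ} (h : ∀ m, 0 ≤ q.coeff m) {x : ℝ} (hx : 0 ≤ x) :
    0 ≤ q.eval x := by
  rw [Polynomial.eval_eq_sum_range]
  exact Finset.sum_nonneg fun m _ => mul_nonneg (h m) (pow_nonneg hx m)

theorem eval_mono' {q : Polynomial ℝ} (h : ∀ m, 0 ≤ q.coeff m) {x y : ℝ} (hx : 0 ≤ x)
    (hxy : x ≤ y) : q.eval x ≤ q.eval y := by
  rw [Polynomial.eval_eq_sum_range, Polynomial.eval_eq_sum_range]
  exact Finset.sum_le_sum fun m _ => mul_le_mul_of_nonneg_left (pow_le_pow_left₀ hx hxy m) (h m)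

/-- differential inequality for the truncations -/
theorem trunc_deriv_le {g : Polynomial ℝ} (hg : ∀ m, 0 ≤ g.coeff m) {ψ : ℝ⟦X⟧}
    (h : IsPsi g ψ) (hn : ∀ m, 0 ≤ coeff m ψ) (M : ℕ) {x : ℝ} (hx : 0 ≤ x) :
    (Polynomial.derivative (trunc M (ups ψ))).eval x ≤
      (trunc M (ups ψ)).eval x ^ 2 * g.eval (x * (trunc M (ups ψ)).eval x) := by
  set p := trunc M (ups ψ) with hp
  set q : Polynomial ℝ := p ^ 2 * g.comp (Polynomial.X * p) with hq
  have hpn : ∀ m, 0 ≤ p.coeff m := by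
    intro m
    rw [hp, coeff_trunc]
    split_ifs
    · rw [ups, coeff_mk]; exact hn _
    · exact le_rfl
  -- nonnegativity of coefficients of products
  have mulnn : ∀ {a b : Polynomial ℝ}, (∀ m, 0 ≤ a.coeff m) → (∀ m, 0 ≤ b.coeff m) →
      ∀ m, 0 ≤ (a * b).coeff m := by
    intro a b ha hb m
    rw [Polynomial.coeff_mul]
    exact Finset.sum_nonneg fun p _ => mul_nonneg (ha _) (hb _)
  have pownn : ∀ {a : Polynomial ℝ}, (∀ m, 0 ≤ a.coeff m) → ∀ k m, 0 ≤ (a ^ k).coeff m := by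
    intro a ha k
    induction k with
    | zero =>
      intro m
      rw [pow_zero, Polynomial.coeff_one]
      split_ifs <;> norm_num
    | succ k ih => rw [pow_succ]; exact mulnn ih ha
  have hXp : ∀ m, 0 ≤ (Polynomial.X * p).coeff m :=
    mulnn (fun m => by rw [Polynomial.coeff_X]; split_ifs <;> norm_num) hpn
  have hcomp : ∀ m, 0 ≤ (g.comp (Polynomial.X * p)).coeff m := by
    intro m
    rw [Polynomial.comp, Polynomial.eval₂_eq_sum_range, Polynomial.finsetSum_coeff]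
    refine Finset.sum_nonneg fun k _ => ?_
    rw [Polynomial.coeff_C_mul]
    exact mul_nonneg (hg k) (pownn hXp k m)
  have hqn : ∀ m, 0 ≤ q.coeff m := mulnn (pownn hpn 2) hcomp
  -- the congruence
  have hcong : (X : ℝ⟦X⟧) ^ M ∣ ups ψ - (p : ℝ⟦X⟧) := by
    rw [X_pow_dvd_iff]
    intro k hk
    rw [map_sub, Polynomial.coeff_coe, hp, coeff_trunc, if_pos hk, sub_self]
  have hq' : (q : ℝ⟦X⟧) = (p : ℝ⟦X⟧) ^ 2 * Polynomial.aeval (X * (p : ℝ⟦X⟧)) g := by
    rw [hq, Polynomial.coe_mul, Polynomial.coe_pow]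
    congr 1
    rw [← Polynomial.coeToPowerSeries.ringHom_apply, Polynomial.comp,
      Polynomial.hom_eval₂, Polynomial.aeval_def, map_mul]
    simp only [Polynomial.coeToPowerSeries.ringHom_apply, Polynomial.coe_X]
    congr 1
    ext a
    simp
  have hcong2 : (X : ℝ⟦X⟧) ^ M ∣ derivative ℝ (ups ψ) - (q : ℝ⟦X⟧) := by
    rw [h.ups_deriv, hq']
    have e1 : ψ = X * ups ψ := (X_mul_ups h.1).symm
    have e2 : ups ψ ^ 2 * Polynomial.aeval ψ g - (p : ℝ⟦X⟧) ^ 2 *
        Polynomial.aeval (X * (p : ℝ⟦X⟧)) g =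
        (ups ψ - p) * ((ups ψ + p) * Polynomial.aeval ψ g) + (p : ℝ⟦X⟧) ^ 2 *
          (Polynomial.aeval ψ g - Polynomial.aeval (X * (p : ℝ⟦X⟧)) g) := by ring
    rw [e2]
    have h3 : ψ - X * (p : ℝ⟦X⟧) ∣
        Polynomial.aeval ψ g - Polynomial.aeval (X * (p : ℝ⟦X⟧)) g := by
      have := Polynomial.sub_dvd_eval_sub ψ (X * (p : ℝ⟦X⟧)) (g.map (algebraMap ℝ ℝ⟦X⟧))
      rwa [Polynomial.eval_map_algebraMap, Polynomial.eval_map_algebraMap] at this
    have h4 : ups ψ - (p : ℝ⟦X⟧) ∣ ψ - X * (p : ℝ⟦X⟧) :=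
      ⟨X, by rw [sub_mul, mul_comm (ups ψ), X_mul_ups h.1, mul_comm X]⟩
    exact dvd_add (dvd_mul_of_dvd_left hcong _)
      (dvd_mul_of_dvd_right ((hcong.trans h4).trans h3) _)
  -- conclusion
  have hle : ∀ m, 0 ≤ (q - Polynomial.derivative p).coeff m := by
    intro m
    rw [Polynomial.coeff_sub, Polynomial.coeff_derivative]
    rcases lt_or_ge (m + 1) M with hm | hm
    · rw [X_pow_dvd_iff] at hcong2
      have h5 := hcong2 m (by omega)
      rw [map_sub, coeff_derivative, Polynomial.coeff_coe, sub_eq_zero] at h5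
      rw [← h5, hp, coeff_trunc, if_pos hm, sub_self]
    · rw [hp, coeff_trunc, if_neg (by omega), zero_mul, sub_zero]
      exact hqn m
  have h6 := eval_nonneg' hle hx
  rw [Polynomial.eval_sub, sub_nonneg] at h6
  refine h6.trans (le_of_eq ?_)
  rw [hq]
  simp

/-- extension of boundedness of the truncations -/
theorem trunc_ext {g : Polynomial ℝ} (hg : ∀ m, 0 ≤ g.coeff m) {ψ : ℝ⟦X⟧}
    (h : IsPsi g ψ) (hn : ∀ m, 0 ≤ coeff m ψ) {x₁ B : ℝ} (hx : 0 ≤ x₁) (hB : 0 < B)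
    (hb : ∀ M, (trunc M (ups ψ)).eval x₁ ≤ B) :
    ∃ δ > 0, ∀ M, (trunc M (ups ψ)).eval (x₁ + δ) ≤ 2 * B := by
  set K := (2 * B) ^ 2 * g.eval ((x₁ + 1) * (2 * B)) with hK
  have hK0 : 0 ≤ K := mul_nonneg (by positivity) (eval_nonneg' hg (by positivity))
  set δ := min 1 (B / (K + 1)) with hδ
  have hδ0 : 0 < δ := lt_min one_pos (by positivity)
  refine ⟨δ, hδ0, fun M => ?_⟩
  set p := trunc M (ups ψ) with hp
  have hpn : ∀ m, 0 ≤ p.coeff m := by
    intro m
    rw [hp, coeff_trunc]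
    split_ifs
    · rw [ups, coeff_mk]; exact hn _
    · exact le_rfl
  by_contra hcon
  push Not at hcon
  have hiv := intermediate_value_Icc (show x₁ ≤ x₁ + δ by linarith) (f := fun x => p.eval x)
    p.continuous.continuousOn
  obtain ⟨y, hy, hy2⟩ := hiv ⟨by linarith [hb M], hcon.le⟩
  simp only at hy2
  have hyx : x₁ < y := by
    rcases eq_or_lt_of_le hy.1 with h1 | h1
    · exfalso
      have := hb M
      rw [← hp, h1, hy2] at this
      linarith
    · exact h1
  obtain ⟨ξ, hξ, hξ2⟩ := exists_deriv_eq_slope (fun x => p.eval x) hyx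
    p.continuous.continuousOn p.differentiable.differentiableOn
  rw [Polynomial.deriv] at hξ2
  have h1 := trunc_deriv_le hg h hn M (hx.trans hξ.1.le)
  rw [← hp] at h1
  have h2 : p.eval ξ ≤ 2 * B := by
    rw [← hy2]
    exact eval_mono' hpn (hx.trans hξ.1.le) hξ.2.le
  have h3 : 0 ≤ p.eval ξ := eval_nonneg' hpn (hx.trans hξ.1.le)
  have hξ1 : ξ ≤ x₁ + 1 := by
    have := hy.2
    have := hξ.2
    have := min_le_left 1 (B / (K + 1))
    linarith
  have hξ0 : 0 ≤ ξ := hx.trans hξ.1.le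
  have h4 : (Polynomial.derivative p).eval ξ ≤ K := by
    refine h1.trans ?_
    rw [hK]
    have h5 : g.eval (ξ * p.eval ξ) ≤ g.eval ((x₁ + 1) * (2 * B)) :=
      eval_mono' hg (by positivity) (by gcongr)
    have h6 : 0 ≤ g.eval (ξ * p.eval ξ) := eval_nonneg' hg (by positivity)
    gcongr
  rw [hξ2, div_le_iff₀ (by linarith), hy2] at h4
  have h7 : y - x₁ ≤ B / (K + 1) := by
    have := hy.2
    have := min_le_right 1 (B / (K + 1))
    linarith
  have h8 : K * (y - x₁) ≤ K * (B / (K + 1)) := by gcongr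
  have h9 : K * (B / (K + 1)) < B := by
    rw [mul_div_assoc', div_lt_iff₀ (by positivity)]
    nlinarith
  have := hb M
  linarith

theorem eval_trunc (φ : ℝ⟦X⟧) (M : ℕ) (x : ℝ) :
    (trunc M φ).eval x = ∑ m ∈ Finset.range M, coeff m φ * x ^ m := by
  rw [Polynomial.eval, eval₂_trunc_eq_sum_range]
  rfl

/-- positive radius of convergence -/
theorem exists_conv_real {g : Polynomial ℝ} (hg : ∀ m, 0 ≤ g.coeff m) {ψ : ℝ⟦X⟧}
    (h : IsPsi g ψ) (hn : ∀ m, 0 ≤ coeff m ψ) :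
    ∃ r > 0, Summable (fun m => coeff m ψ * r ^ m) := by
  have h0 : ∀ M, (trunc M (ups ψ)).eval 0 ≤ 1 := by
    intro M
    rw [eval_trunc]
    rcases M with _ | M
    · simp
    · rw [Finset.sum_range_succ']
      simp [ups, h.2.1]
  obtain ⟨δ, hδ, h1⟩ := trunc_ext hg h hn le_rfl one_pos h0
  refine ⟨δ, hδ, ?_⟩
  rw [← summable_nat_add_iff 1]
  have h2 : Summable (fun m => coeff (m + 1) ψ * δ ^ m) := by
    refine summable_of_sum_range_le (c := 2) (fun m => mul_nonneg (hn _) (by positivity))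
      fun M => ?_
    have := h1 M
    rw [eval_trunc, zero_add, mul_one] at this
    simpa [ups] using this
  refine (h2.mul_right δ).congr fun m => ?_
  rw [pow_succ]
  ring

/-- coefficientwise absolute values -/
def absP (g : Polynomial ℂ) : Polynomial ℝ :=
  ∑ k ∈ Finset.range (g.natDegree + 1), Polynomial.monomial k ‖g.coeff k‖

theorem coeff_absP (g : Polynomial ℂ) (m : ℕ) : (absP g).coeff m = ‖g.coeff m‖ := by
  rw [absP, Polynomial.finsetSum_coeff]
  simp only [Polynomial.coeff_monomial]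
  rw [Finset.sum_ite_eq']
  split_ifs with h
  · rfl
  · rw [Finset.mem_range] at h
    rw [Polynomial.coeff_eq_zero_of_natDegree_lt (by omega), norm_zero]

/-- the series `ψ` has a positive radius of convergence -/
theorem exists_conv_psi (g : Polynomial ℂ) : ∃ r > 0, Conv r (psi g) := by
  have hd : PDom g (absP g) := fun m => (coeff_absP g m).ge
  have hD := dom_psi hd
  obtain ⟨r, hr, h⟩ := exists_conv_real (g := absP g)
    (fun m => by rw [coeff_absP]; exact norm_nonneg _) (isPsi_psi _) hD.nonneg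
  refine ⟨r, hr, Summable.of_nonneg_of_le (fun m => by positivity) (fun m => ?_) h⟩
  exact mul_le_mul_of_nonneg_right (hD m) (by positivity)

end

end Pool.Agent.helper59.LC
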