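import Pool.Agent.helper59.LC.Trans

/-!
# From complex notation to real polynomials
-/

open Set Filter Topology

namespace Pool.Agent.helper59.LC

noncomputable section

/-- real part, coefficientwise -/
def rePart (G : MvPolynomial (Fin 2) ℂ) : MvPolynomial (Fin 2) ℝ :=
  ∑ s ∈ G.support, MvPolynomial.monomial s (MvPolynomial.coeff s G).re

/-- imaginary part, coefficientwise -/
def imPart (G : MvPolynomial (Fin 2) ℂ) : MvPolynomial (Fin 2) ℝ :=
  ∑ s ∈ G.support, MvPolynomial.monomial s (MvPolynomial.coeff s G).im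

theorem coeff_rePart (G : MvPolynomial (Fin 2) ℂ) (s : Fin 2 →₀ ℕ) :
    MvPolynomial.coeff s (rePart G) = (MvPolynomial.coeff s G).re := by
  rw [rePart, MvPolynomial.coeff_sum]
  simp only [MvPolynomial.coeff_monomial]
  rw [Finset.sum_ite_eq']
  split_ifs with h
  · rfl
  · rw [MvPolynomial.notMem_support_iff] at h
    rw [h]
    rfl

theorem coeff_imPart (G : MvPolynomial (Fin 2) ℂ) (s : Fin 2 →₀ ℕ) :
    MvPolynomial.coeff s (imPart G) = (MvPolynomial.coeff s G).im := by
  rw [imPart, MvPolynomial.coeff_sum]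
  simp only [MvPolynomial.coeff_monomial]
  rw [Finset.sum_ite_eq']
  split_ifs with h
  · rfl
  · rw [MvPolynomial.notMem_support_iff] at h
    rw [h]
    rfl

theorem eq_parts (G : MvPolynomial (Fin 2) ℂ) :
    G = MvPolynomial.map Complex.ofRealHom (rePart G) +
      MvPolynomial.C Complex.I * MvPolynomial.map Complex.ofRealHom (imPart G) := by
  ext s
  rw [MvPolynomial.coeff_add, MvPolynomial.coeff_C_mul, MvPolynomial.coeff_map,
    MvPolynomial.coeff_map, coeff_rePart, coeff_imPart]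
  simp only [Complex.ofRealHom_eq_coe]
  rw [mul_comm]
  exact (Complex.re_add_im _).symm

theorem totalDegree_rePart (G : MvPolynomial (Fin 2) ℂ) :
    (rePart G).totalDegree ≤ G.totalDegree := by
  refine Finset.sup_mono fun s hs => ?_
  rw [MvPolynomial.mem_support_iff, coeff_rePart] at hs
  rw [MvPolynomial.mem_support_iff]
  intro h
  rw [h] at hs
  exact hs rfl

theorem totalDegree_imPart (G : MvPolynomial (Fin 2) ℂ) :
    (imPart G).totalDegree ≤ G.totalDegree := by
  refine Finset.sup_mono fun s hs => ?_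
  rw [MvPolynomial.mem_support_iff, coeff_imPart] at hs
  rw [MvPolynomial.mem_support_iff]
  intro h
  rw [h] at hs
  exact hs rfl

theorem totalDegree_map_le' (P : MvPolynomial (Fin 2) ℝ) :
    (MvPolynomial.map Complex.ofRealHom P).totalDegree ≤ P.totalDegree := by
  refine Finset.sup_mono fun s hs => ?_
  rw [MvPolynomial.mem_support_iff, MvPolynomial.coeff_map] at hs
  rw [MvPolynomial.mem_support_iff]
  intro h
  rw [h] at hs
  exact hs (map_zero _)

theorem totalDegree_le_max (G : MvPolynomial (Fin 2) ℂ) :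
    G.totalDegree ≤ max (rePart G).totalDegree (imPart G).totalDegree := by
  conv_lhs => rw [eq_parts G]
  refine (MvPolynomial.totalDegree_add _ _).trans (max_le_max ?_ ?_)
  · exact totalDegree_map_le' _
  · refine (MvPolynomial.totalDegree_mul _ _).trans ?_
    rw [MvPolynomial.totalDegree_C, zero_add]
    exact totalDegree_map_le' _

theorem eval_map_ofReal (P : MvPolynomial (Fin 2) ℝ) (x : Fin 2 → ℝ) :
    MvPolynomial.eval (fun i => (x i : ℂ)) (MvPolynomial.map Complex.ofRealHom P) =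
      ((MvPolynomial.eval x P : ℝ) : ℂ) := by
  rw [MvPolynomial.eval_map]
  have := MvPolynomial.eval₂_comp_left Complex.ofRealHom (RingHom.id ℝ) x P
  rw [RingHom.comp_id] at this
  exact this.symm

theorem eval_parts (G : MvPolynomial (Fin 2) ℂ) (x : Fin 2 → ℝ) :
    MvPolynomial.eval (fun i => (x i : ℂ)) G =
      ((MvPolynomial.eval x (rePart G) : ℝ) : ℂ) +
        Complex.I * ((MvPolynomial.eval x (imPart G) : ℝ) : ℂ) := by
  conv_lhs => rw [eq_parts G]
  rw [map_add, map_mul, MvPolynomial.eval_C, eval_map_ofReal, eval_map_ofReal]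

theorem eval_rePart (G : MvPolynomial (Fin 2) ℂ) (x : Fin 2 → ℝ) :
    MvPolynomial.eval x (rePart G) = (MvPolynomial.eval (fun i => (x i : ℂ)) G).re := by
  rw [eval_parts]
  simp

theorem eval_imPart (G : MvPolynomial (Fin 2) ℂ) (x : Fin 2 → ℝ) :
    MvPolynomial.eval x (imPart G) = (MvPolynomial.eval (fun i => (x i : ℂ)) G).im := by
  rw [eval_parts]
  simp

theorem pderiv_rePart (G : MvPolynomial (Fin 2) ℂ) (i : Fin 2) :
    MvPolynomial.pderiv i (rePart G) = rePart (MvPolynomial.pderiv i G) := by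
  ext s
  rw [coeff_rePart, MvPolynomial.coeff_pderiv, MvPolynomial.coeff_pderiv, coeff_rePart]
  simp

theorem pderiv_imPart (G : MvPolynomial (Fin 2) ℂ) (i : Fin 2) :
    MvPolynomial.pderiv i (imPart G) = imPart (MvPolynomial.pderiv i G) := by
  ext s
  rw [coeff_imPart, MvPolynomial.coeff_pderiv, MvPolynomial.coeff_pderiv, coeff_imPart]
  simp

/-- the polynomial `x + i y` -/
def Zp : MvPolynomial (Fin 2) ℂ := MvPolynomial.X 0 + MvPolynomial.C Complex.I * MvPolynomial.X 1

/-- the polynomial `x - i y` -/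
def Zb : MvPolynomial (Fin 2) ℂ := MvPolynomial.X 0 - MvPolynomial.C Complex.I * MvPolynomial.X 1

/-- the perturbation term -/
def Hp (k : ℕ) (c0 : ℝ) (γ : ℕ × ℕ → ℂ) : MvPolynomial (Fin 2) ℂ :=
  MvPolynomial.C (c0 : ℂ) * Zp + ∑ p ∈ TT2 k, MvPolynomial.C (γ p) * (Zp ^ p.1 * Zb ^ p.2)

/-- the whole field -/
def Gp (k : ℕ) (g : Polynomial ℂ) (c0 : ℝ) (γ : ℕ × ℕ → ℂ) (ε : ℝ) : MvPolynomial (Fin 2) ℂ :=
  MvPolynomial.C Complex.I * Polynomial.aeval Zp (FF g) + MvPolynomial.C (ε : ℂ) * Hp k c0 γ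

theorem eval_Zp (x : Fin 2 → ℝ) :
    MvPolynomial.eval (fun i => (x i : ℂ)) Zp = (x 0 : ℂ) + Complex.I * (x 1 : ℂ) := by
  rw [Zp, map_add, map_mul, MvPolynomial.eval_X, MvPolynomial.eval_X, MvPolynomial.eval_C]

theorem eval_Zb (x : Fin 2 → ℝ) :
    MvPolynomial.eval (fun i => (x i : ℂ)) Zb =
      starRingEnd ℂ ((x 0 : ℂ) + Complex.I * (x 1 : ℂ)) := by
  rw [Zb, map_sub, map_mul, MvPolynomial.eval_X, MvPolynomial.eval_X, MvPolynomial.eval_C]
  rw [map_add, map_mul, Complex.conj_ofReal, Complex.conj_ofReal, Complex.conj_I]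
  ring

theorem eval_Gp (k : ℕ) (g : Polynomial ℂ) (c0 : ℝ) (γ : ℕ × ℕ → ℂ) (ε : ℝ) (x : Fin 2 → ℝ) :
    MvPolynomial.eval (fun i => (x i : ℂ)) (Gp k g c0 γ ε) =
      ZF k g c0 γ ε ((x 0 : ℂ) + Complex.I * (x 1 : ℂ)) := by
  rw [Gp, ZF, map_add, map_mul, map_mul, MvPolynomial.eval_C, MvPolynomial.eval_C, Hp, map_add,
    map_mul, MvPolynomial.eval_C, map_sum, eval_Zp]
  have h1 : MvPolynomial.eval (fun i => (x i : ℂ)) (Polynomial.aeval Zp (FF g)) =
      (FF g).eval ((x 0 : ℂ) + Complex.I * (x 1 : ℂ)) := by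
    rw [← eval_Zp x, Polynomial.aeval_def, Polynomial.hom_eval₂]
    have : (MvPolynomial.eval fun i => (x i : ℂ)).comp
        (algebraMap ℂ (MvPolynomial (Fin 2) ℂ)) = RingHom.id ℂ := by
      ext a
      simp [MvPolynomial.algebraMap_eq]
    rw [this]
    rfl
  rw [h1]
  have h2 : ∀ p ∈ TT2 k, MvPolynomial.eval (fun i => (x i : ℂ))
      (MvPolynomial.C (γ p) * (Zp ^ p.1 * Zb ^ p.2)) =
      γ p * (((x 0 : ℂ) + Complex.I * (x 1 : ℂ)) ^ p.1 *
        starRingEnd ℂ ((x 0 : ℂ) + Complex.I * (x 1 : ℂ)) ^ p.2) := by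
    intro p _
    rw [map_mul, map_mul, map_pow, map_pow, MvPolynomial.eval_C, eval_Zp, eval_Zb]
  rw [Finset.sum_congr rfl h2]

theorem totalDegree_Zp : Zp.totalDegree ≤ 1 := by
  refine (MvPolynomial.totalDegree_add _ _).trans (max_le ?_ ?_)
  · exact (MvPolynomial.totalDegree_X _).le
  · refine (MvPolynomial.totalDegree_mul _ _).trans ?_
    rw [MvPolynomial.totalDegree_C, MvPolynomial.totalDegree_X]

theorem totalDegree_Zb : Zb.totalDegree ≤ 1 := by
  refine (MvPolynomial.totalDegree_sub _ _).trans (max_le ?_ ?_)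
  · exact (MvPolynomial.totalDegree_X _).le
  · refine (MvPolynomial.totalDegree_mul _ _).trans ?_
    rw [MvPolynomial.totalDegree_C, MvPolynomial.totalDegree_X]

theorem totalDegree_Zp_pow (m : ℕ) : (Zp ^ m).totalDegree ≤ m := by
  refine (MvPolynomial.totalDegree_pow _ _).trans ?_
  calc m * Zp.totalDegree ≤ m * 1 := Nat.mul_le_mul_left _ totalDegree_Zp
    _ = m := mul_one m

theorem totalDegree_Zb_pow (m : ℕ) : (Zb ^ m).totalDegree ≤ m := by
  refine (MvPolynomial.totalDegree_pow _ _).trans ?_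
  calc m * Zb.totalDegree ≤ m * 1 := Nat.mul_le_mul_left _ totalDegree_Zb
    _ = m := mul_one m

theorem totalDegree_C_mul_le (a : ℂ) (P : MvPolynomial (Fin 2) ℂ) {m : ℕ}
    (h : P.totalDegree ≤ m) : (MvPolynomial.C a * P).totalDegree ≤ m := by
  refine (MvPolynomial.totalDegree_mul _ _).trans ?_
  rw [MvPolynomial.totalDegree_C, zero_add]
  exact h

theorem totalDegree_Hp (k : ℕ) (c0 : ℝ) (γ : ℕ × ℕ → ℂ) : (Hp k c0 γ).totalDegree ≤ k + 2 := by
  refine (MvPolynomial.totalDegree_add _ _).trans (max_le ?_ ?_)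
  · exact totalDegree_C_mul_le _ _ (totalDegree_Zp.trans (by omega))
  · refine (MvPolynomial.totalDegree_finsetSum _ _).trans ?_
    refine Finset.sup_le fun p hp => ?_
    refine totalDegree_C_mul_le _ _ ?_
    refine (MvPolynomial.totalDegree_mul _ _).trans ?_
    have h1 := totalDegree_Zp_pow p.1
    have h2 := totalDegree_Zb_pow p.2
    have h3 := (mem_TT2.1 hp)
    omega

theorem aeval_FFb (p q : ℂ) (k : ℕ) (B : Type*) [CommRing B] [Algebra ℂ B] (b : B) :
    Polynomial.aeval b (FF (Polynomial.C p + Polynomial.C q * Polynomial.X ^ k)) =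
      b + algebraMap ℂ B p * b ^ 2 + algebraMap ℂ B q * b ^ (k + 2) := by
  rw [FF]
  simp only [map_add, map_mul, map_pow, Polynomial.aeval_X, Polynomial.aeval_C]
  ring

theorem totalDegree_aeval (p q : ℂ) (k : ℕ) :
    (Polynomial.aeval Zp (FF (Polynomial.C p + Polynomial.C q * Polynomial.X ^ k))).totalDegree ≤
      k + 2 := by
  rw [aeval_FFb, MvPolynomial.algebraMap_eq]
  refine (MvPolynomial.totalDegree_add _ _).trans (max_le ?_ ?_)
  · refine (MvPolynomial.totalDegree_add _ _).trans (max_le ?_ ?_)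
    · exact totalDegree_Zp.trans (by omega)
    · exact totalDegree_C_mul_le _ _ ((totalDegree_Zp_pow 2).trans (by omega))
  · exact totalDegree_C_mul_le _ _ (totalDegree_Zp_pow (k + 2))

theorem totalDegree_Gp (p q : ℂ) (k : ℕ) (c0 : ℝ) (γ : ℕ × ℕ → ℂ) (ε : ℝ) :
    (Gp k (Polynomial.C p + Polynomial.C q * Polynomial.X ^ k) c0 γ ε).totalDegree ≤ k + 2 := by
  refine (MvPolynomial.totalDegree_add _ _).trans (max_le ?_ ?_)
  · exact totalDegree_C_mul_le _ _ (totalDegree_aeval p q k)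
  · exact totalDegree_C_mul_le _ _ (totalDegree_Hp k c0 γ)

/-- the unperturbed field -/
def G0 (g : Polynomial ℂ) : MvPolynomial (Fin 2) ℂ :=
  MvPolynomial.C Complex.I * Polynomial.aeval Zp (FF g)

theorem totalDegree_G0 {p q : ℂ} (hq : q ≠ 0) {k : ℕ} (hk : 1 ≤ k) :
    (G0 (Polynomial.C p + Polynomial.C q * Polynomial.X ^ k)).totalDegree = k + 2 := by
  refine le_antisymm (totalDegree_C_mul_le _ _ (totalDegree_aeval p q k)) ?_
  set D := G0 (Polynomial.C p + Polynomial.C q * Polynomial.X ^ k) with hD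
  have h1 := MvPolynomial.aeval_natDegree_le D (le_refl D.totalDegree)
    (![Polynomial.X, 0] : Fin 2 → Polynomial ℂ) (n := 1) (by
      intro i
      fin_cases i
      · exact Polynomial.natDegree_X_le
      · simp)
  rw [mul_one] at h1
  refine le_trans ?_ h1
  have h2 : MvPolynomial.aeval (![Polynomial.X, 0] : Fin 2 → Polynomial ℂ) D =
      Polynomial.C Complex.I * (Polynomial.X + Polynomial.C p * Polynomial.X ^ 2 +
        Polynomial.C q * Polynomial.X ^ (k + 2)) := by
    rw [hD, G0, aeval_FFb, Zp]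
    simp [MvPolynomial.algebraMap_eq, Polynomial.algebraMap_eq]
  rw [h2]
  refine Polynomial.le_natDegree_of_ne_zero ?_
  rw [Polynomial.coeff_C_mul]
  have h3 : (Polynomial.X + Polynomial.C p * Polynomial.X ^ 2 +
        Polynomial.C q * Polynomial.X ^ (k + 2) : Polynomial ℂ).coeff (k + 2) =
      (if k = 0 then p else 0) + q := by
    rw [Polynomial.coeff_add, Polynomial.coeff_add, Polynomial.coeff_C_mul,
      Polynomial.coeff_C_mul, Polynomial.coeff_X_pow, Polynomial.coeff_X_pow,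
      Polynomial.coeff_X]
    simp
  rw [h3, if_neg (by omega), zero_add]
  exact mul_ne_zero Complex.I_ne_zero hq

end

end Pool.Agent.helper59.LC
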