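import Mathlib

/-!
# Periodic solutions of scalar periodic equations with a small parameter
-/

open Set Filter Topology
open scoped NNReal

namespace Pool.Agent.helper59.LC

noncomputable section

/-- global solutions of bounded Lipschitz equations -/
theorem exists_global {v : ℝ → ℝ → ℝ} {K : ℝ≥0} {C : ℝ} (hL : ∀ t, LipschitzWith K (v t))
    (hc : ∀ x, Continuous (fun t => v t x)) (hb : ∀ t x, |v t x| ≤ C) (x₀ : ℝ) :
    ∃ r : ℝ → ℝ, r 0 = x₀ ∧ ∀ t, HasDerivAt r (v t (r t)) t := by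
  have hC : 0 ≤ C := (abs_nonneg _).trans (hb 0 0)
  have hex : ∀ n : ℕ, ∃ f : ℝ → ℝ, f 0 = x₀ ∧ ∀ t ∈ Icc (-((n : ℝ) + 1)) (n + 1),
      HasDerivWithinAt f (v t (f t)) (Icc (-((n : ℝ) + 1)) (n + 1)) t := by
    intro n
    have hmem : (0 : ℝ) ∈ Icc (-((n : ℝ) + 1)) (n + 1) := by
      constructor
      · have : (0 : ℝ) ≤ n := by positivity
        linarith
      · positivity
    have hp : IsPicardLindelof v (⟨0, hmem⟩ : Icc (-((n : ℝ) + 1)) (n + 1)) x₀
        (C.toNNReal * (n + 1)) 0 C.toNNReal K := by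
      refine ⟨fun t _ => (hL t).lipschitzOnWith, fun x _ => (hc x).continuousOn,
        fun t _ x _ => ?_, ?_⟩
      · rw [Real.norm_eq_abs, Real.coe_toNNReal _ hC]
        exact hb t x
      · simp only [sub_zero, zero_sub, neg_neg, max_self]
        push_cast
        simp
    obtain ⟨f, hf0, hf⟩ := hp.exists_eq_forall_mem_Icc_hasDerivWithinAt₀
    exact ⟨f, hf0, hf⟩
  choose f hf0 hf using hex
  have hfd : ∀ n : ℕ, ∀ t ∈ Ioo (-((n : ℝ) + 1)) (n + 1), HasDerivAt (f n) (v t (f n t)) t :=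
    fun n t ht => (hf n t (Ioo_subset_Icc_self ht)).hasDerivAt (Icc_mem_nhds ht.1 ht.2)
  have hagree : ∀ n m : ℕ, n ≤ m → EqOn (f n) (f m) (Ioo (-((n : ℝ) + 1)) (n + 1)) := by
    intro n m hnm
    have hnm' : (n : ℝ) ≤ m := by exact_mod_cast hnm
    have hn0 : (0 : ℝ) ≤ n := by positivity
    refine ODE_solution_unique_of_mem_Ioo (v := v) (K := K) (s := fun _ => univ) (t₀ := 0)
      (fun t _ => (hL t).lipschitzOnWith) ⟨by linarith, by linarith⟩
      (fun t ht => ⟨hfd n t ht, trivial⟩) (fun t ht => ⟨hfd m t ?_, trivial⟩) ?_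
    · exact ⟨by linarith [ht.1], by linarith [ht.2]⟩
    · rw [hf0, hf0]
  refine ⟨fun t => f ⌈|t|⌉₊ t, by simp [hf0], fun t => ?_⟩
  set N := ⌈|t|⌉₊ + 1 with hN
  have hNt : |t| + 1 ≤ N := by
    rw [hN]
    push_cast
    linarith [Nat.le_ceil |t|]
  have hev : (fun t => f ⌈|t|⌉₊ t) =ᶠ[𝓝 t] f N := by
    filter_upwards [Ioo_mem_nhds (show t - 1 < t by linarith) (show t < t + 1 by linarith)]
      with s hs
    have h1 : |s| ≤ |t| + 1 := by
      rw [abs_le]
      constructor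
      · have := neg_abs_le t
        linarith [hs.1]
      · have := le_abs_self t
        linarith [hs.2]
    have h2 : ⌈|s|⌉₊ ≤ N := by
      rw [Nat.ceil_le]
      linarith
    refine hagree _ _ h2 ?_
    have h3 := Nat.le_ceil |s|
    constructor
    · have := neg_abs_le s
      linarith
    · have := le_abs_self s
      linarith
  have hd : HasDerivAt (f N) (v t (f N t)) t := by
    refine hfd N t ⟨?_, ?_⟩
    · have := neg_abs_le t
      linarith
    · have := le_abs_self t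
      linarith
  have := hd.congr_of_eventuallyEq hev
  rw [← hev.eq_of_nhds] at this
  exact this

/-- estimates for the right hand side on `[c - η, c + η]` -/
structure WData (w : ℝ → ℝ → ℝ) (D A0 : ℝ → ℝ) (c η C κ κ' μ : ℝ) : Prop where
  eta : 0 < η
  kap : 0 ≤ κ
  cont : ∀ r ∈ Icc (c - η) (c + η), Continuous (fun θ => w θ r)
  contD : Continuous D
  contA : Continuous A0
  per : ∀ θ, ∀ r ∈ Icc (c - η) (c + η), w (θ + 2 * Real.pi) r = w θ r
  bd : ∀ θ, ∀ r ∈ Icc (c - η) (c + η), |w θ r| ≤ C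
  lip : ∀ θ, ∀ r ∈ Icc (c - η) (c + η), ∀ s ∈ Icc (c - η) (c + η),
    |w θ r - w θ s - D θ * (r - s)| ≤ κ * |r - s|
  nearA : ∀ θ, |w θ c - A0 θ| ≤ κ'
  bD : ∀ θ, |D θ| ≤ C
  intA : ∫ θ in (0 : ℝ)..(2 * Real.pi), A0 θ = 0
  intD : ∫ θ in (0 : ℝ)..(2 * Real.pi), D θ = μ

variable {w : ℝ → ℝ → ℝ} {D A0 : ℝ → ℝ} {c η C κ κ' μ : ℝ}

theorem WData.lip' (h : WData w D A0 c η C κ κ' μ) (θ : ℝ) {r s : ℝ}
    (hr : r ∈ Icc (c - η) (c + η)) (hs : s ∈ Icc (c - η) (c + η)) :
    |w θ r - w θ s| ≤ (C + κ) * |r - s| := by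
  have h1 := h.lip θ r hr s hs
  have h2 := h.bD θ
  calc |w θ r - w θ s| = |(w θ r - w θ s - D θ * (r - s)) + D θ * (r - s)| := by ring_nf
    _ ≤ |w θ r - w θ s - D θ * (r - s)| + |D θ * (r - s)| := abs_add_le _ _
    _ ≤ κ * |r - s| + C * |r - s| := by
        rw [abs_mul (D θ)]
        gcongr
    _ = _ := by ring

theorem WData.C_nonneg (h : WData w D A0 c η C κ κ' μ) : 0 ≤ C := (abs_nonneg _).trans (h.bD 0)

theorem WData.lipOn (h : WData w D A0 c η C κ κ' μ) {ε : ℝ} (hε : 0 ≤ ε) (θ : ℝ) :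
    LipschitzOnWith (ε * (C + κ)).toNNReal (fun r => ε * w θ r) (Icc (c - η) (c + η)) := by
  refine LipschitzOnWith.of_dist_le_mul fun r hr s hs => ?_
  have hK : 0 ≤ ε * (C + κ) := mul_nonneg hε (add_nonneg h.C_nonneg h.kap)
  rw [Real.coe_toNNReal _ hK, Real.dist_eq, Real.dist_eq, ← mul_sub, abs_mul, abs_of_nonneg hε,
    mul_assoc]
  exact mul_le_mul_of_nonneg_left (h.lip' θ hr hs) hε

/-- a solution with values in the interval -/
def IsSol (w : ℝ → ℝ → ℝ) (c η ε : ℝ) (ρ : ℝ → ℝ) : Prop :=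
  ∀ θ, HasDerivAt ρ (ε * w θ (ρ θ)) θ ∧ ρ θ ∈ Icc (c - η) (c + η)

theorem IsSol.eq (h : WData w D A0 c η C κ κ' μ) {ε : ℝ} (hε : 0 ≤ ε) {ρ σ : ℝ → ℝ}
    (hρ : IsSol w c η ε ρ) (hσ : IsSol w c η ε σ) {t : ℝ} (he : ρ t = σ t) : ρ = σ :=
  ODE_solution_unique_univ (v := fun θ r => ε * w θ r) (s := fun _ => Icc (c - η) (c + η))
    (fun θ => h.lipOn hε θ) hρ hσ he

theorem IsSol.shift (h : WData w D A0 c η C κ κ' μ) {ε : ℝ} {ρ : ℝ → ℝ}
    (hρ : IsSol w c η ε ρ) : IsSol w c η ε (fun θ => ρ (θ + 2 * Real.pi)) := by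
  intro θ
  refine ⟨?_, (hρ _).2⟩
  have h1 := (hρ (θ + 2 * Real.pi)).1.comp_add_const θ (2 * Real.pi)
  rwa [h.per θ _ (hρ _).2] at h1

theorem IsSol.lt_of_lt (h : WData w D A0 c η C κ κ' μ) {ε : ℝ} (hε : 0 ≤ ε) {ρ σ : ℝ → ℝ}
    (hρ : IsSol w c η ε ρ) (hσ : IsSol w c η ε σ) {t : ℝ} (he : ρ t < σ t) (s : ℝ) :
    ρ s < σ s := by
  by_contra hc
  push Not at hc
  have hcont : Continuous (fun x => σ x - ρ x) :=
    (continuous_iff_continuousAt.2 fun x => (hσ x).1.continuousAt).sub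
      (continuous_iff_continuousAt.2 fun x => (hρ x).1.continuousAt)
  have h0 : (0 : ℝ) ∈ (fun x => σ x - ρ x) '' univ := by
    have := isPreconnected_univ.intermediate_value (mem_univ s) (mem_univ t)
      hcont.continuousOn
    exact this ⟨by linarith, by linarith⟩
  obtain ⟨x, -, hx⟩ := h0
  have := hρ.eq h hε hσ (t := x) (by simp only at hx; linarith)
  rw [this] at he
  exact lt_irrefl _ he

/-- a solution which is periodic after several turns is periodic -/
theorem IsSol.periodic_of (h : WData w D A0 c η C κ κ' μ) {ε : ℝ} (hε : 0 ≤ ε) {σ : ℝ → ℝ}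
    (hσ : IsSol w c η ε σ) {K : ℕ} (hK : 1 ≤ K) (hp : σ (2 * Real.pi * K) = σ 0) :
    ∀ θ, σ (θ + 2 * Real.pi) = σ θ := by
  have hs := hσ.shift h
  have hkey : σ (0 + 2 * Real.pi) = σ 0 := by
    rcases lt_trichotomy (σ 0) (σ (0 + 2 * Real.pi)) with h1 | h1 | h1
    · exfalso
      have h2 : ∀ θ, σ θ < σ (θ + 2 * Real.pi) := fun θ => hσ.lt_of_lt h hε hs h1 θ
      have h3 : ∀ j : ℕ, σ 0 < σ (2 * Real.pi * (j + 1 : ℕ)) := by
        intro j
        induction j with
        | zero =>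
          have := h2 0
          rw [zero_add] at this
          simpa using this
        | succ j ih =>
          refine ih.trans ?_
          have := h2 (2 * Real.pi * (j + 1 : ℕ))
          have e : 2 * Real.pi * ((j + 1 : ℕ) : ℝ) + 2 * Real.pi =
              2 * Real.pi * ((j + 1 + 1 : ℕ) : ℝ) := by push_cast; ring
          rwa [e] at this
      obtain ⟨j, rfl⟩ : ∃ j, K = j + 1 := ⟨K - 1, by omega⟩
      exact absurd hp (h3 j).ne'
    · exact h1.symm
    · exfalso
      have h2 : ∀ θ, σ (θ + 2 * Real.pi) < σ θ := fun θ => hs.lt_of_lt h hε hσ h1 θ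
      have h3 : ∀ j : ℕ, σ (2 * Real.pi * (j + 1 : ℕ)) < σ 0 := by
        intro j
        induction j with
        | zero =>
          have := h2 0
          rw [zero_add] at this
          simpa using this
        | succ j ih =>
          refine lt_trans ?_ ih
          have := h2 (2 * Real.pi * (j + 1 : ℕ))
          have e : 2 * Real.pi * ((j + 1 : ℕ) : ℝ) + 2 * Real.pi =
              2 * Real.pi * ((j + 1 + 1 : ℕ) : ℝ) := by push_cast; ring
          rwa [e] at this
      obtain ⟨j, rfl⟩ : ∃ j, K = j + 1 := ⟨K - 1, by omega⟩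
      exact absurd hp (h3 j).ne
  have := hs.eq h hε hσ (t := 0) hkey
  exact fun θ => congrFun this θ

/-- uniqueness of the periodic solution -/
theorem IsSol.unique (h : WData w D A0 c η C κ κ' μ) {ε : ℝ} (hε : 0 < ε)
    (hκ : 2 * Real.pi * κ < |μ|) {ρ σ : ℝ → ℝ} (hρ : IsSol w c η ε ρ) (hσ : IsSol w c η ε σ)
    (hρp : ρ (2 * Real.pi) = ρ 0) (hσp : σ (2 * Real.pi) = σ 0) : ρ = σ := by
  by_contra hne
  have hδ0 : ρ 0 - σ 0 ≠ 0 := fun h0 => hne (hρ.eq h hε.le hσ (sub_eq_zero.1 h0))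
  set Φ : ℝ → ℝ := fun θ => (ρ θ - σ θ) * Real.exp (-(ε * ∫ s in (0 : ℝ)..θ, D s)) with hΦ
  set Φ' : ℝ → ℝ := fun θ => (ε * w θ (ρ θ) - ε * w θ (σ θ) - ε * D θ * (ρ θ - σ θ)) *
    Real.exp (-(ε * ∫ s in (0 : ℝ)..θ, D s)) with hΦ'
  have hd : ∀ θ, HasDerivAt Φ (Φ' θ) θ := by
    intro θ
    have h1 : HasDerivAt (fun θ => ∫ s in (0 : ℝ)..θ, D s) (D θ) θ :=
      intervalIntegral.integral_hasDerivAt_right (h.contD.intervalIntegrable _ _)
        (h.contD.stronglyMeasurableAtFilter _ _) h.contD.continuousAt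
    have h2 : HasDerivAt (fun θ => Real.exp (-(ε * ∫ s in (0 : ℝ)..θ, D s)))
        (Real.exp (-(ε * ∫ s in (0 : ℝ)..θ, D s)) * (-(ε * D θ))) θ := ((h1.const_mul ε).neg).exp
    have h3 := ((hρ θ).1.fun_sub (hσ θ).1).fun_mul h2
    refine h3.congr_deriv ?_
    simp only [hΦ']
    ring
  have hb : ∀ θ, |Φ' θ| ≤ (ε * κ) * |Φ θ| := by
    intro θ
    have h1 := h.lip θ _ (hρ θ).2 _ (hσ θ).2
    simp only [hΦ', hΦ]
    rw [abs_mul, abs_mul, ← mul_assoc]
    refine mul_le_mul_of_nonneg_right ?_ (abs_nonneg _)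
    have e : ε * w θ (ρ θ) - ε * w θ (σ θ) - ε * D θ * (ρ θ - σ θ) =
        ε * (w θ (ρ θ) - w θ (σ θ) - D θ * (ρ θ - σ θ)) := by ring
    rw [e, abs_mul, abs_of_pos hε, mul_assoc]
    exact mul_le_mul_of_nonneg_left h1 hε.le
  have hpi : (0 : ℝ) < 2 * Real.pi := by positivity
  have hcont : Continuous Φ := continuous_iff_continuousAt.2 fun x => (hd x).continuousAt
  have e0 : Φ 0 = ρ 0 - σ 0 := by simp [hΦ]
  have e1 : Φ (2 * Real.pi) = (ρ 0 - σ 0) * Real.exp (-(ε * μ)) := by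
    simp only [hΦ]
    rw [hρp, hσp, h.intD]
  -- forward
  have hf := norm_le_gronwallBound_of_norm_deriv_right_le (f := Φ) (f' := Φ')
    (δ := ‖Φ 0‖) (K := ε * κ) (ε := 0) (a := 0) (b := 2 * Real.pi) hcont.continuousOn
    (fun x _ => (hd x).hasDerivWithinAt) le_rfl (fun x _ => by
      rw [add_zero]; exact hb x) (2 * Real.pi) (right_mem_Icc.2 hpi.le)
  rw [gronwallBound_ε0, sub_zero, e0, e1, norm_mul, Real.norm_eq_abs (Real.exp _),
    Real.abs_exp] at hf
  have hpos : 0 < ‖ρ 0 - σ 0‖ := norm_pos_iff.2 hδ0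
  have h5 : Real.exp (-(ε * μ)) ≤ Real.exp (ε * κ * (2 * Real.pi)) :=
    le_of_mul_le_mul_left hf hpos
  rw [Real.exp_le_exp] at h5
  -- backward
  have hback := norm_le_gronwallBound_of_norm_deriv_right_le
    (f := fun t => Φ (2 * Real.pi - t)) (f' := fun t => -Φ' (2 * Real.pi - t))
    (δ := ‖Φ (2 * Real.pi)‖) (K := ε * κ) (ε := 0) (a := 0) (b := 2 * Real.pi)
    (hcont.comp (continuous_const.sub continuous_id)).continuousOn
    (fun x _ => by
      have h6 := (hd (2 * Real.pi - x)).scomp x ((hasDerivAt_id x).const_sub (2 * Real.pi))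
      have h7 : HasDerivAt (fun t => Φ (2 * Real.pi - t)) (-Φ' (2 * Real.pi - x)) x := by
        refine h6.congr_deriv ?_
        simp
      exact h7.hasDerivWithinAt)
    (by simp) (fun x _ => by
      rw [add_zero, norm_neg]
      exact hb _) (2 * Real.pi) (right_mem_Icc.2 hpi.le)
  simp only [sub_self, sub_zero] at hback
  rw [gronwallBound_ε0, e0, e1, norm_mul, Real.norm_eq_abs (Real.exp _),
    Real.abs_exp, mul_assoc, ← Real.exp_add] at hback
  have h8 : (1 : ℝ) ≤ Real.exp (-(ε * μ) + ε * κ * (2 * Real.pi)) := by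
    have : ‖ρ 0 - σ 0‖ * 1 ≤ ‖ρ 0 - σ 0‖ * Real.exp (-(ε * μ) + ε * κ * (2 * Real.pi)) := by
      rw [mul_one]; exact hback
    exact le_of_mul_le_mul_left this hpos
  rw [← Real.exp_zero, Real.exp_le_exp] at h8
  rcases abs_cases μ with ⟨h9, -⟩ | ⟨h9, -⟩
  · rw [h9] at hκ
    nlinarith
  · rw [h9] at hκ
    nlinarith

/-- existence of the periodic solution -/
theorem exists_periodic (h : WData w D A0 c η C κ κ' μ) {ε : ℝ} (hε : 0 < ε)
    (h1 : 2 * Real.pi * (ε * C) < η / 2)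
    (h2 : 2 * Real.pi * (κ' + κ * η + C * (2 * Real.pi * (ε * C))) < η / 2 * |μ|) :
    ∃ ρ, IsSol w c η ε ρ ∧ (∀ θ, ρ (θ + 2 * Real.pi) = ρ θ) ∧ ∀ θ, |ρ θ - c| < η := by
  have hη := h.eta
  have hC := h.C_nonneg
  set J := Icc (c - η) (c + η) with hJ
  have hab : c - η ≤ c + η := by linarith
  set cl : ℝ → ℝ := fun r => (projIcc (c - η) (c + η) hab r : ℝ) with hcl
  have hclJ : ∀ r, cl r ∈ J := fun r => (projIcc (c - η) (c + η) hab r).2
  have hclid : ∀ r ∈ J, cl r = r := fun r hr => by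
    rw [hcl]
    simp only
    rw [projIcc_of_mem hab hr]
  have hcllip : ∀ r s, |cl r - cl s| ≤ |r - s| := by
    intro r s
    have := (LipschitzWith.projIcc hab).dist_le_mul r s
    simpa [Subtype.dist_eq, Real.dist_eq] using this
  set v : ℝ → ℝ → ℝ := fun θ r => ε * w θ (cl r) with hv
  have hvL : ∀ t, LipschitzWith (ε * (C + κ)).toNNReal (v t) := by
    intro t
    refine LipschitzWith.of_dist_le_mul fun r s => ?_
    have := (h.lipOn hε.le t).dist_le_mul _ (hclJ r) _ (hclJ s)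
    refine this.trans ?_
    rw [Real.dist_eq, Real.dist_eq]
    exact mul_le_mul_of_nonneg_left (hcllip r s) (by positivity)
  have hvc : ∀ x, Continuous (fun t => v t x) := fun x => (h.cont _ (hclJ x)).const_mul ε
  have hvb : ∀ t x, |v t x| ≤ ε * C := fun t x => by
    rw [hv]
    simp only
    rw [abs_mul, abs_of_pos hε]
    exact mul_le_mul_of_nonneg_left (h.bd t _ (hclJ x)) hε.le
  choose R hR0 hR using fun x₀ => exists_global hvL hvc hvb x₀
  have hpi : (0 : ℝ) < 2 * Real.pi := by positivity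
  have hRc : ∀ x, Continuous (R x) := fun x =>
    continuous_iff_continuousAt.2 fun t => (hR x t).continuousAt
  have hvjoint : Continuous (fun p : ℝ × ℝ => v p.2 p.1) :=
    continuous_prod_of_continuous_lipschitzWith (fun p : ℝ × ℝ => v p.2 p.1) _
      (fun a => hvc a) (fun b => hvL b)
  have hvcont : ∀ x, Continuous (fun θ => v θ (R x θ)) := fun x =>
    hvjoint.comp ((hRc x).prodMk continuous_id)
  -- drift bound
  have hdrift : ∀ x, ∀ θ ∈ Icc (0 : ℝ) (2 * Real.pi), |R x θ - x| ≤ 2 * Real.pi * (ε * C) := by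
    intro x θ hθ
    have := Convex.norm_image_sub_le_of_norm_hasDerivWithin_le (s := univ) (x := 0) (y := θ)
      (f := R x) (f' := fun t => v t (R x t)) (C := ε * C)
      (fun t _ => (hR x t).hasDerivWithinAt) (fun t _ => hvb t _) convex_univ
      (mem_univ _) (mem_univ _)
    rw [hR0, Real.norm_eq_abs, Real.norm_eq_abs, sub_zero, abs_of_nonneg hθ.1] at this
    refine this.trans ?_
    rw [mul_comm]
    exact mul_le_mul_of_nonneg_right hθ.2 (by positivity)
  -- the return map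
  set P : ℝ → ℝ := fun x => R x (2 * Real.pi) with hP
  have hPc : Continuous P := by
    have hlip : ∀ x y, |P x - P y| ≤ Real.exp ((ε * (C + κ)).toNNReal * (2 * Real.pi)) * |x - y| := by
      intro x y
      have := dist_le_of_trajectories_ODE (v := v) (K := (ε * (C + κ)).toNNReal) (f := R x)
        (g := R y) (a := 0) (b := 2 * Real.pi) (δ := |x - y|) hvL (hRc x).continuousOn
        (fun t _ => (hR x t).hasDerivWithinAt) (hRc y).continuousOn
        (fun t _ => (hR y t).hasDerivWithinAt) (by rw [hR0, hR0, Real.dist_eq])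
        (2 * Real.pi) (right_mem_Icc.2 hpi.le)
      rw [Real.dist_eq, sub_zero] at this
      rw [mul_comm]
      exact this
    have : LipschitzWith (Real.exp ((ε * (C + κ)).toNNReal * (2 * Real.pi))).toNNReal P := by
      refine LipschitzWith.of_dist_le_mul fun x y => ?_
      rw [Real.coe_toNNReal _ (Real.exp_pos _).le, Real.dist_eq, Real.dist_eq]
      exact hlip x y
    exact this.continuous
  -- the estimate
  have hest : ∀ x, |x - c| ≤ η / 2 → |P x - x - ε * ((x - c) * μ)| ≤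
      ε * (2 * Real.pi * (κ' + κ * η + C * (2 * Real.pi * (ε * C)))) := by
    intro x hx
    have hinJ : ∀ θ ∈ Icc (0 : ℝ) (2 * Real.pi), R x θ ∈ J := by
      intro θ hθ
      have h3 := hdrift x θ hθ
      rw [abs_le] at h3 hx
      exact ⟨by linarith, by linarith⟩
    have hint : ∫ θ in (0 : ℝ)..(2 * Real.pi), v θ (R x θ) = P x - x := by
      rw [intervalIntegral.integral_eq_sub_of_hasDerivAt (fun t _ => hR x t)
        ((hvcont x).intervalIntegrable _ _), hR0]
    have hint2 : ∫ θ in (0 : ℝ)..(2 * Real.pi), (A0 θ + D θ * (x - c)) = (x - c) * μ := by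
      rw [intervalIntegral.integral_add (h.contA.intervalIntegrable _ _)
        ((h.contD.fun_mul continuous_const).intervalIntegrable _ _), h.intA, zero_add,
        intervalIntegral.integral_mul_const, h.intD]
      ring
    have hint3 : P x - x - ε * ((x - c) * μ) =
        ∫ θ in (0 : ℝ)..(2 * Real.pi), (v θ (R x θ) - ε * (A0 θ + D θ * (x - c))) := by
      have hc3 : Continuous fun θ => ε * (A0 θ + D θ * (x - c)) := by
        have hA := h.contA
        have hDc := h.contD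
        fun_prop
      rw [intervalIntegral.integral_sub ((hvcont x).intervalIntegrable _ _)
        (hc3.intervalIntegrable _ _), hint, intervalIntegral.integral_const_mul, hint2]
    rw [hint3]
    have hbound := intervalIntegral.norm_integral_le_of_norm_le_const
      (a := 0) (b := 2 * Real.pi) (f := fun θ => v θ (R x θ) - ε * (A0 θ + D θ * (x - c)))
      (C := ε * (κ' + κ * η + C * (2 * Real.pi * (ε * C)))) ?_
    · rw [Real.norm_eq_abs, sub_zero, abs_of_pos hpi] at hbound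
      refine hbound.trans (le_of_eq ?_)
      ring
    · intro θ hθ
      rw [uIoc_of_le hpi.le] at hθ
      have hθ' : θ ∈ Icc (0 : ℝ) (2 * Real.pi) := Ioc_subset_Icc_self hθ
      have hJθ := hinJ θ hθ'
      have hcJ : c ∈ J := ⟨by linarith, by linarith⟩
      have e : v θ (R x θ) - ε * (A0 θ + D θ * (x - c)) = ε * ((w θ (R x θ) - w θ c -
          D θ * (R x θ - c)) + (w θ c - A0 θ) + D θ * (R x θ - x)) := by
        rw [hv]
        simp only
        rw [hclid _ hJθ]
        ring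
      rw [e, norm_mul, Real.norm_eq_abs ε, abs_of_pos hε]
      refine mul_le_mul_of_nonneg_left ?_ hε.le
      have t1 := h.lip θ _ hJθ _ hcJ
      have t2 := h.nearA θ
      have t3 : |D θ * (R x θ - x)| ≤ C * (2 * Real.pi * (ε * C)) := by
        rw [abs_mul]
        exact mul_le_mul (h.bD θ) (hdrift x θ hθ') (abs_nonneg _) hC
      have t4 : κ * |R x θ - c| ≤ κ * η := by
        refine mul_le_mul_of_nonneg_left ?_ h.kap
        rw [abs_le]
        exact ⟨by linarith [hJθ.1], by linarith [hJθ.2]⟩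
      rw [Real.norm_eq_abs]
      calc _ ≤ |w θ (R x θ) - w θ c - D θ * (R x θ - c)| + |w θ c - A0 θ| +
            |D θ * (R x θ - x)| := abs_add_three _ _ _
        _ ≤ _ := by linarith
  -- the fixed point
  obtain ⟨x₁, hx₁, hPx⟩ : ∃ x₁, |x₁ - c| ≤ η / 2 ∧ P x₁ = x₁ := by
    have hcontg : Continuous fun x => P x - x := hPc.sub continuous_id
    have ea := hest (c - η / 2) (by rw [sub_sub_cancel_left, abs_neg, abs_of_pos (by linarith)])
    have eb := hest (c + η / 2) (by rw [add_sub_cancel_left, abs_of_pos (by linarith)])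
    rw [sub_sub_cancel_left] at ea
    rw [add_sub_cancel_left] at eb
    have hsmall : ε * (2 * Real.pi * (κ' + κ * η + C * (2 * Real.pi * (ε * C)))) <
        ε * (η / 2 * |μ|) := mul_lt_mul_of_pos_left h2 hε
    rw [abs_le] at ea eb
    have hle : c - η / 2 ≤ c + η / 2 := by linarith
    rcases abs_cases μ with ⟨h9, -⟩ | ⟨h9, -⟩
    · rw [h9] at hsmall
      have := intermediate_value_Icc hle hcontg.continuousOn (show (0 : ℝ) ∈ Icc _ _ from
        ⟨by nlinarith [ea.2], by nlinarith [eb.1]⟩)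
      obtain ⟨x₁, hx, hx2⟩ := this
      exact ⟨x₁, by rw [abs_le]; exact ⟨by linarith [hx.1], by linarith [hx.2]⟩, by linarith⟩
    · rw [h9] at hsmall
      have := intermediate_value_Icc' hle hcontg.continuousOn (show (0 : ℝ) ∈ Icc _ _ from
        ⟨by nlinarith [eb.2], by nlinarith [ea.1]⟩)
      obtain ⟨x₁, hx, hx2⟩ := this
      exact ⟨x₁, by rw [abs_le]; exact ⟨by linarith [hx.1], by linarith [hx.2]⟩, by linarith⟩
  -- periodicity
  have hper : ∀ θ, R x₁ (θ + 2 * Real.pi) = R x₁ θ := by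
    have hsol : ∀ θ, HasDerivAt (fun θ => R x₁ (θ + 2 * Real.pi))
        (v θ (R x₁ (θ + 2 * Real.pi))) θ := by
      intro θ
      have h3 := (hR x₁ (θ + 2 * Real.pi)).comp_add_const θ (2 * Real.pi)
      have h4 : v (θ + 2 * Real.pi) (R x₁ (θ + 2 * Real.pi)) = v θ (R x₁ (θ + 2 * Real.pi)) := by
        rw [hv]
        simp only
        rw [h.per θ _ (hclJ _)]
      rwa [h4] at h3
    have := ODE_solution_unique_univ (v := v) (s := fun _ => univ) (t₀ := 0)
      (fun t => (hvL t).lipschitzOnWith) (fun t => ⟨hsol t, trivial⟩)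
      (fun t => ⟨hR x₁ t, trivial⟩) (by
        simp only [zero_add]
        rw [hR0]
        exact hPx)
    exact fun θ => congrFun this θ
  have hclose : ∀ θ, |R x₁ θ - c| < η := by
    intro θ
    have hp : Function.Periodic (R x₁) (2 * Real.pi) := hper
    obtain ⟨θ', hθ', he⟩ := hp.exists_mem_Ico₀ hpi θ
    rw [he]
    have h3 := hdrift x₁ θ' (Ico_subset_Icc_self hθ')
    calc |R x₁ θ' - c| = |(R x₁ θ' - x₁) + (x₁ - c)| := by ring_nf
      _ ≤ |R x₁ θ' - x₁| + |x₁ - c| := abs_add_le _ _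
      _ < η := by linarith
  refine ⟨R x₁, fun θ => ⟨?_, ?_⟩, hper, hclose⟩
  · have hJθ : R x₁ θ ∈ J := by
      have := hclose θ
      rw [abs_lt] at this
      exact ⟨by linarith, by linarith⟩
    have h3 := hR x₁ θ
    rw [hv] at h3
    simp only at h3
    rwa [hclid _ hJθ] at h3
  · have := hclose θ
    rw [abs_lt] at this
    exact ⟨by linarith, by linarith⟩

end

end Pool.Agent.helper59.LC
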