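import Pool.Agent.helper59.LC.Indep

/-!
# Periodic orbits of the complex polynomial field
-/

open Set Filter Topology PowerSeries

namespace Pool.Agent.helper59.LC

noncomputable section

/-- the perturbed field in the original coordinate -/
def ZF (k : ℕ) (g : Polynomial ℂ) (c0 : ℝ) (γ : ℕ × ℕ → ℂ) (ε : ℝ) (z : ℂ) : ℂ :=
  Complex.I * (FF g).eval z + ε * ((c0 : ℂ) * z +
    ∑ p ∈ TT2 k, γ p * (z ^ p.1 * starRingEnd ℂ z ^ p.2))

/-- a common radius -/
theorem exists_radius (g : Polynomial ℂ) :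
    ∃ R > 0, Conv R (psi g) ∧ Conv R (rec' (psi g)) := by
  obtain ⟨r, hr, h⟩ := exists_conv_psi g
  have hψ := isPsi_psi g
  have h1 : Conv (r / 2) (derivative ℂ (psi g)) := h.deriv (by positivity) (by linarith)
  have h2 : coeff 0 (derivative ℂ (psi g)) = 1 := by
    rw [coeff_derivative]
    simp [hψ.2.1]
  obtain ⟨r', hr', hrr', h3⟩ := h1.inv (by positivity) h2 hψ.mul_rec
  exact ⟨r', hr', h.mono hr'.le (by linarith), h3⟩

section
variable {g : Polynomial ℂ} {R : ℝ}

theorem ev_eq1 (h1 : Conv R (psi g)) {w : ℂ} (hw : ‖w‖ < R) :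
    w * ev w (derivative ℂ (psi g)) = (FF g).eval (ev w (psi g)) := by
  have hd : Conv ‖w‖ (derivative ℂ (psi g)) := h1.deriv (norm_nonneg _) hw
  have h3 := congrArg (ev w) (isPsi_psi g).2.2
  rw [ev_mul (conv_X _) hd le_rfl, ev_X, ev_aeval (norm_nonneg w)
    (h1.mono (norm_nonneg _) hw.le) _ le_rfl] at h3
  exact h3

theorem ev_eq2 (h1 : Conv R (psi g)) (h2 : Conv R (rec' (psi g))) {w : ℂ} (hw : ‖w‖ < R) :
    ev w (derivative ℂ (psi g)) * ev w (rec' (psi g)) = 1 := by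
  have hd : Conv ‖w‖ (derivative ℂ (psi g)) := h1.deriv (norm_nonneg _) hw
  have h3 := congrArg (ev w) (isPsi_psi g).mul_rec
  rw [ev_mul hd (h2.mono (norm_nonneg _) hw.le) le_rfl, ev_one] at h3
  exact h3

theorem ev_psi_zero : ev 0 (psi g) = 0 := by
  rw [ev_zero_pt]
  have := (isPsi_psi g).1
  rwa [X_dvd_iff, ← coeff_zero_eq_constantCoeff_apply] at this

/-- the transformed field -/
theorem ZF_ev (k : ℕ) (h1 : Conv R (psi g)) (h2 : Conv R (rec' (psi g))) (c0 : ℝ)
    (γ : ℕ × ℕ → ℂ) (ε : ℝ) {w : ℂ} (hw : ‖w‖ < R) :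
    ZF k g c0 γ ε (ev w (psi g)) = ev w (derivative ℂ (psi g)) * VF (GG k g c0 γ) ε w := by
  rw [ZF, VF, GG, ← ev_eq1 h1 hw]
  have := ev_eq2 h1 h2 hw
  set A := (c0 : ℂ) * ev w (psi g) +
    ∑ p ∈ TT2 k, γ p * (ev w (psi g) ^ p.1 * starRingEnd ℂ (ev w (psi g)) ^ p.2)
  linear_combination (-(ε : ℂ) * A) * this

/-- the local homeomorphism -/
theorem exists_homeo (h1 : Conv R (psi g)) (hR : 0 < R) :
    ∃ (e : OpenPartialHomeomorph ℂ ℂ) (R₁ : ℝ), 0 < R₁ ∧ R₁ ≤ R ∧
      (∀ w, e w = ev w (psi g)) ∧ Metric.ball (0 : ℂ) R₁ ⊆ e.source := by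
  have hd : DifferentiableOn ℂ (fun w => ev w (psi g)) (Metric.ball 0 R) := fun w hw => by
    rw [mem_ball_zero_iff] at hw
    exact (hasDerivAt_ev h1 hw).differentiableAt.differentiableWithinAt
  have hc : ContDiffAt ℂ 1 (fun w => ev w (psi g)) 0 :=
    (hd.contDiffOn Metric.isOpen_ball).contDiffAt (Metric.ball_mem_nhds _ hR)
  have hder : HasDerivAt (fun w => ev w (psi g)) 1 0 := by
    have h3 := hasDerivAt_ev h1 (w := 0) (by rw [norm_zero]; exact hR)
    have h4 : ev 0 (derivative ℂ (psi g)) = 1 := by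
      rw [ev_zero_pt, coeff_derivative]
      simp [(isPsi_psi g).2.1]
    rwa [h4] at h3
  have hs : HasStrictDerivAt (fun w => ev w (psi g)) 1 0 := hc.hasStrictDerivAt' hder (by simp)
  have hs' := hs.hasStrictFDerivAt_equiv one_ne_zero
  set e := hs'.toOpenPartialHomeomorph _ with he
  have h0 : (0 : ℂ) ∈ e.source := HasStrictFDerivAt.mem_toOpenPartialHomeomorph_source _
  obtain ⟨R₂, hR₂, hb⟩ := Metric.isOpen_iff.1 e.open_source 0 h0
  refine ⟨e, min R R₂, lt_min hR hR₂, min_le_left _ _, fun w => rfl, ?_⟩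
  exact (Metric.ball_subset_ball (min_le_right _ _)).trans hb

end

/-- a periodic solution of `c' = V c` -/
def IsPer (V : ℂ → ℂ) (c : ℝ → ℂ) : Prop :=
  (∀ t, HasDerivAt c (V (c t)) t) ∧ ∃ T : ℝ, 0 < T ∧ ∀ t, c (t + T) = c t

/-- **limit cycles of the complex field** -/
theorem complex_cycles {k : ℕ} (hk : 3 ≤ k) : ∃ p q : ℂ, q ≠ 0 ∧
    ∀ g : Polynomial ℂ, g = Polynomial.C p + Polynomial.C q * Polynomial.X ^ k →
    ∀ U ∈ 𝓝 (0 : ℂ), ∃ (c0 : ℝ) (γ : ℕ × ℕ → ℂ) (ε₀ : ℝ), 0 < ε₀ ∧ ∀ ε, 0 < ε → ε < ε₀ →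
      ∃ c : Fin ((k + 1) * (k + 4)) → ℝ → ℂ, (Function.Injective fun j => range (c j)) ∧
        ∀ j, IsPer (ZF k g c0 γ ε) (c j) ∧ (∃ t, c j t ≠ c j 0) ∧ range (c j) ⊆ U ∧
          ∃ O : Set ℂ, IsOpen O ∧ range (c j) ⊆ O ∧ ∀ c', IsPer (ZF k g c0 γ ε) c' →
            range c' ⊆ O → range c' = range (c j) := by
  obtain ⟨p, q, hq, hpert⟩ := exists_perturbation hk
  refine ⟨p, q, hq, fun g hg U hU => ?_⟩
  obtain ⟨R, hR, h1, h2⟩ := exists_radius g
  obtain ⟨e, R₁, hR₁, hR₁R, he, hes⟩ := exists_homeo h1 hR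
  -- a smaller disc mapped into `U`
  have hcont0 : ContinuousAt (fun w => ev w (psi g)) 0 :=
    (hasDerivAt_ev h1 (by rw [norm_zero]; exact hR)).continuousAt
  have hU' : (fun w => ev w (psi g)) ⁻¹' U ∈ 𝓝 (0 : ℂ) := by
    apply hcont0
    change U ∈ 𝓝 (ev 0 (psi g))
    rw [ev_psi_zero]
    exact hU
  obtain ⟨R₂, hR₂, hb2⟩ := Metric.mem_nhds_iff.1 hU'
  set r := min R₁ R₂ with hr
  have hr0 : 0 < r := lt_min hR₁ hR₂
  have hrR1 : r ≤ R₁ := min_le_left _ _
  have hrR : r ≤ R := hrR1.trans hR₁R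
  have c1 : Conv r (psi g) := h1.mono hr0.le hrR
  have c2 : Conv r (rec' (psi g)) := h2.mono hr0.le hrR
  obtain ⟨c0, γ, z, hz, hzj⟩ := hpert g hg r hr0 c1 c2
  set G := GG k g c0 γ with hG
  -- radii
  set ra : Fin ((k + 1) * (k + 4)) → ℝ := fun j => Real.sqrt (z j) with hra
  have hz0 : ∀ j, 0 < z j := fun j => (hzj j).1.1
  have hra0 : ∀ j, 0 < ra j := fun j => Real.sqrt_pos.2 (hz0 j)
  have hrasq : ∀ j, ra j ^ 2 = z j := fun j => Real.sq_sqrt (hz0 j).le
  have hrar : ∀ j, ra j < r := fun j => by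
    rw [hra]
    simp only
    rw [Real.sqrt_lt' hr0]
    exact (hzj j).1.2
  have hramono : StrictMono ra := fun i j hij => Real.sqrt_lt_sqrt (hz0 i).le (hz hij)
  -- the annuli
  have hGd : ContDiffOn ℝ 1 G {w | 0 < ‖w‖ ∧ ‖w‖ < r} := by
    refine (GG_contDiffOn c1 c2 c0 γ).mono fun w hw => ?_
    rw [mem_ball_zero_iff]
    exact hw.2
  have hann : ∀ j, ∃ η₁ : ℝ, 0 < η₁ ∧ 0 < ra j - η₁ ∧ ra j + η₁ < r ∧
      ∀ η, 0 < η → η ≤ η₁ → ∃ ε₀ > 0, ∀ ε, 0 < ε → ε < ε₀ →
        ∃ T : ℝ, 0 < T ∧ ∃ w : ℝ → ℂ, (∀ t, HasDerivAt w (VF G ε (w t)) t) ∧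
          (∀ t, w (t + T) = w t) ∧ (∀ t, |‖w t‖ - ra j| < η) ∧ (∃ t, w t ≠ w 0) ∧
          ∀ T' : ℝ, 0 < T' → ∀ w' : ℝ → ℂ, (∀ t, HasDerivAt w' (VF G ε (w' t)) t) →
            (∀ t, w' (t + T') = w' t) → (∀ t, |‖w' t‖ - ra j| < η) → range w' = range w := by
    intro j
    have hnu0 : nu k g c0 γ (ra j ^ 2) = 0 := by rw [hrasq]; exact (hzj j).2.1
    have hd : HasDerivAt (nu k g c0 γ) (deriv (nu k g c0 γ) (z j)) (ra j ^ 2) := by
      rw [hrasq]
      exact (hzj j).2.2.2.hasDerivAt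
    refine annulus le_rfl (hra0 j) (hrar j) hGd ?_ ?_
    · rw [hG, melnikov c1 c2 c0 γ (hra0 j) (hrar j), hnu0, mul_zero]
    · rw [hG, melnikov_deriv c1 c2 c0 γ (hra0 j) (hrar j) hd hnu0]
      have := Real.pi_pos
      have h3 := hra0 j
      exact mul_ne_zero (by positivity) (hzj j).2.2.1
  choose η₁ hη₁ hη₁a hη₁b hη using hann
  -- a common width
  have hex : ∃ η > 0, (∀ j, η ≤ η₁ j) ∧ ∀ i j, i < j → 2 * η < ra j - ra i := by
    have hfin : ∀ (s : Finset (Fin ((k + 1) * (k + 4)))), ∃ η > 0, ∀ j ∈ s, η ≤ η₁ j := by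
      intro s
      classical
      induction s using Finset.induction_on with
      | empty => exact ⟨1, one_pos, fun j hj => absurd hj (Finset.notMem_empty j)⟩
      | insert a s ha ih =>
        obtain ⟨η, hη0, hη⟩ := ih
        refine ⟨min η (η₁ a), lt_min hη0 (hη₁ a), fun j hj => ?_⟩
        rcases Finset.mem_insert.1 hj with rfl | hj
        · exact min_le_right _ _
        · exact (min_le_left _ _).trans (hη j hj)
    have hfin2 : ∀ (s : Finset (Fin ((k + 1) * (k + 4)) × Fin ((k + 1) * (k + 4)))),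
        ∃ η > 0, ∀ x ∈ s, x.1 < x.2 → 2 * η < ra x.2 - ra x.1 := by
      intro s
      classical
      induction s using Finset.induction_on with
      | empty => exact ⟨1, one_pos, fun j hj => absurd hj (Finset.notMem_empty j)⟩
      | insert a s ha ih =>
        obtain ⟨η, hη0, hη⟩ := ih
        by_cases hlt : a.1 < a.2
        · have hpos : 0 < ra a.2 - ra a.1 := sub_pos.2 (hramono hlt)
          refine ⟨min η ((ra a.2 - ra a.1) / 4), lt_min hη0 (by positivity), fun x hx hx2 => ?_⟩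
          rcases Finset.mem_insert.1 hx with rfl | hx
          · have := min_le_right η ((ra x.2 - ra x.1) / 4)
            linarith
          · have := min_le_left η ((ra a.2 - ra a.1) / 4)
            have := hη x hx hx2
            linarith
        · refine ⟨η, hη0, fun x hx hx2 => ?_⟩
          rcases Finset.mem_insert.1 hx with rfl | hx
          · exact absurd hx2 hlt
          · exact hη x hx hx2
    obtain ⟨ηa, ha0, ha⟩ := hfin Finset.univ
    obtain ⟨ηb, hb0, hb⟩ := hfin2 Finset.univ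
    refine ⟨min ηa ηb, lt_min ha0 hb0, fun j => (min_le_left _ _).trans (ha j (Finset.mem_univ _)),
      fun i j hij => ?_⟩
    have := hb (i, j) (Finset.mem_univ _) hij
    have := min_le_right ηa ηb
    simp only at *
    linarith
  obtain ⟨η, hη0, hηj, hηd⟩ := hex
  choose ε₁ hε₁ hε using fun j => hη j η hη0 (hηj j)
  have hexε : ∃ ε₀ > 0, ∀ j, ε₀ ≤ ε₁ j := by
    have hfin : ∀ (s : Finset (Fin ((k + 1) * (k + 4)))), ∃ η > 0, ∀ j ∈ s, η ≤ ε₁ j := by
      intro s
      classical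
      induction s using Finset.induction_on with
      | empty => exact ⟨1, one_pos, fun j hj => absurd hj (Finset.notMem_empty j)⟩
      | insert a s ha ih =>
        obtain ⟨η, hη0, hη⟩ := ih
        refine ⟨min η (ε₁ a), lt_min hη0 (hε₁ a), fun j hj => ?_⟩
        rcases Finset.mem_insert.1 hj with rfl | hj
        · exact min_le_right _ _
        · exact (min_le_left _ _).trans (hη j hj)
    obtain ⟨ε₀, h3, h4⟩ := hfin Finset.univ
    exact ⟨ε₀, h3, fun j => h4 j (Finset.mem_univ _)⟩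
  obtain ⟨ε₀, hε₀, hε₀j⟩ := hexε
  refine ⟨c0, γ, ε₀, hε₀, fun ε hεpos hεlt => ?_⟩
  choose T hT w hw hwper hwn hwne hwu using fun j => hε j ε hεpos (hεlt.trans_le (hε₀j j))
  -- norms
  have hwr : ∀ j t, ‖w j t‖ < r := fun j t => by
    have h3 := (abs_lt.1 (hwn j t)).2
    have := hηj j
    have := hη₁b j
    linarith
  have hsub : ∀ {x : ℂ}, ‖x‖ < r → x ∈ e.source := fun {x} hx =>
    hes (mem_ball_zero_iff.2 (hx.trans_le hrR1))
  have hinj : ∀ {x y : ℂ}, ‖x‖ < r → ‖y‖ < r → ev x (psi g) = ev y (psi g) → x = y := by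
    intro x y hx hy hxy
    rw [← he, ← he] at hxy
    exact e.injOn (hsub hx) (hsub hy) hxy
  set c : Fin ((k + 1) * (k + 4)) → ℝ → ℂ := fun j t => ev (w j t) (psi g) with hc
  have hcR : ∀ {x : ℂ}, ‖x‖ < r → ‖x‖ < R := fun hx => hx.trans_le hrR
  refine ⟨c, ?_, fun j => ⟨⟨fun t => ?_, T j, hT j, fun t => ?_⟩, ?_, ?_, ?_⟩⟩
  · -- distinct orbits
    have hdis : ∀ i j, i < j → range (c i) ≠ range (c j) := by
      intro i j hij heq
      have h3 : c i 0 ∈ range (c j) := by rw [← heq]; exact ⟨0, rfl⟩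
      obtain ⟨t, ht⟩ := h3
      have h4 := hinj (hwr j t) (hwr i 0) ht
      have h5 := abs_lt.1 (hwn j t)
      have h6 := abs_lt.1 (hwn i 0)
      rw [h4] at h5
      have := hηd i j hij
      linarith [h5.1, h6.2]
    intro i j hij
    simp only at hij
    rcases lt_trichotomy i j with h3 | h3 | h3
    · exact absurd hij (hdis i j h3)
    · exact h3
    · exact absurd hij.symm (hdis j i h3)
  · -- the solution
    have h3 := hasDerivAt_ev h1 (hcR (hwr j t))
    have h4 := HasDerivAt.comp_of_eq (x := t) (h₂ := fun z => ev z (psi g)) (h := w j)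
      (y := w j t) h3 (hw j t) rfl
    rw [hc]
    simp only
    rw [ZF_ev k h1 h2 c0 γ ε (hcR (hwr j t))]
    exact h4
  · rw [hc]
    simp only
    rw [hwper]
  · obtain ⟨t, ht⟩ := hwne j
    exact ⟨t, fun h3 => ht (hinj (hwr j t) (hwr j 0) h3)⟩
  · rintro _ ⟨t, rfl⟩
    have : w j t ∈ Metric.ball (0 : ℂ) R₂ := by
      rw [mem_ball_zero_iff]
      exact (hwr j t).trans_le (min_le_right _ _)
    exact hb2 this
  · -- the annulus
    set W : Set ℂ := {x | |‖x‖ - ra j| < η} with hW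
    have hWo : IsOpen W := isOpen_lt (by fun_prop) continuous_const
    have hWr : ∀ x ∈ W, ‖x‖ < r := fun x hx => by
      have h3 := (abs_lt.1 (show |‖x‖ - ra j| < η from hx)).2
      have := hηj j
      have := hη₁b j
      linarith
    have hWs : W ⊆ e.source := fun x hx => hsub (hWr x hx)
    refine ⟨e '' W, e.isOpen_image_of_subset_source hWo hWs, ?_, ?_⟩
    · rintro _ ⟨t, rfl⟩
      exact ⟨w j t, hwn j t, he _⟩
    · rintro c' ⟨hc', T', hT', hper'⟩ hcO
      have hin : ∀ t, e.symm (c' t) ∈ W ∧ ev (e.symm (c' t)) (psi g) = c' t := by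
        intro t
        obtain ⟨x, hx, hxe⟩ := hcO ⟨t, rfl⟩
        have : e.symm (c' t) = x := by rw [← hxe]; exact e.left_inv (hWs hx)
        rw [this, ← he]
        exact ⟨hx, hxe⟩
      set w' : ℝ → ℂ := fun t => e.symm (c' t) with hw'
      have hw'd : ∀ t, HasDerivAt w' (VF G ε (w' t)) t := by
        intro t
        obtain ⟨h3, h4⟩ := hin t
        have h5 : ‖w' t‖ < R := hcR (hWr _ h3)
        have h6 := hasDerivAt_ev h1 h5
        have h7 := ev_eq2 h1 h2 h5
        have hne : ev (w' t) (derivative ℂ (psi g)) ≠ 0 := left_ne_zero_of_mul_eq_one h7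
        have htgt : c' t ∈ e.target := by
          rw [← h4, ← he]
          exact e.map_source (hWs h3)
        have h8 : HasDerivAt e (ev (w' t) (derivative ℂ (psi g))) (e.symm (c' t)) := by
          have : (e : ℂ → ℂ) = fun w => ev w (psi g) := funext he
          rw [this]
          exact h6
        have h9 := e.hasDerivAt_symm htgt hne h8
        have h10 := HasDerivAt.comp_of_eq (x := t) (h₂ := e.symm) (h := c')
          (y := c' t) h9 (hc' t) rfl
        refine h10.congr_deriv ?_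
        have h11 := ZF_ev k h1 h2 c0 γ ε h5
        have h12 : ev (w' t) (psi g) = c' t := h4
        rw [h12] at h11
        rw [h11, ← mul_assoc, inv_mul_cancel₀ hne, one_mul]
      have hran := hwu j T' hT' w' hw'd (fun t => by rw [hw']; simp only; rw [hper'])
        (fun t => (hin t).1)
      have h13 : c' = fun t => ev (w' t) (psi g) := funext fun t => ((hin t).2).symm
      rw [h13]
      have h14 : range (fun t => ev (w' t) (psi g)) = (fun x => ev x (psi g)) '' range w' := by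
        rw [← range_comp]
        rfl
      have h15 : range (c j) = (fun x => ev x (psi g)) '' range (w j) := by
        rw [← range_comp]
        rfl
      rw [h14, h15, hran]

end

end Pool.Agent.helper59.LC
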